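import Pool.Agent.Cot.Ger
import Pool.Agent.Msh.Defs

/-!
# The sheaf of formal microdifferential operators on `T*ℂ^n` (P11, block C, helper50)
-/

set_option autoImplicit false

namespace Pool.Agent.Cot

open MvPowerSeries Topology Filter
open Pool.Agent.Ep (leib)
open Pool.Agent.Msh (FR FRing)

/-! ## row v1a: series which converge on the open polydisc of radius `1 / R` -/

section cv

variable {V : Type} [Fintype V]

/-- `f` converges on the open polydisc of radius `1 / R` -/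
def Cv (R : ℝ) (f : MvPowerSeries V ℂ) : Prop := ∀ R', R < R' → ∃ C, Bd C R' f

private lemma v1a_nn {C R : ℝ} {f : MvPowerSeries V ℂ} (hf : Bd C R f) : 0 ≤ C := by
  have h := (norm_nonneg _).trans (hf 0)
  simpa using h

lemma Bd.cv {C R : ℝ} (hR : 0 ≤ R) {f : MvPowerSeries V ℂ} (hf : Bd C R f) : Cv R f := by
  intro R' h
  exact ⟨C, fun μ => (hf μ).trans
    (mul_le_mul_of_nonneg_left (pow_le_pow_left₀ hR h.le _) (v1a_nn hf))⟩
lemma Cv.zero (R : ℝ) (hR : 0 ≤ R) : Cv R (0 : MvPowerSeries V ℂ) := by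
  have _ := hR
  intro R' _
  exact ⟨0, fun μ => by simp⟩
lemma Cv.add {R : ℝ} {f g : MvPowerSeries V ℂ} (hR : 0 ≤ R) (hf : Cv R f) (hg : Cv R g) :
    Cv R (f + g) := by
  have _ := hR
  intro R' h
  obtain ⟨C1, h1⟩ := hf R' h
  obtain ⟨C2, h2⟩ := hg R' h
  refine ⟨C1 + C2, fun μ => ?_⟩
  rw [map_add, add_mul]
  exact (norm_add_le _ _).trans (add_le_add (h1 μ) (h2 μ))
lemma Cv.smul {R : ℝ} {f : MvPowerSeries V ℂ} (c : ℂ) (hf : Cv R f) : Cv R (c • f) := by
  intro R' h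
  obtain ⟨C1, h1⟩ := hf R' h
  refine ⟨‖c‖ * C1, fun μ => ?_⟩
  rw [map_smul, norm_smul, mul_assoc]
  exact mul_le_mul_of_nonneg_left (h1 μ) (norm_nonneg c)
lemma Cv.sum {R : ℝ} (hR : 0 ≤ R) {κ : Type} (s : Finset κ) {f : κ → MvPowerSeries V ℂ}
    (hf : ∀ i ∈ s, Cv R (f i)) : Cv R (∑ i ∈ s, f i) := by
  classical
  induction s using Finset.induction_on with
  | empty => rw [Finset.sum_empty]; exact Cv.zero R hR
  | insert a s ha ih =>
    rw [Finset.sum_insert ha]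
    exact Cv.add hR (hf a (Finset.mem_insert_self a s))
      (ih fun i hi => hf i (Finset.mem_insert_of_mem hi))

/-! ## row v1b -/

private lemma v1b_pow (N : ℕ) {a b : ℝ} (ha : 0 < a) (hab : a < b) :
    ∃ K : ℝ, 0 ≤ K ∧ ∀ m : ℕ, ((m : ℝ) + 1) ^ N * a ^ m ≤ K * b ^ m := by
  have hb : 0 < b := ha.trans hab
  have hq : |a / b| < 1 := by
    rw [abs_of_pos (div_pos ha hb)]
    exact (div_lt_one hb).2 hab
  have ht := tendsto_pow_const_mul_const_pow_of_abs_lt_one N hq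
  obtain ⟨B, hB⟩ := ht.bddAbove_range
  have hB' : ∀ m : ℕ, (m : ℝ) ^ N * (a / b) ^ m ≤ B := fun m => hB ⟨m, rfl⟩
  have hB0 : 0 ≤ B := le_trans (by positivity) (hB' 1)
  refine ⟨B * (b / a), by positivity, fun m => ?_⟩
  have h1 := hB' (m + 1)
  rw [Nat.cast_add, Nat.cast_one, pow_succ (a / b), div_pow] at h1
  have h2 : ((m : ℝ) + 1) ^ N * a ^ m
      = (((m : ℝ) + 1) ^ N * (a ^ m / b ^ m * (a / b))) * (b / a) * b ^ m := by
    field_simp
  rw [h2]
  exact mul_le_mul_of_nonneg_right (mul_le_mul_of_nonneg_right h1 (by positivity))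
    (by positivity)

private lemma v1b_card [DecidableEq V] (μ : V →₀ ℕ) :
    (((Finset.HasAntidiagonal.antidiagonal μ).card : ℕ) : ℝ) ≤ ((μ.degree : ℝ) + 1) ^ Fintype.card V := by
  have h : (Finset.HasAntidiagonal.antidiagonal μ).card
      ≤ (Fintype.piFinset fun _ : V => Finset.range (μ.degree + 1)).card := by
    refine Finset.card_le_card_of_injOn (fun p v => p.1 v) ?_ ?_
    · intro p hp
      have hp' : p.1 + p.2 = μ := Finset.HasAntidiagonal.mem_antidiagonal.1 hp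
      refine Fintype.mem_piFinset.2 fun v => Finset.mem_range.2 (Nat.lt_succ_of_le ?_)
      have h1 : p.1 v ≤ μ v := by
        rw [← hp', Finsupp.add_apply]
        exact Nat.le_add_right _ _
      exact h1.trans (Finsupp.le_degree v μ)
    · intro p hp q hq hpq
      have hp' : p.1 + p.2 = μ := Finset.HasAntidiagonal.mem_antidiagonal.1 hp
      have hq' : q.1 + q.2 = μ := Finset.HasAntidiagonal.mem_antidiagonal.1 hq
      have h1 : p.1 = q.1 := Finsupp.ext fun v => congrFun hpq v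
      have h2 : p.2 = q.2 := by
        rw [h1, ← hq'] at hp'
        exact add_left_cancel hp'
      exact Prod.ext h1 h2
  rw [Fintype.card_piFinset, Finset.prod_const, Finset.card_univ, Finset.card_range] at h
  exact_mod_cast h

/-- the number of terms is polynomial in `|μ|` -/
lemma Cv.mul {R : ℝ} {f g : MvPowerSeries V ℂ} (hR : 0 < R) (hf : Cv R f) (hg : Cv R g) :
    Cv R (f * g) := by
  classical
  intro R' h
  have h1 : R < (R + R') / 2 := by linarith
  have h2 : (R + R') / 2 < R' := by linarith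
  have h3 : 0 < (R + R') / 2 := hR.trans h1
  obtain ⟨C1, hf1⟩ := hf _ h1
  obtain ⟨C2, hg1⟩ := hg _ h1
  have hC1 := v1a_nn hf1
  have hC2 := v1a_nn hg1
  obtain ⟨K, hK0, hK⟩ := v1b_pow (Fintype.card V) h3 h2
  refine ⟨C1 * C2 * K, fun μ => ?_⟩
  set a : ℝ := (R + R') / 2 with ha
  rw [coeff_mul]
  have h4 : ∀ p ∈ Finset.HasAntidiagonal.antidiagonal μ, ‖coeff p.1 f * coeff p.2 g‖
      ≤ C1 * C2 * a ^ μ.degree := by
    intro p hp
    have hp' : p.1 + p.2 = μ := Finset.HasAntidiagonal.mem_antidiagonal.1 hp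
    rw [norm_mul, ← hp', map_add, pow_add]
    calc ‖coeff p.1 f‖ * ‖coeff p.2 g‖ ≤ (C1 * a ^ p.1.degree) * (C2 * a ^ p.2.degree) :=
          mul_le_mul (hf1 _) (hg1 _) (norm_nonneg _) (mul_nonneg hC1 (by positivity))
      _ = C1 * C2 * (a ^ p.1.degree * a ^ p.2.degree) := by ring
  calc ‖∑ p ∈ Finset.HasAntidiagonal.antidiagonal μ, coeff p.1 f * coeff p.2 g‖
      ≤ ∑ _p ∈ Finset.HasAntidiagonal.antidiagonal μ, C1 * C2 * a ^ μ.degree :=
        (norm_sum_le _ _).trans (Finset.sum_le_sum h4)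
    _ = (((Finset.HasAntidiagonal.antidiagonal μ).card : ℕ) : ℝ) * (C1 * C2 * a ^ μ.degree) := by
        rw [Finset.sum_const, nsmul_eq_mul]
    _ ≤ ((μ.degree : ℝ) + 1) ^ Fintype.card V * (C1 * C2 * a ^ μ.degree) :=
        mul_le_mul_of_nonneg_right (v1b_card μ) (by positivity)
    _ = C1 * C2 * (((μ.degree : ℝ) + 1) ^ Fintype.card V * a ^ μ.degree) := by ring
    _ ≤ C1 * C2 * (K * R' ^ μ.degree) :=
        mul_le_mul_of_nonneg_left (hK _) (by positivity)
    _ = C1 * C2 * K * R' ^ μ.degree := by ring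
/-- `μ_v + 1 ≤ C (R' / R'')^|μ|` for `R < R'' < R'` -/
lemma Cv.pderiv [DecidableEq V] {R : ℝ} {f : MvPowerSeries V ℂ} (hR : 0 < R) (hf : Cv R f) (v : V) :
    Cv R (pderiv ℂ v f) := by
  intro R' h
  have h1 : R < (R + R') / 2 := by linarith
  have h2 : (R + R') / 2 < R' := by linarith
  have h3 : 0 < (R + R') / 2 := hR.trans h1
  obtain ⟨C1, hf1⟩ := hf _ h1
  have hC1 := v1a_nn hf1
  obtain ⟨K, hK0, hK⟩ := v1b_pow 1 h3 h2
  refine ⟨C1 * ((R + R') / 2) * K, fun μ => ?_⟩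
  set a : ℝ := (R + R') / 2 with ha
  rw [coeff_pderiv, norm_mul]
  have h5 : ‖((μ v : ℂ) + 1)‖ ≤ (μ.degree : ℝ) + 1 := by
    have h6 : ((μ v : ℂ) + 1) = ((μ v + 1 : ℕ) : ℂ) := by push_cast; rfl
    rw [h6, Complex.norm_natCast]
    have h7 : μ v + 1 ≤ μ.degree + 1 := Nat.succ_le_succ (Finsupp.le_degree v μ)
    exact_mod_cast h7
  have h8 := hf1 (μ + Finsupp.single v 1)
  rw [map_add, Finsupp.degree_single, pow_succ] at h8
  calc ‖coeff (μ + Finsupp.single v 1) f‖ * ‖((μ v : ℂ) + 1)‖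
      ≤ (C1 * (a ^ μ.degree * a)) * ((μ.degree : ℝ) + 1) :=
        mul_le_mul h8 h5 (norm_nonneg _) (by positivity)
    _ = C1 * a * (((μ.degree : ℝ) + 1) ^ 1 * a ^ μ.degree) := by ring
    _ ≤ C1 * a * (K * R' ^ μ.degree) :=
        mul_le_mul_of_nonneg_left (hK _) (by positivity)
    _ = C1 * a * K * R' ^ μ.degree := by ring

/-! ## row v2: `tr` on these series (choose `R'` slightly larger than `R`) -/

-- BEGIN v2
private lemma v2_pick {R r c T : ℝ} (h : R * r < c) (hT : R < T) :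
    ∃ R', R < R' ∧ R' < T ∧ R' * r ≤ c := by
  have h1 : ∀ᶠ x in 𝓝[>] R, x * r < c := by
    have h2 : Continuous fun x : ℝ => x * r := continuous_id.mul continuous_const
    exact (h2.tendsto R).eventually (gt_mem_nhds h) |>.filter_mono nhdsWithin_le_nhds
  obtain ⟨x, hx1, hx2⟩ := (h1.and (Ioo_mem_nhdsGT hT)).exists
  exact ⟨x, hx2.1, hx2.2, hx1.le⟩

lemma Cv.tr {R r : ℝ} {f : MvPowerSeries V ℂ} (hR : 0 < R) (hf : Cv R f) {w : V → ℂ}
    (hw : ∀ v, ‖w v‖ ≤ r) (hr : R * r < 1 / 4) : Cv (2 * R) (tr w f) := by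
  intro R'' h
  obtain ⟨R', h1, h2, h3⟩ := v2_pick hr (show R < R'' / 2 by linarith)
  obtain ⟨C1, hC⟩ := hf R' h1
  have h4 := tr_bd (hR.trans h1) hC hw h3
  exact ⟨_, h4.mono le_rfl h4.nonneg (by linarith) (by linarith)⟩
lemma cv_tr_add {R r : ℝ} {f g : MvPowerSeries V ℂ} (hR : 0 < R) (hf : Cv R f) (hg : Cv R g)
    {w : V → ℂ} (hw : ∀ v, ‖w v‖ ≤ r) (hr : R * r < 1 / 4) :
    Cot.tr w (f + g) = Cot.tr w f + Cot.tr w g := by
  obtain ⟨R', h1, h2, h3⟩ := v2_pick hr (show R < R + 1 by linarith)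
  obtain ⟨C1, hC1⟩ := hf R' h1
  obtain ⟨C2, hC2⟩ := hg R' h1
  exact tr_add (hR.trans h1) hC1 (hR.trans h1) hC2 hw h3 h3
lemma cv_tr_sum {R r : ℝ} (hR : 0 < R) {κ : Type} (s : Finset κ) {f : κ → MvPowerSeries V ℂ}
    (hf : ∀ i ∈ s, Cv R (f i)) {w : V → ℂ} (hw : ∀ v, ‖w v‖ ≤ r) (hr : R * r < 1 / 4) :
    Cot.tr w (∑ i ∈ s, f i) = ∑ i ∈ s, Cot.tr w (f i) := by
  classical
  induction s using Finset.induction_on with
  | empty => rw [Finset.sum_empty, Finset.sum_empty, tr_zero]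
  | insert a s ha ih =>
    rw [Finset.sum_insert ha, Finset.sum_insert ha,
      cv_tr_add hR (hf a (Finset.mem_insert_self a s))
        (Cv.sum hR.le s fun i hi => hf i (Finset.mem_insert_of_mem hi)) hw hr,
      ih fun i hi => hf i (Finset.mem_insert_of_mem hi)]
lemma cv_tr_mul {R r : ℝ} {f g : MvPowerSeries V ℂ} (hR : 0 < R) (hf : Cv R f) (hg : Cv R g)
    {w : V → ℂ} (hw : ∀ v, ‖w v‖ ≤ r) (hr : R * r < 1 / 4) :
    Cot.tr w (f * g) = Cot.tr w f * Cot.tr w g := by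
  obtain ⟨R', h1, h2, h3⟩ := v2_pick hr (show R < R + 1 by linarith)
  obtain ⟨C1, hC1⟩ := hf R' h1
  obtain ⟨C2, hC2⟩ := hg R' h1
  exact tr_mul (hR.trans h1) hC1 (hR.trans h1) hC2 hw h3 h3
lemma cv_tr_tr {R r : ℝ} {f : MvPowerSeries V ℂ} (hR : 0 < R) (hf : Cv R f)
    {w w' : V → ℂ} (hw : ∀ v, ‖w v‖ ≤ r) (hw' : ∀ v, ‖w' v‖ ≤ r) (hr : R * r < 1 / 8) :
    Cot.tr w' (Cot.tr w f) = Cot.tr (w + w') f := by
  obtain ⟨R', h1, h2, h3⟩ := v2_pick hr (show R < R + 1 by linarith)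
  obtain ⟨C1, hC1⟩ := hf R' h1
  exact tr_tr (hR.trans h1) hC1 hw hw' h3
-- END v2

end cv

variable {n : ℕ}

/-! ## row v3: `tr` and the Leibniz formula -/

private lemma v3_coord {R : ℝ} (hR : 0 < R) (c : ℂ) (i : Fin n) :
    Cv R (C c + X (Sum.inr i) : Ser n) := by
  classical
  intro R' hR'
  have hR0 : 0 < R' := hR.trans hR'
  refine ⟨‖c‖ + R'⁻¹, fun μ => ?_⟩
  rw [map_add]
  have h1 : ‖coeff μ (C c : Ser n)‖ ≤ ‖c‖ * R' ^ μ.degree := by
    rw [coeff_C]
    split_ifs with h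
    · rw [h, map_zero, pow_zero, mul_one]
    · rw [norm_zero]
      positivity
  have h2 : ‖coeff μ (X (Sum.inr i) : Ser n)‖ ≤ R'⁻¹ * R' ^ μ.degree := by
    rw [coeff_X]
    split_ifs with h
    · rw [h, Finsupp.degree_single, pow_one, inv_mul_cancel₀ hR0.ne', norm_one]
    · rw [norm_zero]
      positivity
  calc ‖coeff μ (C c : Ser n) + coeff μ (X (Sum.inr i) : Ser n)‖ ≤ _ := norm_add_le _ _
    _ ≤ ‖c‖ * R' ^ μ.degree + R'⁻¹ * R' ^ μ.degree := add_le_add h1 h2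
    _ = _ := by ring

lemma Cv.leib {R : ℝ} (hR : 0 < R) (k : ℕ) {f g : Ser n} (hf : Cv R f) (hg : Cv R g) :
    Cv R (leib dXi dX k f g) := by
  induction k generalizing f g with
  | zero => exact hf.mul hR hg
  | succ k ih =>
    rw [Pool.Agent.Ep.leib_succ]
    exact (Cv.sum hR.le _ fun i _ => ih (hf.pderiv hR _) (hg.pderiv hR _)).smul _

theorem tr_leib {R r : ℝ} (hR : 0 < R) (k : ℕ) {f g : Ser n} (hf : Cv R f) (hg : Cv R g)
    {w : XX n → ℂ} (hw : ∀ v, ‖w v‖ ≤ r) (hr : R * r < 1 / 4) :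
    tr w (leib dXi dX k f g) = leib dXi dX k (tr w f) (tr w g) := by
  induction k generalizing f g with
  | zero => exact cv_tr_mul hR hf hg hw hr
  | succ k ih =>
    have hl : ∀ i ∈ Finset.univ, Cv R (leib dXi dX k (dXi i f) (dX i g)) :=
      fun i _ => Cv.leib hR k (hf.pderiv hR (Sum.inr i)) (hg.pderiv hR (Sum.inl i))
    rw [Pool.Agent.Ep.leib_succ, Pool.Agent.Ep.leib_succ, tr_smul, cv_tr_sum hR _ hl hw hr]
    refine congrArg _ (Finset.sum_congr rfl fun i _ => ?_)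
    have h1 : dXi i (tr w f) = tr w (dXi i f) := tr_pderiv w (Sum.inr i) f
    have h2 : dX i (tr w g) = tr w (dX i g) := tr_pderiv w (Sum.inl i) g
    rw [h1, h2]
    exact ih (hf.pderiv hR _) (hg.pderiv hR _)

/-- `tr w (ξ_i + X_i) = ξ_i + w_i + X_i` -/
theorem tr_eul {R r : ℝ} (hR : 0 < R) (ξ : Fin n → ℂ) {f : Ser n} (hf : Cv R f)
    {w : XX n → ℂ} (hw : ∀ v, ‖w v‖ ≤ r) (hr : R * r < 1 / 4) :
    eul (fun i => ξ i + w (Sum.inr i)) (tr w f) = tr w (eul ξ f) := by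
  have hd : ∀ i : Fin n, Cv R (dXi i f) := fun i => hf.pderiv hR _
  rw [eul, eul, cv_tr_sum hR _ (fun i _ => (v3_coord hR (ξ i) i).mul hR (hd i)) hw hr]
  refine Finset.sum_congr rfl fun i _ => ?_
  have h1 : dXi i (tr w f) = tr w (dXi i f) := tr_pderiv w (Sum.inr i) f
  have hC : Cv R (C (ξ i) : Ser n) := by
    intro R' hR'
    refine ⟨‖ξ i‖, fun μ => ?_⟩
    classical
    rw [coeff_C]
    split_ifs with h
    · rw [h, map_zero, pow_zero, mul_one]
    · rw [norm_zero]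
      have : 0 < R' := hR.trans hR'
      positivity
  have hX : Cv R (X (Sum.inr i) : Ser n) := by
    have := v3_coord hR 0 i
    rwa [map_zero, zero_add] at this
  rw [h1, cv_tr_mul hR (v3_coord hR (ξ i) i) (hd i) hw hr, cv_tr_add hR hC hX hw hr, tr_C, tr_X,
    map_add]
  ring

/-! ## row v4: `tr` and the product -/

/-- the sequence at the point `(x₀, ξ₀) + w` -/
noncomputable def trs (w : XX n → ℂ) (P : ℤ → Ser n) : ℤ → Ser n := fun k => tr w (P k)

lemma trs_ub {m : ℤ} {P : ℤ → Ser n} (hP : Ub m P) (w : XX n → ℂ) : Ub m (trs w P) :=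
  fun k hk => by rw [trs, hP k hk, tr_zero]

theorem trs_pr {R r : ℝ} (hR : 0 < R) {m m' : ℤ} {P Q : ℤ → Ser n} (hP : Ub m P) (hQ : Ub m' Q)
    (hp : ∀ k, Cv R (P k)) (hq : ∀ k, Cv R (Q k)) {w : XX n → ℂ} (hw : ∀ v, ‖w v‖ ≤ r)
    (hr : R * r < 1 / 4) : trs w (pr P Q) = pr (trs w P) (trs w Q) := by
  funext l
  have hl : ∀ (k : ℕ) (i : ℤ), Cv R (leib dXi dX k (P i) (Q (l + k - i))) :=
    fun k i => Cv.leib hR k (hp _) (hq _)
  rw [trs, pr_eq_sum hP hQ, pr_eq_sum (trs_ub hP w) (trs_ub hQ w),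
    cv_tr_sum hR _ (fun k _ => Cv.sum hR.le _ fun i _ => hl k i) hw hr]
  refine Finset.sum_congr rfl fun k _ => ?_
  rw [cv_tr_sum hR _ (fun i _ => hl k i) hw hr]
  exact Finset.sum_congr rfl fun i _ => tr_leib hR k (hp _) (hq _) hw hr

/-! ## row v5a: germs at nearby points -/

/-- the coordinates of `q - p` -/
def disp (p q : (Fin n → ℂ) × (Fin n → ℂ)) : XX n → ℂ :=
  Sum.elim (fun i => q.1 i - p.1 i) fun i => q.2 i - p.2 i

lemma disp_self (p : (Fin n → ℂ) × (Fin n → ℂ)) : disp p p = 0 := by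
  funext v
  rcases v with i | i
  · simp [disp]
  · simp [disp]
lemma disp_add (p q r : (Fin n → ℂ) × (Fin n → ℂ)) : disp p q + disp q r = disp p r := by
  funext v
  rcases v with i | i
  · simp [disp]
  · simp [disp]
lemma disp_small (p : (Fin n → ℂ) × (Fin n → ℂ)) {r : ℝ} (hr : 0 < r) :
    ∀ᶠ q in 𝓝 p, ∀ v, ‖disp p q v‖ ≤ r := by
  filter_upwards [Metric.closedBall_mem_nhds p hr] with q hq v
  rw [mem_closedBall_iff_norm, Prod.norm_def, max_le_iff] at hq
  rcases v with i | i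
  · exact (norm_le_pi_norm (q - p).1 i).trans hq.1
  · exact (norm_le_pi_norm (q - p).2 i).trans hq.2

lemma IsHat.cv {ξ : Fin n → ℂ} {P : ℤ → Ser n} (h : IsHat ξ P) :
    ∃ R : ℝ, 0 < R ∧ ∀ k, Cv R (P k) := by
  obtain ⟨R, h0, h1⟩ := h.conv
  refine ⟨R, h0, fun k => ?_⟩
  obtain ⟨C, hC⟩ := h1 k
  exact hC.cv h0.le

/-! ## row v5b -/

theorem hat_near {p : (Fin n → ℂ) × (Fin n → ℂ)} {P : ℤ → Ser n} (h : IsHat p.2 P) :
    ∀ᶠ q in 𝓝 p, IsHat q.2 (trs (disp p q) P) := by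
  obtain ⟨m, hm⟩ := h.bdd
  obtain ⟨R, hR, hC⟩ := h.conv
  have hr : 0 < (8 * R)⁻¹ := by positivity
  have hRr : R * (8 * R)⁻¹ = 1 / 8 := by
    rw [mul_inv, mul_left_comm, mul_inv_cancel₀ hR.ne']
    norm_num
  filter_upwards [disp_small p hr] with q hq
  refine ⟨fun k => ?_, ⟨m, trs_ub hm _⟩, 2 * R, by positivity, fun k => ?_⟩
  · obtain ⟨C, hCk⟩ := hC k
    have h1 := tr_eul hR p.2 (hCk.cv hR.le) hq (by rw [hRr]; norm_num)
    have h2 : (fun i => p.2 i + disp p q (Sum.inr i)) = q.2 := by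
      funext i
      exact add_sub_cancel _ _
    rw [h2] at h1
    rw [trs, h1, h.hom k, tr_smul]
  · obtain ⟨C, hCk⟩ := hC k
    exact ⟨_, tr_bd hR hCk hq (by rw [hRr]; norm_num)⟩

theorem mic_near (p : (Fin n → ℂ) × (Fin n → ℂ)) {P : ℤ → Ser n} (h : IsMic P) :
    ∀ᶠ q in 𝓝 p, IsMic (trs (disp p q) P) := by
  obtain ⟨C, hC⟩ := h
  set R : ℝ := max |C| 1 with hRdef
  have hR1 : 1 ≤ R := le_max_right _ _
  have hR : 0 < R := by linarith
  have hbd : ∀ k, Bd (R ^ (k.natAbs + 1) * ((-k).toNat).factorial) R (P k) := by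
    intro k μ
    refine (hC k μ).trans ?_
    have h1 : C ^ (μ.degree + k.natAbs + 1) ≤ R ^ (μ.degree + k.natAbs + 1) := by
      refine (le_abs_self _).trans ?_
      rw [abs_pow]
      exact pow_le_pow_left₀ (abs_nonneg _) (le_max_left _ _) _
    refine (mul_le_mul_of_nonneg_right h1 (by positivity)).trans (le_of_eq ?_)
    rw [add_assoc, pow_add]
    ring
  have hr : 0 < (4 * R)⁻¹ := by positivity
  have hRr : R * (4 * R)⁻¹ = 1 / 4 := by
    rw [mul_inv, mul_left_comm, mul_inv_cancel₀ hR.ne']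
    norm_num
  filter_upwards [disp_small p hr] with q hq
  set K : ℝ := 2 ^ Fintype.card (XX n) with hK
  have hK1 : 1 ≤ K := one_le_pow₀ (by norm_num)
  refine ⟨2 * R * K, fun k μ => ?_⟩
  refine (tr_bd hR (hbd k) hq hRr.le μ).trans ?_
  have h2 : (2 * R) ^ μ.degree ≤ (2 * R * K) ^ μ.degree :=
    pow_le_pow_left₀ (by positivity) (le_mul_of_one_le_right (by positivity) hK1) _
  have h3 : R ^ (k.natAbs + 1) * K ≤ (2 * R * K) ^ (k.natAbs + 1) := by
    rw [mul_pow]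
    refine mul_le_mul ?_ (le_self_pow₀ hK1 (by omega)) (by positivity) (by positivity)
    exact pow_le_pow_left₀ hR.le (by linarith) _
  calc R ^ (k.natAbs + 1) * ((-k).toNat).factorial * K * (2 * R) ^ μ.degree
      = (R ^ (k.natAbs + 1) * K) * (2 * R) ^ μ.degree * ((-k).toNat).factorial := by ring
    _ ≤ (2 * R * K) ^ (k.natAbs + 1) * (2 * R * K) ^ μ.degree * ((-k).toNat).factorial := by
        refine mul_le_mul_of_nonneg_right (mul_le_mul h3 h2 (by positivity) (by positivity))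
          (by positivity)
    _ = (2 * R * K) ^ (μ.degree + k.natAbs + 1) * ((-k).toNat).factorial := by
        rw [← pow_add]
        congr 2
        omega

/-! ## the sheaf -/

/-- the filtration of the stalk by the order -/
def Germ.fr (ξ : Fin n → ℂ) : FR (Germ ξ) where
  F := Germ.fil ξ
  mono m _ ha := Ub.mono (m := m) (by omega) ha
  one := fun k hk => by
    change (if k = 0 then (1 : Ser n) else 0) = 0
    rw [if_neg (by omega)]
  mul _ _ _ _ ha hb := pr_ub ha hb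
  exh a := by
    obtain ⟨m, hm⟩ := a.2.bdd
    exact ⟨m, hm⟩

open Classical in
/-- the germ with the total symbol `P` (and `0` if `P` is not a total symbol at `(x₀, ξ)`) -/
noncomputable def Germ.mk' (ξ : Fin n → ℂ) (P : ℤ → Ser n) : Germ ξ :=
  if h : IsHat ξ P then ⟨P, h⟩ else 0

lemma Germ.sy_mk' {ξ : Fin n → ℂ} {P : ℤ → Ser n} (h : IsHat ξ P) : (Germ.mk' ξ P).sy = P := by
  rw [Germ.mk', dif_pos h]
  rfl

/-- the section near `p` given by the germ `a`: the expansions at the points `q` of the symbols -/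
noncomputable def gext (p : (Fin n → ℂ) × (Fin n → ℂ)) (a : Germ p.2)
    (q : (Fin n → ℂ) × (Fin n → ℂ)) : Germ q.2 := Germ.mk' q.2 (trs (disp p q) a.sy)

lemma gext_near (p : (Fin n → ℂ) × (Fin n → ℂ)) (a : Germ p.2) :
    ∀ᶠ q in 𝓝 p, (gext p a q).sy = trs (disp p q) a.sy := by
  filter_upwards [hat_near a.2] with q hq using Germ.sy_mk' hq

lemma common {p : (Fin n → ℂ) × (Fin n → ℂ)} (a b : Germ p.2) :
    ∃ R r : ℝ, 0 < R ∧ 0 < r ∧ R * r < 1 / 8 ∧ (∀ k, Cv R (a.sy k)) ∧ ∀ k, Cv R (b.sy k) := by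
  obtain ⟨R, h0, h1⟩ := a.2.cv
  obtain ⟨S, h2, h3⟩ := b.2.cv
  refine ⟨max R S, (16 * max R S)⁻¹, lt_max_of_lt_left h0, ?_, ?_, ?_, ?_⟩
  · have : 0 < max R S := lt_max_of_lt_left h0
    positivity
  · have : 0 < max R S := lt_max_of_lt_left h0
    rw [mul_inv, mul_left_comm, mul_inv_cancel₀ this.ne']
    norm_num
  · exact fun k R' hR' => h1 k R' (lt_of_le_of_lt (le_max_left _ _) hR')
  · exact fun k R' hR' => h3 k R' (lt_of_le_of_lt (le_max_right _ _) hR')

/-- the sheaf of formal microdifferential operators on `T*ℂ^n` -/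
noncomputable def hat (n : ℕ) : FRing ((Fin n → ℂ) × (Fin n → ℂ)) where
  A p := Germ p.2
  ext := gext
  ext_self p a := by
    have h : trs (disp p p) a.sy = a.sy := by
      funext k
      rw [trs, disp_self, tr_zero_w]
    refine Germ.ext' ?_
    rw [gext, h]
    exact Germ.sy_mk' a.2
  ext_ext p a := by
    obtain ⟨R, r, hR, hr, hRr, ha, -⟩ := common a a
    filter_upwards [gext_near p a, disp_small p hr] with q h1 h2
    filter_upwards [disp_small q hr] with s h3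
    refine congrArg (Germ.mk' s.2) (funext fun k => ?_)
    rw [trs, h1, trs, trs, cv_tr_tr hR (ha k) h2 h3 hRr, disp_add]
  ext_add p a b := by
    obtain ⟨R, r, hR, hr, hRr, ha, hb⟩ := common a b
    filter_upwards [gext_near p a, gext_near p b, gext_near p (a + b), disp_small p hr]
      with q h1 h2 h3 h4
    refine Germ.ext' ?_
    rw [h3, Germ.sy_add, Germ.sy_add, h1, h2]
    funext k
    exact cv_tr_add hR (ha k) (hb k) h4 (by linarith)
  ext_mul p a b := by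
    obtain ⟨R, r, hR, hr, hRr, ha, hb⟩ := common a b
    obtain ⟨m, hm⟩ := a.2.bdd
    obtain ⟨m', hm'⟩ := b.2.bdd
    filter_upwards [gext_near p a, gext_near p b, gext_near p (a * b), disp_small p hr]
      with q h1 h2 h3 h4
    refine Germ.ext' ?_
    rw [h3, Germ.sy_mul, Germ.sy_mul, h1, h2]
    exact trs_pr hR hm hm' ha hb h4 (by linarith)
  ext_one p := by
    filter_upwards [gext_near p (1 : Germ p.2)] with q h1
    refine Germ.ext' ?_
    rw [h1]
    funext k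
    change tr _ (if k = 0 then (1 : Ser n) else 0) = if k = 0 then (1 : Ser n) else 0
    split_ifs
    · have h := tr_C (V := XX n) (disp p q) 1
      rwa [map_one] at h
    · exact tr_zero _
  fil p := Germ.fr p.2
  ext_fil m p a ha := by
    filter_upwards [gext_near p a] with q h1
    change Ub m (gext p a q).sy
    rw [h1]
    exact trs_ub ha _

end Pool.Agent.Cot
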