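import Mathlib

/-!
# Translations and linear changes of variables in convergent power series (P11, block C, helper50)
-/

set_option autoImplicit false

namespace Pool.Agent.Cot

open MvPowerSeries

variable {V : Type} [Fintype V]

/-- convergence on a polydisc: `|f_μ| ≤ C R^|μ|` -/
def Bd (C R : ℝ) (f : MvPowerSeries V ℂ) : Prop := ∀ μ : V →₀ ℕ, ‖coeff μ f‖ ≤ C * R ^ μ.degree

/-- The power series of `f` at the point `w`: `f (X + w)`, by the formula of Taylor,
`coeff μ = ∑_λ f_(μ+λ) ∏_v binom(μ_v + λ_v, λ_v) w_v^λ_v`. -/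
noncomputable def tr (w : V → ℂ) (f : MvPowerSeries V ℂ) : MvPowerSeries V ℂ := fun μ =>
  ∑' l : V →₀ ℕ, coeff (μ + l) f * ∏ v, (((μ v + l v).choose (l v) : ℂ) * w v ^ l v)

/-! ## row t1: convergence -/

-- BEGIN t1
private lemma t1_geom (N : ℕ) : ∑ k ∈ Finset.range N, (1 / 2 : ℝ) ^ k ≤ 2 := by
  have h := Summable.sum_le_tsum (Finset.range N) (fun k _ => by positivity)
    (summable_geometric_two)
  rwa [tsum_geometric_two] at h

private lemma t1_box (s : Finset (V →₀ ℕ)) :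
    ∑ l ∈ s, ∏ v, (1 / 2 : ℝ) ^ l v ≤ 2 ^ Fintype.card V := by
  classical
  set N : ℕ := s.sup (fun l => l.degree) + 1 with hN
  have h1 : ∑ l ∈ s, ∏ v, (1 / 2 : ℝ) ^ l v
      = ∑ p ∈ s.map (Finsupp.equivFunOnFinite (α := V) (M := ℕ)).toEmbedding,
        ∏ v, (1 / 2 : ℝ) ^ p v := by
    rw [Finset.sum_map]
    rfl
  have h2 : s.map (Finsupp.equivFunOnFinite (α := V) (M := ℕ)).toEmbedding
      ⊆ Fintype.piFinset fun _ : V => Finset.range N := by
    intro p hp
    obtain ⟨l, hl, rfl⟩ := Finset.mem_map.1 hp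
    rw [Fintype.mem_piFinset]
    intro v
    rw [Finset.mem_range, hN]
    exact Nat.lt_succ_of_le ((Finsupp.le_degree v l).trans (Finset.le_sup (f := fun l : V →₀ ℕ => l.degree) hl))
  rw [h1]
  refine (Finset.sum_le_sum_of_subset_of_nonneg h2 fun p _ _ => by positivity).trans ?_
  rw [← Finset.prod_univ_sum (fun _ : V => Finset.range N) fun _ k => (1 / 2 : ℝ) ^ k]
  refine (Finset.prod_le_prod (fun _ _ => by positivity) fun _ _ => t1_geom N).trans ?_
  rw [Finset.prod_const, Finset.card_univ]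

private lemma t1_summ : Summable fun l : V →₀ ℕ => ∏ v, (1 / 2 : ℝ) ^ l v :=
  summable_of_sum_le (fun l => by positivity) t1_box

private lemma t1_tsum : ∑' l : V →₀ ℕ, ∏ v, (1 / 2 : ℝ) ^ l v ≤ 2 ^ Fintype.card V :=
  Summable.tsum_le_of_sum_le t1_summ t1_box

private lemma t1_term {C R r : ℝ} {f : MvPowerSeries V ℂ} (hR : 0 < R) (hf : Bd C R f) {w : V → ℂ}
    (hw : ∀ v, ‖w v‖ ≤ r) (hr : R * r ≤ 1 / 4) (μ l : V →₀ ℕ) :
    ‖coeff (μ + l) f * ∏ v, (((μ v + l v).choose (l v) : ℂ) * w v ^ l v)‖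
      ≤ C * (2 * R) ^ μ.degree * ∏ v, (1 / 2 : ℝ) ^ l v := by
  have hC : 0 ≤ C := by
    have h := (norm_nonneg _).trans (hf 0)
    rwa [map_zero, pow_zero, mul_one] at h
  have h1 : ∀ v, ‖((μ v + l v).choose (l v) : ℂ) * w v ^ l v‖
      ≤ 2 ^ μ v * ((2 * r) ^ l v) := by
    intro v
    rw [norm_mul, norm_pow, Complex.norm_natCast]
    have h2 : ((μ v + l v).choose (l v) : ℝ) ≤ 2 ^ (μ v + l v) := by
      exact_mod_cast Nat.choose_le_two_pow (μ v + l v) (l v)
    calc ((μ v + l v).choose (l v) : ℝ) * ‖w v‖ ^ l v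
        ≤ 2 ^ (μ v + l v) * r ^ l v :=
          mul_le_mul h2 (pow_le_pow_left₀ (norm_nonneg _) (hw v) _) (by positivity) (by positivity)
      _ = 2 ^ μ v * ((2 * r) ^ l v) := by rw [pow_add, mul_pow]; ring
  have h3 : ∏ v, ‖((μ v + l v).choose (l v) : ℂ) * w v ^ l v‖
      ≤ ∏ v, (2 ^ μ v * ((2 * r) ^ l v)) :=
    Finset.prod_le_prod (fun _ _ => norm_nonneg _) fun v _ => h1 v
  have hdeg : ∀ m : V →₀ ℕ, m.degree = ∑ v, m v := fun m => Finsupp.degree_eq_sum m
  have h4 : R ^ (μ + l).degree = R ^ μ.degree * ∏ v, R ^ l v := by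
    rw [map_add, pow_add, Finset.prod_pow_eq_pow_sum, hdeg l]
  have h5 : ∏ v, ((2 : ℝ) ^ μ v * ((2 * r) ^ l v)) = 2 ^ μ.degree * ∏ v, (2 * r) ^ l v := by
    rw [Finset.prod_mul_distrib, Finset.prod_pow_eq_pow_sum, hdeg μ]
  have h6 : (∏ v, R ^ l v) * ∏ v, (2 * r) ^ l v ≤ ∏ v, (1 / 2 : ℝ) ^ l v := by
    rw [← Finset.prod_mul_distrib]
    refine Finset.prod_le_prod (fun v _ => ?_) fun v _ => ?_
    · have hr0 : 0 ≤ r := (norm_nonneg _).trans (hw v)
      positivity
    · have hr0 : 0 ≤ r := (norm_nonneg _).trans (hw v)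
      rw [← mul_pow]
      refine pow_le_pow_left₀ (by positivity) ?_ _
      linarith
  rw [norm_mul, norm_prod]
  calc ‖coeff (μ + l) f‖ * ∏ v, ‖((μ v + l v).choose (l v) : ℂ) * w v ^ l v‖
      ≤ (C * R ^ (μ + l).degree) * ∏ v, ((2 : ℝ) ^ μ v * ((2 * r) ^ l v)) :=
        mul_le_mul (hf _) h3 (Finset.prod_nonneg fun _ _ => norm_nonneg _)
          (mul_nonneg hC (by positivity))
    _ = C * (2 * R) ^ μ.degree * ((∏ v, R ^ l v) * ∏ v, (2 * r) ^ l v) := by
        rw [h4, h5, mul_pow]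
        ring
    _ ≤ C * (2 * R) ^ μ.degree * ∏ v, (1 / 2 : ℝ) ^ l v :=
        mul_le_mul_of_nonneg_left h6 (mul_nonneg hC (by positivity))

/-- all sums in `tr w f` converge if `|w_v| ≤ r`, `R r ≤ 1/4` (`binom ≤ 2^(μ_v+λ_v)`, geometric
series) -/
theorem tr_summable {C R r : ℝ} {f : MvPowerSeries V ℂ} (hR : 0 < R) (hf : Bd C R f) {w : V → ℂ}
    (hw : ∀ v, ‖w v‖ ≤ r) (hr : R * r ≤ 1 / 4) (μ : V →₀ ℕ) :
    Summable fun l : V →₀ ℕ => coeff (μ + l) f * ∏ v, (((μ v + l v).choose (l v) : ℂ) * w v ^ l v) :=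
  Summable.of_norm_bounded (t1_summ.mul_left (C * (2 * R) ^ μ.degree))
    fun l => t1_term hR hf hw hr μ l

theorem tr_bd {C R r : ℝ} {f : MvPowerSeries V ℂ} (hR : 0 < R) (hf : Bd C R f) {w : V → ℂ}
    (hw : ∀ v, ‖w v‖ ≤ r) (hr : R * r ≤ 1 / 4) :
    Bd (C * 2 ^ Fintype.card V) (2 * R) (tr w f) := by
  intro μ
  have hC : 0 ≤ C := by
    have h := (norm_nonneg _).trans (hf 0)
    rwa [map_zero, pow_zero, mul_one] at h
  rw [coeff_apply, tr]
  refine (tsum_of_norm_bounded (t1_summ.mul_left (C * (2 * R) ^ μ.degree)).hasSum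
    fun l => t1_term hR hf hw hr μ l).trans ?_
  rw [tsum_mul_left]
  calc C * (2 * R) ^ μ.degree * ∑' l : V →₀ ℕ, ∏ v, (1 / 2 : ℝ) ^ l v
      ≤ C * (2 * R) ^ μ.degree * 2 ^ Fintype.card V :=
        mul_le_mul_of_nonneg_left t1_tsum (mul_nonneg hC (by positivity))
    _ = C * 2 ^ Fintype.card V * (2 * R) ^ μ.degree := by ring
-- END t1

/-! ## row t2: linearity -/

-- BEGIN t2
lemma Bd.nonneg {C R : ℝ} {f : MvPowerSeries V ℂ} (hf : Bd C R f) : 0 ≤ C := by
  have h := (norm_nonneg _).trans (hf 0)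
  rwa [map_zero, pow_zero, mul_one] at h

lemma Bd.mono {C C' R R' : ℝ} (hC : C ≤ C') (h0 : 0 ≤ C') (hR : 0 ≤ R) (h : R ≤ R')
    {f : MvPowerSeries V ℂ} (hf : Bd C R f) : Bd C' R' f := fun μ =>
  (hf μ).trans (mul_le_mul hC (pow_le_pow_left₀ hR h _) (pow_nonneg hR _) h0)

lemma tr_zero_w (f : MvPowerSeries V ℂ) : tr 0 f = f := by
  ext μ
  rw [coeff_apply, tr]
  rw [tsum_eq_single 0]
  · simp
  · intro l hl
    obtain ⟨v, hv⟩ := Finsupp.ne_iff.1 hl
    rw [Finset.prod_eq_zero (Finset.mem_univ v), mul_zero]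
    rw [Pi.zero_apply, zero_pow hv, mul_zero]

lemma tr_zero (w : V → ℂ) : tr w (0 : MvPowerSeries V ℂ) = 0 := by
  ext μ
  rw [coeff_apply, tr]
  simp

lemma tr_C (w : V → ℂ) (c : ℂ) : tr w (C c : MvPowerSeries V ℂ) = C c := by
  classical
  ext μ
  rw [coeff_apply, tr]
  rw [tsum_eq_single 0]
  · simp
  · intro l hl
    rw [coeff_C, if_neg, zero_mul]
    intro h
    exact hl (by
      have h1 : μ + l = 0 := h
      exact (add_eq_zero.1 h1).2)

lemma tr_smul (w : V → ℂ) (c : ℂ) (f : MvPowerSeries V ℂ) : tr w (c • f) = c • tr w f := by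
  ext μ
  rw [map_smul, coeff_apply, coeff_apply, tr, tr, smul_eq_mul, ← tsum_mul_left]
  refine tsum_congr fun l => ?_
  rw [map_smul, smul_eq_mul, mul_assoc]

lemma tr_neg (w : V → ℂ) (f : MvPowerSeries V ℂ) : tr w (-f) = -tr w f := by
  rw [← neg_one_smul ℂ f, tr_smul, neg_one_smul]

theorem tr_add {C C' R R' r : ℝ} {f g : MvPowerSeries V ℂ} (hR : 0 < R) (hf : Bd C R f) (hR' : 0 < R')
    (hg : Bd C' R' g) {w : V → ℂ} (hw : ∀ v, ‖w v‖ ≤ r) (hr : R * r ≤ 1 / 4) (hr' : R' * r ≤ 1 / 4) :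
    tr w (f + g) = tr w f + tr w g := by
  ext μ
  rw [map_add, coeff_apply, coeff_apply, coeff_apply, tr, tr, tr,
    ← (tr_summable hR hf hw hr μ).tsum_add (tr_summable hR' hg hw hr' μ)]
  refine tsum_congr fun l => ?_
  rw [map_add, add_mul]
-- END t2

/-! ## row t3: the product (helper93) -/
-- BEGIN t3

/-- Vandermonde in several variables -/
private lemma t3_vand [DecidableEq V] (α β l : V →₀ ℕ) :
    ∑ i ∈ Finset.HasAntidiagonal.antidiagonal l, ∏ v, ((α v).choose (i.1 v) * (β v).choose (i.2 v)) =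
      ∏ v, (α v + β v).choose (l v) := by
  simp only [Nat.add_choose_eq]
  rw [Finset.prod_univ_sum]
  refine Finset.sum_bij' (fun i _ v => (i.1 v, i.2 v))
    (fun x _ => (Finsupp.equivFunOnFinite.symm fun v => (x v).1,
      Finsupp.equivFunOnFinite.symm fun v => (x v).2)) ?_ ?_ ?_ ?_ ?_
  · intro i hi
    rw [Fintype.mem_piFinset]
    intro v
    rw [Finset.HasAntidiagonal.mem_antidiagonal] at hi ⊢
    show i.1 v + i.2 v = l v
    rw [← hi, Finsupp.add_apply]
  · intro x hx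
    rw [Fintype.mem_piFinset] at hx
    rw [Finset.HasAntidiagonal.mem_antidiagonal]
    ext v
    exact Finset.HasAntidiagonal.mem_antidiagonal.1 (hx v)
  · intro i _
    refine Prod.ext ?_ ?_ <;> ext v <;> rfl
  · intro x _
    rfl
  · intro i _
    rfl

/-- shifting an antidiagonal -/
private lemma t3_shift [DecidableEq V] (μ l : V →₀ ℕ) (i : (V →₀ ℕ) × (V →₀ ℕ))
    (hi : i ∈ Finset.HasAntidiagonal.antidiagonal l) (F : (V →₀ ℕ) → (V →₀ ℕ) → ℂ) :
    ∑ k ∈ Finset.HasAntidiagonal.antidiagonal μ, F (k.1 + i.1) (k.2 + i.2) *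
        ((∏ v, ((k.1 + i.1) v).choose (i.1 v) * ((k.2 + i.2) v).choose (i.2 v) : ℕ) : ℂ) =
      ∑ p ∈ Finset.HasAntidiagonal.antidiagonal (μ + l), F p.1 p.2 *
        ((∏ v, (p.1 v).choose (i.1 v) * (p.2 v).choose (i.2 v) : ℕ) : ℂ) := by
  refine Finset.sum_of_injOn (fun k => (k.1 + i.1, k.2 + i.2)) ?_ ?_ ?_ ?_
  · rintro ⟨a, b⟩ _ ⟨a', b'⟩ _ h
    have h1 : a + i.1 = a' + i.1 := congrArg Prod.fst h
    have h2 : b + i.2 = b' + i.2 := congrArg Prod.snd h
    exact Prod.ext (add_right_cancel h1) (add_right_cancel h2)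
  · rintro ⟨a, b⟩ hk
    have h1 : a + b = μ := Finset.HasAntidiagonal.mem_antidiagonal.1 hk
    have h2 : i.1 + i.2 = l := Finset.HasAntidiagonal.mem_antidiagonal.1 hi
    refine Finset.mem_coe.2 (Finset.HasAntidiagonal.mem_antidiagonal.2 ?_)
    show a + i.1 + (b + i.2) = μ + l
    rw [← h1, ← h2]
    abel
  · rintro ⟨a, b⟩ hp hnot
    have h1 : a + b = μ + l := Finset.HasAntidiagonal.mem_antidiagonal.1 hp
    have h2 : i.1 + i.2 = l := Finset.HasAntidiagonal.mem_antidiagonal.1 hi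
    have h3 : ¬ (i.1 ≤ a ∧ i.2 ≤ b) := by
      rintro ⟨h4, h5⟩
      refine hnot ⟨(a - i.1, b - i.2), ?_, ?_⟩
      · refine Finset.mem_coe.2 (Finset.HasAntidiagonal.mem_antidiagonal.2 ?_)
        show a - i.1 + (b - i.2) = μ
        have h6 : a - i.1 + (b - i.2) + l = μ + l := by
          rw [← h1, ← h2]
          rw [add_add_add_comm, tsub_add_cancel_of_le h4, tsub_add_cancel_of_le h5]
        exact add_right_cancel h6
      · show (a - i.1 + i.1, b - i.2 + i.2) = (a, b)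
        rw [tsub_add_cancel_of_le h4, tsub_add_cancel_of_le h5]
    have h4 : (∏ v, (a v).choose (i.1 v) * (b v).choose (i.2 v) : ℕ) = 0 := by
      rw [not_and_or] at h3
      rcases h3 with h3 | h3
      · rw [Finsupp.le_def] at h3
        push Not at h3
        obtain ⟨v, hv⟩ := h3
        exact Finset.prod_eq_zero (Finset.mem_univ v)
          (by rw [Nat.choose_eq_zero_of_lt hv, zero_mul])
      · rw [Finsupp.le_def] at h3
        push Not at h3
        obtain ⟨v, hv⟩ := h3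
        exact Finset.prod_eq_zero (Finset.mem_univ v)
          (by rw [Nat.choose_eq_zero_of_lt hv, mul_zero])
    show F a b * ((∏ v, (a v).choose (i.1 v) * (b v).choose (i.2 v) : ℕ) : ℂ) = 0
    rw [h4, Nat.cast_zero, mul_zero]
  · intro k _
    rfl

/-- the finite identity behind `tr_mul` -/
private lemma t3_fin [DecidableEq V] (μ l : V →₀ ℕ) (F : (V →₀ ℕ) → (V →₀ ℕ) → ℂ) :
    ∑ k ∈ Finset.HasAntidiagonal.antidiagonal μ, ∑ i ∈ Finset.HasAntidiagonal.antidiagonal l, F (k.1 + i.1) (k.2 + i.2) *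
        ((∏ v, ((k.1 + i.1) v).choose (i.1 v) * ((k.2 + i.2) v).choose (i.2 v) : ℕ) : ℂ) =
      ∑ p ∈ Finset.HasAntidiagonal.antidiagonal (μ + l), F p.1 p.2 *
        ((∏ v, (μ v + l v).choose (l v) : ℕ) : ℂ) := by
  rw [Finset.sum_comm, Finset.sum_congr rfl (fun i hi => t3_shift μ l i hi F), Finset.sum_comm]
  refine Finset.sum_congr rfl fun p hp => ?_
  rw [← Finset.mul_sum, ← Nat.cast_sum, t3_vand]
  have h1 : p.1 + p.2 = μ + l := Finset.HasAntidiagonal.mem_antidiagonal.1 hp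
  have h2 : ∀ v, p.1 v + p.2 v = μ v + l v := fun v => by
    rw [← Finsupp.add_apply, h1, Finsupp.add_apply]
  simp only [h2]

/-- the product of two terms -/
private lemma t3_term (w : V → ℂ) (a b : ℂ) (κ κ' i j l : V →₀ ℕ) (h : i + j = l) :
    (a * ∏ v, (((κ v + i v).choose (i v) : ℂ) * w v ^ i v)) *
      (b * ∏ v, (((κ' v + j v).choose (j v) : ℂ) * w v ^ j v)) =
      a * b * ((∏ v, ((κ + i) v).choose (i v) * ((κ' + j) v).choose (j v) : ℕ) : ℂ) *
        ∏ v, w v ^ l v := by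
  have h1 : ∀ v, l v = i v + j v := fun v => by rw [← h, Finsupp.add_apply]
  have h2 : ∀ v, (κ + i) v = κ v + i v := fun v => Finsupp.add_apply _ _ _
  have h3 : ∀ v, (κ' + j) v = κ' v + j v := fun v => Finsupp.add_apply _ _ _
  rw [Nat.cast_prod]
  simp only [h1, h2, h3, Nat.cast_mul, pow_add, Finset.prod_mul_distrib]
  ring

/-- the terms of `coeff κ (tr w f)` -/
private noncomputable def t3_t (w : V → ℂ) (f : MvPowerSeries V ℂ) (κ l : V →₀ ℕ) : ℂ :=
  coeff (κ + l) f * ∏ v, (((κ v + l v).choose (l v) : ℂ) * w v ^ l v)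

private lemma t3_coeff (w : V → ℂ) (f : MvPowerSeries V ℂ) (μ : V →₀ ℕ) :
    coeff μ (tr w f) = ∑' l : V →₀ ℕ, t3_t w f μ l := by
  rw [coeff_apply, tr]
  rfl

omit [Fintype V] in
private lemma t3_cauchy [DecidableEq V] (a b : (V →₀ ℕ) → ℂ) (ha : Summable a)
    (hb : Summable b) :
    (∑' l, a l) * (∑' l, b l) = ∑' l, ∑ i ∈ Finset.HasAntidiagonal.antidiagonal l, a i.1 * b i.2 :=
  ha.tsum_mul_tsum_eq_tsum_sum_antidiagonal hb (summable_mul_of_summable_norm ha.norm hb.norm)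

omit [Fintype V] in
private lemma t3_summ [DecidableEq V] (a b : (V →₀ ℕ) → ℂ) (ha : Summable a)
    (hb : Summable b) :
    Summable fun l : V →₀ ℕ => ∑ i ∈ Finset.HasAntidiagonal.antidiagonal l, a i.1 * b i.2 :=
  summable_sum_mul_antidiagonal_of_summable_mul (summable_mul_of_summable_norm ha.norm hb.norm)

private lemma t3_termwise [DecidableEq V] (w : V → ℂ) (f g : MvPowerSeries V ℂ) (μ l : V →₀ ℕ) :
    t3_t w (f * g) μ l = ∑ k ∈ Finset.HasAntidiagonal.antidiagonal μ,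
      ∑ i ∈ Finset.HasAntidiagonal.antidiagonal l, t3_t w f k.1 i.1 * t3_t w g k.2 i.2 := by
  have h2 : ∀ k ∈ Finset.HasAntidiagonal.antidiagonal μ,
        ∑ i ∈ Finset.HasAntidiagonal.antidiagonal l, t3_t w f k.1 i.1 * t3_t w g k.2 i.2 =
      (∑ i ∈ Finset.HasAntidiagonal.antidiagonal l, (coeff (k.1 + i.1) f * coeff (k.2 + i.2) g) *
        ((∏ v, ((k.1 + i.1) v).choose (i.1 v) * ((k.2 + i.2) v).choose (i.2 v) : ℕ) : ℂ)) *
        ∏ v, w v ^ l v := by
    intro k _
    rw [Finset.sum_mul]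
    refine Finset.sum_congr rfl fun i hi => ?_
    exact t3_term w _ _ k.1 k.2 i.1 i.2 l (Finset.HasAntidiagonal.mem_antidiagonal.1 hi)
  rw [Finset.sum_congr rfl h2, ← Finset.sum_mul,
    t3_fin μ l (fun α β => coeff α f * coeff β g), ← Finset.sum_mul, t3_t, coeff_mul,
    Nat.cast_prod, Finset.prod_mul_distrib, mul_assoc]

/-- Both sides are absolutely convergent sums of the products of the images of the monomials of
`f` and `g`; for monomials `tr w X^ν = ∏ (X_v + w_v)^ν_v`. Or directly: Vandermonde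
`∑_(κ+κ'=μ) binom(α,κ) binom(β,κ') = binom(α+β,μ)` in each variable and Fubini. -/
theorem tr_mul {C C' R R' r : ℝ} {f g : MvPowerSeries V ℂ} (hR : 0 < R) (hf : Bd C R f) (hR' : 0 < R')
    (hg : Bd C' R' g) {w : V → ℂ} (hw : ∀ v, ‖w v‖ ≤ r) (hr : R * r ≤ 1 / 4) (hr' : R' * r ≤ 1 / 4) :
    tr w (f * g) = tr w f * tr w g := by
  classical
  have hS : ∀ κ : V →₀ ℕ, Summable (t3_t w f κ) := fun κ => tr_summable hR hf hw hr κ
  have hS' : ∀ κ : V →₀ ℕ, Summable (t3_t w g κ) := fun κ => tr_summable hR' hg hw hr' κ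
  ext μ
  have h3 : ∀ k ∈ Finset.HasAntidiagonal.antidiagonal μ, Summable fun l : V →₀ ℕ =>
      ∑ i ∈ Finset.HasAntidiagonal.antidiagonal l, t3_t w f k.1 i.1 * t3_t w g k.2 i.2 :=
    fun k _ => t3_summ _ _ (hS k.1) (hS' k.2)
  have h4 := Summable.tsum_finsetSum h3
  rw [coeff_mul, t3_coeff, tsum_congr (t3_termwise w f g μ), h4]
  refine Finset.sum_congr rfl fun k _ => ?_
  rw [t3_coeff, t3_coeff]
  exact (t3_cauchy _ _ (hS k.1) (hS' k.2)).symm
-- END t3

/-! ## row t4: composition -/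

-- BEGIN t4 (helper89)
omit [Fintype V] in
private lemma t4_id (a b c : ℕ) :
    ((a + b + c).choose c * (a + b).choose b : ℕ) = (a + (b + c)).choose (b + c) * (b + c).choose b := by
  have h1 := Nat.choose_mul (n := a + (b + c)) (k := b + c) (s := c) (by omega)
  have h2 : a + (b + c) - c = a + b := by omega
  have h3 : b + c - c = b := by omega
  rw [h2, h3] at h1
  have h4 : (b + c).choose b = (b + c).choose c := by
    rw [← Nat.choose_symm_of_eq_add (n := b + c) (a := b) (b := c) rfl]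
  rw [h4, h1, add_assoc]

private lemma t4_geo {a : ℝ} (h0 : 0 ≤ a) (h1 : a < 1) :
    Summable fun l : V →₀ ℕ => a ^ l.degree := by
  classical
  refine summable_of_sum_le (c := ∏ _v : V, (1 - a)⁻¹) (fun l => by positivity) fun s => ?_
  set N : ℕ := s.sup fun l => l.degree with hN
  have hsub : s.map Finsupp.equivFunOnFinite.toEmbedding ⊆
      Fintype.piFinset fun _ : V => Finset.range (N + 1) := by
    intro g hg
    obtain ⟨l, hl, rfl⟩ := Finset.mem_map.1 hg
    rw [Fintype.mem_piFinset]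
    intro v
    rw [Finset.mem_range]
    have h2 : l v ≤ l.degree := Finsupp.le_degree v l
    have h3 : l.degree ≤ N := Finset.le_sup (f := fun l : V →₀ ℕ => l.degree) hl
    exact Nat.lt_succ_of_le (h2.trans h3)
  have h4 : ∑ l ∈ s, a ^ l.degree =
      ∑ g ∈ s.map Finsupp.equivFunOnFinite.toEmbedding, ∏ v, a ^ g v := by
    rw [Finset.sum_map]
    refine Finset.sum_congr rfl fun l _ => ?_
    rw [Finset.prod_pow_eq_pow_sum, Finsupp.degree_eq_sum]
    rfl
  rw [h4]
  refine (Finset.sum_le_sum_of_subset_of_nonneg hsub fun g _ _ =>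
    Finset.prod_nonneg fun v _ => by positivity).trans ?_
  rw [← Finset.prod_univ_sum (fun _ : V => Finset.range (N + 1)) (fun _ i => a ^ i)]
  refine Finset.prod_le_prod (fun v _ => Finset.sum_nonneg fun i _ => by positivity) fun v _ => ?_
  rw [← tsum_geometric_of_lt_one h0 h1]
  exact (summable_geometric_of_lt_one h0 h1).sum_le_tsum _ fun i _ => by positivity

private lemma t4_prod_le {w : V → ℂ} {r : ℝ} (_h0 : 0 ≤ r) (hw : ∀ v, ‖w v‖ ≤ r) (μ l : V →₀ ℕ) :
    ‖∏ v, (((μ v + l v).choose (l v) : ℂ) * w v ^ l v)‖ ≤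
      2 ^ (μ.degree + l.degree) * r ^ l.degree := by
  rw [norm_prod]
  have h1 : ∀ v ∈ (Finset.univ : Finset V), ‖((μ v + l v).choose (l v) : ℂ) * w v ^ l v‖ ≤
      2 ^ (μ v + l v) * r ^ l v := by
    intro v _
    rw [norm_mul, norm_pow, Complex.norm_natCast]
    refine mul_le_mul ?_ (pow_le_pow_left₀ (norm_nonneg _) (hw v) _) (by positivity) (by positivity)
    exact_mod_cast Nat.choose_le_two_pow (μ v + l v) (l v)
  refine (Finset.prod_le_prod (fun v _ => norm_nonneg _) h1).trans (le_of_eq ?_)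
  rw [Finset.prod_mul_distrib, Finset.prod_pow_eq_pow_sum, Finset.prod_pow_eq_pow_sum,
    Finset.sum_add_distrib, Finsupp.degree_eq_sum, Finsupp.degree_eq_sum]

/-- `f ((X + w') + w) = f (X + (w + w'))`; `binom(μ+λ',λ') binom(μ+λ'+λ,λ) = binom(μ+λ+λ', λ+λ') binom(λ+λ',λ)`
and the binomial theorem in each variable, Fubini. -/
theorem tr_tr {C R r : ℝ} {f : MvPowerSeries V ℂ} (hR : 0 < R) (hf : Bd C R f) {w w' : V → ℂ}
    (hw : ∀ v, ‖w v‖ ≤ r) (hw' : ∀ v, ‖w' v‖ ≤ r) (hr : R * r ≤ 1 / 8) :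
    tr w' (tr w f) = tr (w + w') f := by
  classical
  ext μ
  set ρ : ℝ := max r 0 with hρ
  have hρ0 : 0 ≤ ρ := le_max_right _ _
  have hwρ : ∀ v, ‖w v‖ ≤ ρ := fun v => (hw v).trans (le_max_left _ _)
  have hwρ' : ∀ v, ‖w' v‖ ≤ ρ := fun v => (hw' v).trans (le_max_left _ _)
  have hRρ : R * ρ ≤ 1 / 8 := by
    rcases max_cases r 0 with h | h
    · rw [hρ, h.1]; exact hr
    · rw [hρ, h.1, mul_zero]; norm_num
  set F : (V →₀ ℕ) × (V →₀ ℕ) → ℂ := fun p =>
    coeff (μ + p.1 + p.2) f * (∏ v, ((((μ + p.1) v + p.2 v).choose (p.2 v) : ℂ) * w v ^ p.2 v)) *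
      ∏ v, (((μ v + p.1 v).choose (p.1 v) : ℂ) * w' v ^ p.1 v) with hF
  have hC : 0 ≤ C := by
    have h := (norm_nonneg _).trans (hf 0)
    rwa [map_zero, pow_zero, mul_one] at h
  have hsum : Summable F := by
    have hg := t4_geo (V := V) (a := 1 / 2) (by norm_num) (by norm_num)
    have h2 := ((hg.mul_of_nonneg hg (fun l => by positivity) (fun l => by positivity)).mul_left
      (C * (4 * R) ^ μ.degree))
    refine Summable.of_norm_bounded h2 fun p => ?_
    rw [hF]
    simp only [norm_mul]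
    have e1 := hf (μ + p.1 + p.2)
    have e2 := t4_prod_le hρ0 hwρ (μ + p.1) p.2
    have e3 := t4_prod_le hρ0 hwρ' μ p.1
    rw [map_add, map_add] at e1
    rw [map_add] at e2
    have e4 : ‖coeff (μ + p.1 + p.2) f‖ *
        ‖∏ v, ((((μ + p.1) v + p.2 v).choose (p.2 v) : ℂ) * w v ^ p.2 v)‖ *
        ‖∏ v, (((μ v + p.1 v).choose (p.1 v) : ℂ) * w' v ^ p.1 v)‖ ≤
        (C * R ^ (μ.degree + p.1.degree + p.2.degree)) *
          (2 ^ (μ.degree + p.1.degree + p.2.degree) * ρ ^ p.2.degree) *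
          (2 ^ (μ.degree + p.1.degree) * ρ ^ p.1.degree) := by
      refine mul_le_mul (mul_le_mul e1 e2 (norm_nonneg _) (by positivity)) e3 (norm_nonneg _)
        (by positivity)
    refine e4.trans ?_
    have e5 : (C * R ^ (μ.degree + p.1.degree + p.2.degree)) *
          (2 ^ (μ.degree + p.1.degree + p.2.degree) * ρ ^ p.2.degree) *
          (2 ^ (μ.degree + p.1.degree) * ρ ^ p.1.degree) =
        C * (4 * R) ^ μ.degree * ((4 * (R * ρ)) ^ p.1.degree * (2 * (R * ρ)) ^ p.2.degree) := by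
      have h4 : (4 : ℝ) = 2 * 2 := by norm_num
      rw [h4]
      simp only [mul_pow, pow_add]
      ring
    rw [e5]
    refine mul_le_mul_of_nonneg_left ?_ (by positivity)
    refine mul_le_mul ?_ ?_ (by positivity) (by positivity)
    · exact pow_le_pow_left₀ (by positivity) (by linarith) _
    · exact pow_le_pow_left₀ (by positivity) (by linarith) _
  have hL : coeff μ (tr w' (tr w f)) = ∑' p, F p := by
    rw [hsum.tsum_prod]
    change ∑' l' : V →₀ ℕ, (∑' l : V →₀ ℕ, coeff (μ + l' + l) f *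
      ∏ v, ((((μ + l') v + l v).choose (l v) : ℂ) * w v ^ l v)) *
        ∏ v, (((μ v + l' v).choose (l' v) : ℂ) * w' v ^ l' v) = _
    refine tsum_congr fun l' => ?_
    rw [← tsum_mul_right]
  have hRt : coeff μ (tr (w + w') f) = ∑' p, F p := by
    have hS : Summable fun q : (Σ k : V →₀ ℕ, Finset.HasAntidiagonal.antidiagonal k) =>
        F (Finset.HasAntidiagonal.sigmaAntidiagonalEquivProd q) :=
      ((Finset.HasAntidiagonal.sigmaAntidiagonalEquivProd (A := V →₀ ℕ)).summable_iff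
        (f := F)).2 hsum
    rw [← (Finset.HasAntidiagonal.sigmaAntidiagonalEquivProd (A := V →₀ ℕ)).tsum_eq F]
    rw [hS.tsum_sigma' (fun k => Summable.of_finite)]
    change ∑' k : V →₀ ℕ, coeff (μ + k) f *
      ∏ v, (((μ v + k v).choose (k v) : ℂ) * (w + w') v ^ k v) = _
    refine tsum_congr fun k => ?_
    rw [tsum_fintype]
    change _ = ∑ b : Finset.HasAntidiagonal.antidiagonal k, F b.1
    rw [Finset.sum_coe_sort (Finset.HasAntidiagonal.antidiagonal k) F]
    have h1 : ∀ v : V, ((μ v + k v).choose (k v) : ℂ) * (w + w') v ^ k v =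
        ∑ q ∈ Finset.HasAntidiagonal.antidiagonal (k v), ((μ v + k v).choose (k v) : ℂ) *
          (((k v).choose q.1 : ℂ) * (w' v ^ q.1 * w v ^ q.2)) := by
      intro v
      rw [Pi.add_apply, add_comm (w v), (Commute.all (w' v) (w v)).add_pow', Finset.mul_sum]
      simp only [nsmul_eq_mul]
    rw [Finset.prod_congr rfl fun v _ => h1 v, Finset.prod_univ_sum, Finset.mul_sum]
    refine Finset.sum_bij' (fun x _ => (Finsupp.equivFunOnFinite.symm (fun v => (x v).1),
      Finsupp.equivFunOnFinite.symm (fun v => (x v).2))) (fun p _ => fun v => (p.1 v, p.2 v))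
      ?_ ?_ ?_ ?_ ?_
    · intro x hx
      rw [Fintype.mem_piFinset] at hx
      rw [Finset.HasAntidiagonal.mem_antidiagonal]
      ext v
      exact Finset.HasAntidiagonal.mem_antidiagonal.1 (hx v)
    · intro p hp
      rw [Fintype.mem_piFinset]
      intro v
      rw [Finset.HasAntidiagonal.mem_antidiagonal] at hp ⊢
      rw [← hp]
      rfl
    · intro x _
      rfl
    · intro p _
      refine Prod.ext ?_ ?_
      · ext v
        rfl
      · ext v
        rfl
    · intro x hx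
      rw [Fintype.mem_piFinset] at hx
      have hk : Finsupp.equivFunOnFinite.symm (fun v => (x v).1) +
          Finsupp.equivFunOnFinite.symm (fun v => (x v).2) = k := by
        ext v
        exact Finset.HasAntidiagonal.mem_antidiagonal.1 (hx v)
      rw [hF]
      simp only
      rw [add_assoc, hk, mul_assoc, ← Finset.prod_mul_distrib]
      congr 1
      refine Finset.prod_congr rfl fun v _ => ?_
      have hv : (x v).1 + (x v).2 = k v := Finset.HasAntidiagonal.mem_antidiagonal.1 (hx v)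
      have h5 := t4_id (μ v) (x v).1 (x v).2
      rw [hv] at h5
      have h6 : (((μ v + (x v).1 + (x v).2).choose (x v).2 : ℂ) * ((μ v + (x v).1).choose (x v).1 : ℂ)) =
          ((μ v + k v).choose (k v) : ℂ) * ((k v).choose (x v).1 : ℂ) := by
        exact_mod_cast h5
      change _ = ((μ v + (x v).1 + (x v).2).choose (x v).2 : ℂ) * w v ^ (x v).2 *
        (((μ v + (x v).1).choose (x v).1 : ℂ) * w' v ^ (x v).1)
      calc ((μ v + k v).choose (k v) : ℂ) * (((k v).choose (x v).1 : ℂ) *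
            (w' v ^ (x v).1 * w v ^ (x v).2))
          = (((μ v + k v).choose (k v) : ℂ) * ((k v).choose (x v).1 : ℂ)) *
            (w' v ^ (x v).1 * w v ^ (x v).2) := by ring
        _ = _ := by rw [← h6]; ring
  rw [hL, hRt]
-- END t4

/-! ## row t5: derivatives and variables -/

variable [DecidableEq V]

omit [DecidableEq V] in
private lemma t5_coeff (w : V → ℂ) (f : MvPowerSeries V ℂ) (μ : V →₀ ℕ) : coeff μ (tr w f) =
    ∑' l : V →₀ ℕ, coeff (μ + l) f * ∏ v, (((μ v + l v).choose (l v) : ℂ) * w v ^ l v) := rfl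

/-- termwise: `(μ_v+1) binom(μ_v+1+λ_v, λ_v) = (μ_v+λ_v+1) binom(μ_v+λ_v, λ_v)` -/
lemma tr_pderiv (w : V → ℂ) (v : V) (f : MvPowerSeries V ℂ) :
    pderiv ℂ v (tr w f) = tr w (pderiv ℂ v f) := by
  ext μ
  rw [coeff_pderiv, t5_coeff, t5_coeff, ← tsum_mul_right]
  refine tsum_congr fun l => ?_
  rw [coeff_pderiv]
  have h1 : μ + Finsupp.single v 1 + l = μ + l + Finsupp.single v 1 := by
    rw [add_assoc, add_comm (Finsupp.single v 1) l, ← add_assoc]
  have h2 : (∏ u, ((((μ + Finsupp.single v 1 : V →₀ ℕ) u + l u).choose (l u) : ℂ) * w u ^ l u)) *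
      ((μ v : ℂ) + 1) = (((μ + l) v : ℕ) + 1 : ℂ) *
        ∏ u, (((μ u + l u).choose (l u) : ℂ) * w u ^ l u) := by
    rw [← Finset.mul_prod_erase Finset.univ _ (Finset.mem_univ v),
      ← Finset.mul_prod_erase Finset.univ (fun u => (((μ u + l u).choose (l u) : ℂ) * w u ^ l u))
        (Finset.mem_univ v)]
    have h3 : (∏ u ∈ Finset.univ.erase v,
        ((((μ + Finsupp.single v 1 : V →₀ ℕ) u + l u).choose (l u) : ℂ) * w u ^ l u)) =
        ∏ u ∈ Finset.univ.erase v, (((μ u + l u).choose (l u) : ℂ) * w u ^ l u) := by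
      refine Finset.prod_congr rfl fun u hu => ?_
      rw [Finsupp.add_apply, Finsupp.single_eq_of_ne (Finset.ne_of_mem_erase hu), add_zero]
    rw [h3, Finsupp.add_apply, Finsupp.single_eq_same, Finsupp.add_apply]
    have h4 : ((μ v + 1 + l v).choose (l v) : ℂ) * ((μ v : ℂ) + 1) =
        (((μ v + l v : ℕ) : ℂ) + 1) * ((μ v + l v).choose (l v) : ℂ) := by
      have h5 := Nat.add_one_mul_choose_eq (μ v + l v) (μ v)
      have h7 : (μ v + l v).choose (μ v) = (μ v + l v).choose (l v) := Nat.choose_symm_add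
      have h8 : (μ v + l v + 1).choose (μ v + 1) = (μ v + 1 + l v).choose (l v) := by
        have h10 : μ v + l v + 1 = μ v + 1 + l v := by omega
        rw [h10]
        exact Nat.choose_symm_add
      rw [h7, h8] at h5
      have h9 : ((μ v + l v : ℕ) + 1 : ℂ) * ((μ v + l v).choose (l v) : ℂ) =
          ((μ v + 1 + l v).choose (l v) : ℂ) * ((μ v : ℂ) + 1) := by
        exact_mod_cast h5
      exact h9.symm
    linear_combination (w v ^ l v * ∏ u ∈ Finset.univ.erase v,
      (((μ u + l u).choose (l u) : ℂ) * w u ^ l u)) * h4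
  rw [h1, mul_assoc, h2]
  ring

omit [Fintype V] in
private lemma t5_coeff_X (v : V) (m : V →₀ ℕ) (h : m ≠ Finsupp.single v 1) :
    coeff m (X v : MvPowerSeries V ℂ) = 0 := by
  rw [coeff_X, if_neg h]

lemma tr_X (w : V → ℂ) (v : V) : tr w (X v : MvPowerSeries V ℂ) = X v + C (w v) := by
  ext μ
  rw [map_add, t5_coeff]
  by_cases h0 : μ = 0
  · subst h0
    rw [tsum_eq_single (Finsupp.single v 1)]
    · rw [zero_add, coeff_X, if_pos rfl, one_mul, coeff_X, if_neg, zero_add, coeff_C, if_pos rfl,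
        Finset.prod_eq_single v]
      · rw [Finsupp.single_eq_same, Finsupp.zero_apply, zero_add, Nat.choose_self, Nat.cast_one,
          one_mul, pow_one]
      · intro u _ hu
        rw [Finsupp.single_eq_of_ne hu, add_zero, Nat.choose_zero_right, Nat.cast_one, one_mul,
          pow_zero]
      · intro h
        exact absurd (Finset.mem_univ v) h
      · intro h
        have := congrArg (fun g : V →₀ ℕ => g v) h
        simp at this
    · intro l hl
      rw [zero_add, t5_coeff_X v l hl, zero_mul]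
  · rw [coeff_C, if_neg h0, add_zero]
    by_cases h1 : μ = Finsupp.single v 1
    · rw [tsum_eq_single 0]
      · rw [add_zero, Finset.prod_eq_one, mul_one]
        intro u _
        rw [Finsupp.zero_apply, pow_zero, mul_one, Nat.choose_zero_right, Nat.cast_one]
      · intro l hl
        rw [t5_coeff_X, zero_mul]
        intro h
        rw [h1] at h
        exact hl (add_left_cancel (h.trans (add_zero _).symm))
    · rw [t5_coeff_X v μ h1]
      refine (tsum_congr fun l => ?_).trans tsum_zero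
      rw [t5_coeff_X, zero_mul]
      intro h
      have h2 : μ ≤ Finsupp.single v 1 := h ▸ le_self_add
      have h3 : ∀ u, u ≠ v → μ u = 0 := fun u hu => by
        have := h2 u
        rw [Finsupp.single_eq_of_ne hu] at this
        exact Nat.le_zero.1 this
      have h4 : μ v ≤ 1 := by
        have := h2 v
        rwa [Finsupp.single_eq_same] at this
      have h5 : μ = Finsupp.single v (μ v) := by
        ext u
        by_cases hu : u = v
        · rw [hu, Finsupp.single_eq_same]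
        · rw [h3 u hu, Finsupp.single_eq_of_ne hu]
      rcases Nat.lt_or_ge (μ v) 1 with h6 | h6
      · refine h0 ?_
        rw [h5, Nat.lt_one_iff.1 h6, Finsupp.single_zero]
      · refine h1 ?_
        rw [h5, le_antisymm h4 h6]

/-- `|coeff μ (∂_v f)| = (μ_v + 1) |f_(μ+v)| ≤ 2^|μ| …` -/
lemma Bd.pderiv {C R : ℝ} {f : MvPowerSeries V ℂ} (hR : 0 < R) (hf : Bd C R f) (v : V) :
    Bd (C * R) (2 * R) (pderiv ℂ v f) := by
  intro μ
  have hC : 0 ≤ C := hf.nonneg
  rw [coeff_pderiv, norm_mul]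
  have h1 : ‖((μ v : ℂ) + 1)‖ ≤ 2 ^ μ.degree := by
    have h2 : ((μ v : ℂ) + 1) = ((μ v + 1 : ℕ) : ℂ) := by push_cast; rfl
    rw [h2, Complex.norm_natCast]
    have h3 : μ v + 1 ≤ 2 ^ μ v := Nat.lt_two_pow_self
    have h4 : μ v ≤ μ.degree := Finsupp.le_degree v μ
    calc ((μ v + 1 : ℕ) : ℝ) ≤ ((2 ^ μ v : ℕ) : ℝ) := by exact_mod_cast h3
      _ = 2 ^ μ v := by push_cast; rfl
      _ ≤ 2 ^ μ.degree := pow_le_pow_right₀ (by norm_num) h4
  have h2 := hf (μ + Finsupp.single v 1)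
  rw [map_add, Finsupp.degree_single, pow_succ] at h2
  calc ‖coeff (μ + Finsupp.single v 1) f‖ * ‖((μ v : ℂ) + 1)‖
      ≤ (C * (R ^ μ.degree * R)) * 2 ^ μ.degree :=
        mul_le_mul h2 h1 (norm_nonneg _) (by positivity)
    _ = C * R * (2 * R) ^ μ.degree := by rw [mul_pow]; ring

omit [Fintype V] in
private lemma t5_card (μ : V →₀ ℕ) : (Finset.HasAntidiagonal.antidiagonal μ).card ≤ 2 ^ μ.degree := by
  have h1 : (Finset.HasAntidiagonal.antidiagonal μ).card ≤ (Finset.Iic μ).card := by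
    refine Finset.card_le_card_of_injOn Prod.fst ?_ ?_
    · intro p hp
      rw [Finset.mem_coe, Finset.HasAntidiagonal.mem_antidiagonal] at hp
      rw [Finset.mem_coe, Finset.mem_Iic, ← hp]
      exact le_self_add
    · intro p hp q hq h
      rw [Finset.mem_coe, Finset.HasAntidiagonal.mem_antidiagonal] at hp hq
      refine Prod.ext h ?_
      have h2 : p.1 + p.2 = p.1 + q.2 := by rw [hp, ← hq, h]
      exact add_left_cancel h2
  refine h1.trans ?_
  rw [Finsupp.card_Iic]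
  calc ∏ i ∈ μ.support, (Finset.Iic (μ i)).card ≤ ∏ i ∈ μ.support, 2 ^ μ i := by
        refine Finset.prod_le_prod' fun i _ => ?_
        rw [Nat.card_Iic]
        exact Nat.lt_two_pow_self
    _ = 2 ^ μ.degree := by
        rw [Finset.prod_pow_eq_pow_sum]
        rfl

/-- number of terms of the product: `∏ (μ_v + 1) ≤ 2^|μ|` -/
lemma Bd.mul {C C' R : ℝ} {f g : MvPowerSeries V ℂ} (hR : 0 < R) (hf : Bd C R f) (hg : Bd C' R g) :
    Bd (C * C') (2 * R) (f * g) := by
  classical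
  intro μ
  have hC : 0 ≤ C := hf.nonneg
  have hC' : 0 ≤ C' := hg.nonneg
  rw [coeff_mul]
  refine (norm_sum_le _ _).trans ?_
  have h1 : ∀ p ∈ Finset.HasAntidiagonal.antidiagonal μ,
      ‖coeff p.1 f * coeff p.2 g‖ ≤ C * C' * R ^ μ.degree := by
    intro p hp
    rw [Finset.HasAntidiagonal.mem_antidiagonal] at hp
    rw [norm_mul]
    calc ‖coeff p.1 f‖ * ‖coeff p.2 g‖ ≤ (C * R ^ p.1.degree) * (C' * R ^ p.2.degree) :=
          mul_le_mul (hf _) (hg _) (norm_nonneg _) (by positivity)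
      _ = C * C' * R ^ μ.degree := by rw [← hp, map_add, pow_add]; ring
  refine (Finset.sum_le_sum h1).trans ?_
  rw [Finset.sum_const, nsmul_eq_mul]
  have h2 : ((Finset.HasAntidiagonal.antidiagonal μ).card : ℝ) ≤ 2 ^ μ.degree := by
    exact_mod_cast t5_card μ
  calc ((Finset.HasAntidiagonal.antidiagonal μ).card : ℝ) * (C * C' * R ^ μ.degree)
      ≤ 2 ^ μ.degree * (C * C' * R ^ μ.degree) :=
        mul_le_mul_of_nonneg_right h2 (by positivity)
    _ = C * C' * (2 * R) ^ μ.degree := by rw [mul_pow]; ring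

/-! ## row l1: linear substitutions -/

/-- the linear form `∑_u A v u X_u` -/
noncomputable def lf (A : Matrix V V ℂ) (v : V) : MvPowerSeries V ℂ := ∑ u, A v u • X u

omit [DecidableEq V] in
-- BEGIN l1
lemma hasSubst_lf (A : Matrix V V ℂ) : HasSubst (lf A) := by
  refine hasSubst_of_constantCoeff_zero fun v => ?_
  rw [lf, map_sum]
  refine Finset.sum_eq_zero fun u _ => ?_
  rw [smul_eq_C_mul, map_mul, constantCoeff_X, mul_zero]
-- END l1 (first part)

/-- the linear change of variables `X_v ↦ ∑_u A v u X_u` -/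
noncomputable def lin (A : Matrix V V ℂ) : MvPowerSeries V ℂ →ₐ[ℂ] MvPowerSeries V ℂ :=
  substAlgHom (hasSubst_lf A)

omit [DecidableEq V] in
-- BEGIN l1 (second part)
lemma lin_X (A : Matrix V V ℂ) (v : V) : lin A (X v) = lf A v :=
  substAlgHom_X (hasSubst_lf A) v
omit [DecidableEq V] in
lemma lin_C (A : Matrix V V ℂ) (c : ℂ) : lin A (C c) = C c := (lin A).commutes c
-- END l1

-- BEGIN l2
omit [DecidableEq V] in
/-- the product of powers of linear forms is the image of a homogeneous polynomial -/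
private lemma l2_poly (A : Matrix V V ℂ) (ν : V →₀ ℕ) :
    ∃ p : MvPolynomial V ℂ, p.IsHomogeneous (∑ v, ν v) ∧
      ((p : MvPolynomial V ℂ) : MvPowerSeries V ℂ) = ∏ v, lf A v ^ ν v := by
  refine ⟨∏ v, (∑ u, A v u • (MvPolynomial.X u : MvPolynomial V ℂ)) ^ ν v, ?_, ?_⟩
  · refine MvPolynomial.IsHomogeneous.prod _ _ _ fun v _ => ?_
    have h : (∑ u, A v u • (MvPolynomial.X u : MvPolynomial V ℂ)).IsHomogeneous 1 := by
      refine MvPolynomial.IsHomogeneous.sum _ _ _ fun u _ => ?_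
      rw [MvPolynomial.smul_eq_C_mul]
      exact (MvPolynomial.isHomogeneous_X _ _).C_mul _
    have h2 := h.pow (ν v)
    rwa [one_mul] at h2
  · rw [← MvPolynomial.coeToMvPowerSeries.ringHom_apply, map_prod]
    refine Finset.prod_congr rfl fun v _ => ?_
    rw [map_pow, map_sum, lf]
    congr 1
    refine Finset.sum_congr rfl fun u _ => ?_
    rw [MvPolynomial.coeToMvPowerSeries.ringHom_apply, MvPolynomial.coe_smul, MvPolynomial.coe_X]

omit [DecidableEq V] in
private lemma l2_zero (A : Matrix V V ℂ) (ν μ : V →₀ ℕ) (h : μ.degree ≠ ∑ v, ν v) :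
    coeff μ (∏ v, lf A v ^ ν v) = 0 := by
  obtain ⟨p, hp, e⟩ := l2_poly A ν
  rw [← e, MvPolynomial.coeff_coe]
  exact hp.coeff_eq_zero h

/-- row l2: a coefficient of `lin A f` of degree `k` depends on the coefficients of `f` of degree `k`
only: it is the finite sum over `ν` of degree `|μ|` of `f_ν coeff μ (∏ (lf A v)^ν_v)` -/
theorem coeff_lin (A : Matrix V V ℂ) (f : MvPowerSeries V ℂ) (μ : V →₀ ℕ) :
    coeff μ (lin A f) = ∑ ν ∈ Finset.univ.finsuppAntidiag μ.degree,
      coeff ν f * coeff μ (∏ v, lf A v ^ ν v) := by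
  have h1 : coeff μ (lin A f) = finsum (fun ν : V →₀ ℕ =>
      coeff ν f • coeff μ (ν.prod fun s e => lf A s ^ e)) := by
    rw [lin, coe_substAlgHom, coeff_subst (hasSubst_lf A)]
  have h2 : ∀ ν : V →₀ ℕ, (ν.prod fun s e => lf A s ^ e) = ∏ v, lf A v ^ ν v := fun ν =>
    Finsupp.prod_fintype _ _ fun v => pow_zero _
  rw [h1, finsum_eq_sum_of_support_subset (s := Finset.univ.finsuppAntidiag μ.degree)]
  · refine Finset.sum_congr rfl fun ν _ => ?_
    rw [h2, smul_eq_mul]
  · intro ν hν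
    rw [Finset.mem_coe, Finset.mem_finsuppAntidiag]
    refine ⟨?_, Finset.subset_univ _⟩
    by_contra hne
    refine hν ?_
    change coeff ν f • coeff μ (ν.prod fun s e => lf A s ^ e) = 0
    rw [h2, l2_zero A ν μ (fun e => hne e.symm), smul_zero]
-- END l2

omit [DecidableEq V] in
/-- the sum of the absolute values of the coefficients is at most `c` -/
private def l3_Q (c : ℝ) (f : MvPowerSeries V ℂ) : Prop :=
  ∀ s : Finset (V →₀ ℕ), ∑ μ ∈ s, ‖coeff μ f‖ ≤ c

omit [Fintype V] in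
private lemma l3_mul {c d : ℝ} {f g : MvPowerSeries V ℂ} (hf : l3_Q c f) (hg : l3_Q d g) :
    l3_Q (c * d) (f * g) := by
  intro s
  have h1 : ∑ μ ∈ s, ‖coeff μ (f * g)‖
      ≤ ∑ μ ∈ s, ∑ x ∈ Finset.HasAntidiagonal.antidiagonal μ, ‖coeff x.1 f‖ * ‖coeff x.2 g‖ := by
    refine Finset.sum_le_sum fun μ _ => ?_
    rw [coeff_mul]
    refine (norm_sum_le _ _).trans (Finset.sum_le_sum fun x _ => ?_)
    rw [norm_mul]
  refine h1.trans ?_
  set s1 := s.biUnion fun μ => (Finset.HasAntidiagonal.antidiagonal μ).image Prod.fst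
  set s2 := s.biUnion fun μ => (Finset.HasAntidiagonal.antidiagonal μ).image Prod.snd
  have h2 : ∑ μ ∈ s, ∑ x ∈ Finset.HasAntidiagonal.antidiagonal μ, ‖coeff x.1 f‖ * ‖coeff x.2 g‖
      = ∑ x ∈ s.biUnion fun μ => Finset.HasAntidiagonal.antidiagonal μ, ‖coeff x.1 f‖ * ‖coeff x.2 g‖ := by
    rw [Finset.sum_biUnion]
    intro a _ b _ hab
    refine Finset.disjoint_left.2 fun x hx hx' => hab ?_
    rw [← Finset.HasAntidiagonal.mem_antidiagonal.1 hx, ← Finset.HasAntidiagonal.mem_antidiagonal.1 hx']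
  have h3 : (s.biUnion fun μ => Finset.HasAntidiagonal.antidiagonal μ) ⊆ s1 ×ˢ s2 := by
    intro x hx
    obtain ⟨μ, hμ, hx⟩ := Finset.mem_biUnion.1 hx
    exact Finset.mem_product.2 ⟨Finset.mem_biUnion.2 ⟨μ, hμ, Finset.mem_image_of_mem _ hx⟩,
      Finset.mem_biUnion.2 ⟨μ, hμ, Finset.mem_image_of_mem _ hx⟩⟩
  rw [h2]
  refine (Finset.sum_le_sum_of_subset_of_nonneg h3 fun x _ _ => by positivity).trans ?_
  rw [Finset.sum_product]
  have h4 : ∑ x ∈ s1, ∑ y ∈ s2, ‖coeff (x, y).1 f‖ * ‖coeff (x, y).2 g‖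
      = (∑ x ∈ s1, ‖coeff x f‖) * ∑ y ∈ s2, ‖coeff y g‖ :=
    (Finset.sum_mul_sum s1 s2 (fun x => ‖coeff x f‖) fun y => ‖coeff y g‖).symm
  rw [h4]
  have hd : 0 ≤ d := by simpa using hg ∅
  exact mul_le_mul (hf s1) (hg s2) (Finset.sum_nonneg fun _ _ => norm_nonneg _)
    (by simpa using hf ∅)

omit [Fintype V] [DecidableEq V] in
private lemma l3_one : l3_Q 1 (1 : MvPowerSeries V ℂ) := by
  classical
  intro s
  have h : ∀ μ ∈ s, ‖coeff μ (1 : MvPowerSeries V ℂ)‖ = if μ = 0 then 1 else 0 := by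
    intro μ _
    rw [coeff_one]
    split_ifs <;> simp
  rw [Finset.sum_congr rfl h, Finset.sum_ite_eq']
  split_ifs <;> norm_num

omit [Fintype V] in
private lemma l3_pow {c : ℝ} {f : MvPowerSeries V ℂ} (hf : l3_Q c f) (n : ℕ) :
    l3_Q (c ^ n) (f ^ n) := by
  induction n with
  | zero => simpa using l3_one
  | succ n ih =>
    rw [pow_succ, pow_succ]
    exact l3_mul ih hf

private lemma l3_prod {c : V → ℝ} {f : V → MvPowerSeries V ℂ} (hf : ∀ v, l3_Q (c v) (f v))
    (n : V → ℕ) (s : Finset V) : l3_Q (∏ v ∈ s, c v ^ n v) (∏ v ∈ s, f v ^ n v) := by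
  induction s using Finset.induction_on with
  | empty => simpa using l3_one
  | insert a s ha ih =>
    rw [Finset.prod_insert ha, Finset.prod_insert ha]
    exact l3_mul (l3_pow (hf a) _) ih

omit [DecidableEq V] in
private lemma l3_lf (A : Matrix V V ℂ) (v : V) : l3_Q (∑ u, ‖A v u‖) (lf A v) := by
  classical
  intro s
  have h1 : ∀ μ ∈ s, ‖coeff μ (lf A v)‖ ≤ ∑ u, ‖A v u‖ * (if μ = Finsupp.single u 1 then 1 else 0) := by
    intro μ _
    unfold lf
    rw [map_sum]
    refine (norm_sum_le _ _).trans (Finset.sum_le_sum fun u _ => ?_)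
    rw [coeff_smul, norm_mul, coeff_X]
    refine mul_le_mul_of_nonneg_left ?_ (norm_nonneg _)
    split_ifs <;> simp
  refine (Finset.sum_le_sum h1).trans ?_
  rw [Finset.sum_comm]
  refine Finset.sum_le_sum fun u _ => ?_
  rw [← Finset.mul_sum]
  refine mul_le_of_le_one_right (norm_nonneg _) ?_
  rw [Finset.sum_ite_eq']
  split_ifs <;> norm_num

private lemma l3_multi (S : V → ℝ) (hS : ∀ v, 0 ≤ S v) (k : ℕ) :
    ∑ ν ∈ (Finset.univ : Finset V).finsuppAntidiag k, ∏ v, S v ^ ν v ≤ (∑ v, S v) ^ k := by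
  rw [Finset.sum_pow_eq_sum_piAntidiag]
  have h1 : ∑ ν ∈ (Finset.univ : Finset V).finsuppAntidiag k, ∏ v, S v ^ ν v
      = ∑ ν ∈ (Finset.univ : Finset V).piAntidiag k, ∏ v, S v ^ ν v := by
    refine Finset.sum_bij (fun ν _ => (ν : V → ℕ)) ?_ ?_ ?_ ?_
    · intro ν hν
      rw [Finset.mem_finsuppAntidiag] at hν
      rw [Finset.mem_piAntidiag]
      exact ⟨hν.1, fun i _ => Finset.mem_univ i⟩
    · intro a _ b _ hab
      exact DFunLike.coe_injective hab
    · intro ν hν
      rw [Finset.mem_piAntidiag] at hν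
      refine ⟨Finsupp.equivFunOnFinite.symm ν, ?_, rfl⟩
      rw [Finset.mem_finsuppAntidiag]
      exact ⟨hν.1, fun i _ => Finset.mem_univ i⟩
    · intro ν _
      rfl
  rw [h1]
  refine Finset.sum_le_sum fun ν _ => ?_
  have h2 : (1 : ℝ) ≤ (Nat.multinomial Finset.univ ν : ℝ) := by
    exact_mod_cast Nat.multinomial_pos _ _
  exact le_mul_of_one_le_left (Finset.prod_nonneg fun v _ => pow_nonneg (hS v) _) h2

/-- row l3: `|coeff μ (∏ (lf A v)^ν_v)| ≤ ∏ (∑_u |A v u|)^ν_v`, number of `ν` at most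
`2^(|μ| + card V)` -/
theorem lin_bd (A : Matrix V V ℂ) : ∃ K : ℝ, 1 ≤ K ∧ ∀ (C R : ℝ) (f : MvPowerSeries V ℂ), 0 < R →
    Bd C R f → Bd (C * K) (R * K) (lin A f) := by
  set S : V → ℝ := fun v => ∑ u, ‖A v u‖ with hSdef
  have hS : ∀ v, 0 ≤ S v := fun v => Finset.sum_nonneg fun _ _ => norm_nonneg _
  refine ⟨max 1 (∑ v, S v), le_max_left _ _, fun C R f hR hf μ => ?_⟩
  have hC : 0 ≤ C := by
    have := (norm_nonneg _).trans (hf 0)
    simpa using this
  set k := μ.degree with hk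
  have h1 : ‖coeff μ (lin A f)‖ ≤ C * R ^ k * ∑ ν ∈ (Finset.univ : Finset V).finsuppAntidiag k,
      ∏ v, S v ^ ν v := by
    rw [coeff_lin, Finset.mul_sum]
    refine (norm_sum_le _ _).trans (Finset.sum_le_sum fun ν hν => ?_)
    rw [norm_mul]
    have hd : ν.degree = k := by
      rw [Finset.mem_finsuppAntidiag] at hν
      exact (Finsupp.degree_eq_sum ν).trans hν.1
    refine mul_le_mul (hd ▸ hf ν) ?_ (norm_nonneg _) (by positivity)
    have h2 := l3_prod (l3_lf A) ν Finset.univ {μ}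
    rw [Finset.sum_singleton] at h2
    exact h2
  refine h1.trans ?_
  have h3 : ∑ ν ∈ (Finset.univ : Finset V).finsuppAntidiag k, ∏ v, S v ^ ν v
      ≤ max 1 (∑ v, S v) ^ k :=
    (l3_multi S hS k).trans (pow_le_pow_left₀ (Finset.sum_nonneg fun v _ => hS v)
      (le_max_right _ _) k)
  have h4 : (1 : ℝ) ≤ max 1 (∑ v, S v) := le_max_left _ _
  calc C * R ^ k * ∑ ν ∈ (Finset.univ : Finset V).finsuppAntidiag k, ∏ v, S v ^ ν v
      ≤ C * R ^ k * max 1 (∑ v, S v) ^ k := mul_le_mul_of_nonneg_left h3 (by positivity)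
    _ = C * (R * max 1 (∑ v, S v)) ^ k := by rw [mul_pow]; ring
    _ ≤ C * max 1 (∑ v, S v) * (R * max 1 (∑ v, S v)) ^ k :=
      mul_le_mul_of_nonneg_right (le_mul_of_one_le_right hC h4) (by positivity)

private lemma l4_congr (A : Matrix V V ℂ) {f g : MvPowerSeries V ℂ} {μ : V →₀ ℕ}
    (h : ∀ ν : V →₀ ℕ, ν.degree = μ.degree → coeff ν f = coeff ν g) :
    coeff μ (lin A f) = coeff μ (lin A g) := by
  rw [coeff_lin, coeff_lin]
  refine Finset.sum_congr rfl fun ν hν => ?_
  rw [Finset.mem_finsuppAntidiag] at hν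
  rw [h ν ((Finsupp.degree_eq_sum ν).trans hν.1)]

omit [DecidableEq V] in
private lemma l4_lf (A : Matrix V V ℂ) (u n : V) : pderiv ℂ u (lf A n) = C (A n u) := by
  unfold lf
  rw [map_sum, Finset.sum_eq_single u]
  · rw [Derivation.map_smul, pderiv_X_self, smul_eq_C_mul, mul_one]
  · intro v _ hv
    rw [Derivation.map_smul, pderiv_X_of_ne hv, smul_zero]
  · intro h
    exact absurd (Finset.mem_univ u) h

private lemma l4_poly (A : Matrix V V ℂ) (u : V) (p : MvPolynomial V ℂ) :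
    pderiv ℂ u (lin A (p : MvPowerSeries V ℂ))
      = ∑ v, A v u • lin A (pderiv ℂ v (p : MvPowerSeries V ℂ)) := by
  induction p using MvPolynomial.induction_on with
  | C a =>
    rw [MvPolynomial.coe_C, lin_C, pderiv_C]
    simp only [pderiv_C, map_zero, smul_zero, Finset.sum_const_zero]
  | add p q hp hq =>
    rw [MvPolynomial.coe_add, map_add, map_add, hp, hq, ← Finset.sum_add_distrib]
    refine Finset.sum_congr rfl fun v _ => ?_
    rw [map_add, map_add, smul_add]
  | mul_X p n hp =>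
    rw [MvPolynomial.coe_mul, MvPolynomial.coe_X, map_mul, lin_X, Derivation.leibniz, hp, l4_lf]
    have h : ∀ v, A v u • lin A (pderiv ℂ v ((p : MvPowerSeries V ℂ) * X n))
        = (if v = n then C (A n u) * lin A (p : MvPowerSeries V ℂ) else 0)
          + lf A n * (A v u • lin A (pderiv ℂ v (p : MvPowerSeries V ℂ))) := by
      intro v
      rw [Derivation.leibniz, smul_eq_mul, smul_eq_mul, map_add, map_mul, map_mul, lin_X, smul_add,
        mul_smul_comm]
      congr 1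
      split_ifs with hv
      · subst hv
        rw [pderiv_X_self, map_one, mul_one, smul_eq_C_mul]
      · rw [pderiv_X_of_ne (Ne.symm hv), map_zero, mul_zero, smul_zero]
    rw [Finset.sum_congr rfl fun v _ => h v, Finset.sum_add_distrib, ← Finset.mul_sum,
      Finset.sum_ite_eq' Finset.univ n fun _ => C (A n u) * lin A (p : MvPowerSeries V ℂ),
      if_pos (Finset.mem_univ n), smul_eq_mul, smul_eq_mul, mul_comm (lin A (p : MvPowerSeries V ℂ))]

/-- row l4: chain rule (both sides are derivations along `lin A`; compare on monomials, by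
`coeff_lin` finitely many matter) -/
theorem pderiv_lin (A : Matrix V V ℂ) (u : V) (f : MvPowerSeries V ℂ) :
    pderiv ℂ u (lin A f) = ∑ v, A v u • lin A (pderiv ℂ v f) := by
  ext μ
  set p : MvPolynomial V ℂ := ∑ ν ∈ (Finset.univ : Finset V).finsuppAntidiag (μ.degree + 1),
    MvPolynomial.monomial ν (coeff ν f) with hp
  have h1 : ∀ ν : V →₀ ℕ, ν.degree = μ.degree + 1 → coeff ν f = coeff ν (p : MvPowerSeries V ℂ) := by
    intro ν hν
    rw [MvPolynomial.coeff_coe, hp, MvPolynomial.coeff_sum]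
    rw [Finset.sum_eq_single ν]
    · rw [MvPolynomial.coeff_monomial, if_pos rfl]
    · intro ν' _ h
      rw [MvPolynomial.coeff_monomial, if_neg h]
    · intro h
      refine absurd ?_ h
      rw [Finset.mem_finsuppAntidiag]
      exact ⟨(Finsupp.degree_eq_sum ν).symm.trans hν, fun i _ => Finset.mem_univ i⟩
  have hd : ∀ (ν : V →₀ ℕ) (v : V), (ν + Finsupp.single v 1).degree = ν.degree + 1 := by
    intro ν v
    rw [map_add, Finsupp.degree_single]
  have h2 : coeff μ (pderiv ℂ u (lin A f)) = coeff μ (pderiv ℂ u (lin A (p : MvPowerSeries V ℂ))) := by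
    rw [coeff_pderiv, coeff_pderiv]
    congr 1
    exact l4_congr A fun ν hν => h1 ν (hν.trans (hd μ u))
  have h3 : coeff μ (∑ v, A v u • lin A (pderiv ℂ v f))
      = coeff μ (∑ v, A v u • lin A (pderiv ℂ v (p : MvPowerSeries V ℂ))) := by
    rw [map_sum, map_sum]
    refine Finset.sum_congr rfl fun v _ => ?_
    rw [coeff_smul, coeff_smul]
    congr 1
    refine l4_congr A fun ν hν => ?_
    rw [coeff_pderiv, coeff_pderiv, h1 _ ((hd ν v).trans (by rw [hν]))]
  rw [h2, h3, l4_poly]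

-- BEGIN l5
omit [DecidableEq V] in
private lemma l5_lf (A A' : Matrix V V ℂ) (v : V) : lin A (lf A' v) = lf (A' * A) v := by
  rw [lf, lf, map_sum]
  simp only [map_smul, lin_X]
  simp only [lf, Finset.smul_sum]
  rw [Finset.sum_comm]
  refine Finset.sum_congr rfl fun w _ => ?_
  rw [Matrix.mul_apply, Finset.sum_smul]
  exact Finset.sum_congr rfl fun u _ => smul_smul _ _ _

omit [DecidableEq V] in
private lemma l5_apply (A : Matrix V V ℂ) (f : MvPowerSeries V ℂ) : lin A f = subst (lf A) f :=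
  substAlgHom_apply (hasSubst_lf A) f

/-- row l5 -/
theorem lin_lin (A A' : Matrix V V ℂ) (f : MvPowerSeries V ℂ) : lin A (lin A' f) = lin (A' * A) f := by
  rw [l5_apply A, l5_apply A', l5_apply (A' * A),
    subst_comp_subst_apply (hasSubst_lf A') (hasSubst_lf A)]
  refine congrArg (fun a => subst a f) (funext fun v => ?_)
  rw [← l5_apply, l5_lf]
theorem lin_one (f : MvPowerSeries V ℂ) : lin 1 f = f := by
  have h1 : lf (1 : Matrix V V ℂ) = (X : V → MvPowerSeries V ℂ) := by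
    funext v
    rw [lf, Finset.sum_eq_single v]
    · rw [Matrix.one_apply_eq, one_smul]
    · intro u _ hu
      rw [Matrix.one_apply_ne (Ne.symm hu), zero_smul]
    · intro h
      exact absurd (Finset.mem_univ v) h
  rw [l5_apply, h1, subst_self]
  rfl
-- END l5

end Pool.Agent.Cot
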