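import Pool.Agent.Ep.Nrm
import Pool.Agent.Cot.Tra

/-!
# Germs of formal microdifferential operators on `ℂ^n` (P11, block C, helper50)

Coordinates `x_i` on `ℂ^n` and `ξ_i` on the fibres of `T*ℂ^n`. The germ at `(x₀, ξ₀)` of an operator
of order `≤ m` is its total symbol, a sequence `(P_k)`, `k ∈ ℤ`, `P_k = 0` for `k > m`, of convergent
power series in `x - x₀`, `ξ - ξ₀`, homogeneous of degree `k` in `ξ`; the product is the formula of
Leibniz `(P Q)_l = ∑_{l = i + j - |α|} (1/α!) (∂_ξ^α P_i) (∂_x^α Q_j)`.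
-/

set_option autoImplicit false

namespace Pool.Agent.Cot

open MvPowerSeries
open Pool.Agent.Ep (leib Sym Var Op op comp IsFormal IsMicro lb D B)

/-- the coordinates of `T*ℂ^n`: `x_i` is `inl i` and `ξ_i` is `inr i` -/
abbrev XX (n : ℕ) : Type := Fin n ⊕ Fin n
/-- power series in `x - x₀`, `ξ - ξ₀` -/
abbrev Ser (n : ℕ) : Type := MvPowerSeries (XX n) ℂ

variable {n : ℕ}

/-- `∂_{x_i}` -/
noncomputable def dX (i : Fin n) : Derivation ℂ (Ser n) (Ser n) := pderiv ℂ (Sum.inl i)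
/-- `∂_{ξ_i}` -/
noncomputable def dXi (i : Fin n) : Derivation ℂ (Ser n) (Ser n) := pderiv ℂ (Sum.inr i)

/-- the Euler field `∑ ξ_i ∂_{ξ_i}` near `ξ₀` -/
noncomputable def eul (ξ : Fin n → ℂ) (f : Ser n) : Ser n :=
  ∑ i, (C (ξ i) + X (Sum.inr i)) * dXi i f

/-- the terms with `|α| = k` of the Leibniz formula -/
noncomputable def prk (k : ℕ) (P Q : ℤ → Ser n) (l : ℤ) : Ser n :=
  ∑ᶠ i : ℤ, leib dXi dX k (P i) (Q (l + k - i))

/-- the Leibniz formula -/
noncomputable def pr (P Q : ℤ → Ser n) (l : ℤ) : Ser n := ∑ᶠ k : ℕ, prk k P Q l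

/-- `P_k = 0` for `k > m` -/
def Ub (m : ℤ) (P : ℤ → Ser n) : Prop := ∀ k, m < k → P k = 0

/-- Germs of formal microdifferential operators at `(x₀, ξ)`: homogeneity, finite order, convergence on
a common polydisc. -/
structure IsHat (ξ : Fin n → ℂ) (P : ℤ → Ser n) : Prop where
  hom : ∀ k, eul ξ (P k) = (k : ℂ) • P k
  bdd : ∃ m : ℕ, Ub m P
  conv : ∃ R : ℝ, 0 < R ∧ ∀ k, ∃ C : ℝ, Bd C R (P k)

/-- The growth condition of microdifferential operators, `|P_k| ≤ C^(|k|+1) (-k)!` for `k ≤ 0` on a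
common polydisc (for the finitely many `k > 0` it only says that `P_k` converges). -/
def IsMic (P : ℤ → Ser n) : Prop :=
  ∃ C : ℝ, ∀ (k : ℤ) (μ : XX n →₀ ℕ), ‖coeff μ (P k)‖ ≤ C ^ (μ.degree + k.natAbs + 1)
    * ((-k).toNat).factorial

/-! ## row r1: comparison with `Op n`: operators on `ℂ^n × ℂ` which do not contain `t` -/

/-- the exponent of `x`, `y` of a monomial in `x, t, y, s` -/
noncomputable def idx (μ : Option (Var n) →₀ ℕ) : XX n →₀ ℕ :=
  Finsupp.equivFunOnFinite.symm (Sum.elim (fun i => μ (some (.x i))) fun i => μ (some (.y i)))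

/-- `∑_e P_(m-e)(x, y) s^e` -/
noncomputable def lift (m : ℤ) (P : ℤ → Ser n) : Sym n := fun μ =>
  if μ (some .t) = 0 then coeff (idx μ) (P (m - μ none)) else 0

lemma Ub.mono {m m' : ℤ} (h : m ≤ m') {P : ℤ → Ser n} (hP : Ub m P) : Ub m' P :=
  fun k hk => hP k (by omega)
-- BEGIN r1
private lemma r1_coeff (m : ℤ) (P : ℤ → Ser n) (μ : Option (Var n) →₀ ℕ) :
    coeff μ (lift m P) = if μ (some .t) = 0 then coeff (idx μ) (P (m - μ none)) else 0 := rfl

private noncomputable def r1_emb (j : ℕ) (α : XX n →₀ ℕ) : Option (Var n) →₀ ℕ :=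
  Finsupp.equivFunOnFinite.symm fun v => match v with
    | none => j
    | some .t => 0
    | some (.x i) => α (Sum.inl i)
    | some (.y i) => α (Sum.inr i)

private lemma r1_idx_emb (j : ℕ) (α : XX n →₀ ℕ) : idx (r1_emb j α) = α := by
  ext v
  cases v <;> rfl

private lemma r1_coeff_emb (m : ℤ) (P : ℤ → Ser n) (j : ℕ) (α : XX n →₀ ℕ) :
    coeff (r1_emb j α) (lift m P) = coeff α (P (m - j)) := by
  have h1 : (r1_emb j α) (some Var.t) = 0 := rfl
  have h2 : (r1_emb j α) none = j := rfl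
  rw [r1_coeff, if_pos h1, r1_idx_emb, h2]

private lemma r1_add (μ : Option (Var n) →₀ ℕ) (v w : Option (Var n)) :
    (μ + Finsupp.single v 1 : Option (Var n) →₀ ℕ) w = μ w + if v = w then 1 else 0 := by
  classical
  rw [Finsupp.add_apply, Finsupp.single_apply]

private lemma r1_ne (μ : Option (Var n) →₀ ℕ) {v w : Option (Var n)} (h : v ≠ w) :
    (μ + Finsupp.single v 1 : Option (Var n) →₀ ℕ) w = μ w := by
  rw [r1_add, if_neg h, add_zero]

private lemma r1_idx (μ : Option (Var n) →₀ ℕ) (v : Option (Var n)) (w : XX n)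
    (hx : ∀ i, v = some (.x i) ↔ w = Sum.inl i) (hy : ∀ i, v = some (.y i) ↔ w = Sum.inr i) :
    idx (μ + Finsupp.single v 1 : Option (Var n) →₀ ℕ) = idx μ + Finsupp.single w 1 := by
  classical
  ext u
  rw [Finsupp.add_apply, Finsupp.single_apply]
  rcases u with u | u
  · refine (r1_add μ v (some (.x u))).trans ?_
    have h1 : idx μ (Sum.inl u) = μ (some (.x u)) := rfl
    rw [h1]
    by_cases h : w = Sum.inl u
    · rw [if_pos h, if_pos ((hx u).2 h)]
    · rw [if_neg h, if_neg fun h' => h ((hx u).1 h')]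
  · refine (r1_add μ v (some (.y u))).trans ?_
    have h1 : idx μ (Sum.inr u) = μ (some (.y u)) := rfl
    rw [h1]
    by_cases h : w = Sum.inr u
    · rw [if_pos h, if_pos ((hy u).2 h)]
    · rw [if_neg h, if_neg fun h' => h ((hy u).1 h')]

lemma lift_inj {m : ℤ} {P Q : ℤ → Ser n} (hP : Ub m P) (hQ : Ub m Q) (h : lift m P = lift m Q) :
    P = Q := by
  funext k
  rcases lt_or_ge m k with hk | hk
  · rw [hP k hk, hQ k hk]
  · ext α
    have h1 : m - ((m - k).toNat : ℤ) = k := by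
      rw [Int.toNat_of_nonneg (by omega)]
      ring
    have h2 := congrArg (coeff (r1_emb (m - k).toNat α)) h
    rw [r1_coeff_emb, r1_coeff_emb, h1] at h2
    exact h2
lemma lift_add (m : ℤ) (P Q : ℤ → Ser n) : lift m (P + Q) = lift m P + lift m Q := by
  ext μ
  rw [map_add, r1_coeff, r1_coeff, r1_coeff]
  by_cases ht : μ (some .t) = 0
  · rw [if_pos ht, if_pos ht, if_pos ht, Pi.add_apply, map_add]
  · rw [if_neg ht, if_neg ht, if_neg ht, add_zero]
lemma lift_B_none (m : ℤ) (P : ℤ → Ser n) : B none (lift m P) = 0 := by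
  classical
  ext μ
  change coeff μ (pderiv ℂ (some .t) (lift m P)) = _
  rw [coeff_pderiv, r1_coeff, if_neg, zero_mul, map_zero]
  rw [r1_add, if_pos rfl]
  exact Nat.succ_ne_zero _
lemma lift_B (m : ℤ) (P : ℤ → Ser n) (i : Fin n) :
    B (some i) (lift m P) = lift m fun k => dX i (P k) := by
  classical
  ext μ
  change coeff μ (pderiv ℂ (some (.x i)) (lift m P)) = _
  rw [coeff_pderiv, r1_coeff, r1_coeff, r1_ne μ (w := some .t) (by simp),
    r1_ne μ (w := none) (by simp),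
    r1_idx μ (some (.x i)) (Sum.inl i) (fun j => by simp) (fun j => by simp)]
  by_cases ht : μ (some .t) = 0
  · rw [if_pos ht, if_pos ht]
    change _ = coeff (idx μ) (pderiv ℂ (Sum.inl i) (P (m - μ none)))
    rw [coeff_pderiv]
    rfl
  · rw [if_neg ht, if_neg ht, zero_mul]
/-- `D (some i) = s ∂_{y_i}` -/
lemma lift_D {m : ℤ} {P : ℤ → Ser n} (hP : Ub m P) (i : Fin n) :
    D (some i) (lift m P) = lift (m + 1) fun k => dXi i (P k) := by
  classical
  ext μ
  change coeff μ ((X none : Sym n) * pderiv ℂ (some (.y i)) (lift m P)) = _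
  rw [r1_coeff, X, coeff_monomial_mul, one_mul]
  by_cases h0 : μ none = 0
  · rw [if_neg]
    · have h1 : P (m + 1 - (μ none : ℤ)) = 0 := hP _ (by rw [h0]; push_cast; omega)
      rw [h1, map_zero, map_zero]
      split_ifs <;> rfl
    · intro h
      have := h none
      rw [Finsupp.single_eq_same] at this
      omega
  · obtain ⟨μ', rfl⟩ : ∃ μ' : Option (Var n) →₀ ℕ, μ = μ' + Finsupp.single none 1 := by
      refine ⟨μ - Finsupp.single none 1, ?_⟩
      rw [tsub_add_cancel_of_le]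
      rw [Finsupp.single_le_iff]
      omega
    have h6 : idx (μ' + Finsupp.single none 1 : Option (Var n) →₀ ℕ) = idx μ' := by
      ext v
      rcases v with v | v
      · refine (r1_add μ' none (some (.x v))).trans ?_
        rw [if_neg (by simp), add_zero]
        rfl
      · refine (r1_add μ' none (some (.y v))).trans ?_
        rw [if_neg (by simp), add_zero]
        rfl
    have h7 : m + 1 - ((μ' none + 1 : ℕ) : ℤ) = m - (μ' none : ℤ) := by push_cast; ring
    have h8 : (μ' + Finsupp.single none 1 : Option (Var n) →₀ ℕ) none = μ' none + 1 := by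
      rw [r1_add, if_pos rfl]
    rw [if_pos le_add_self, add_tsub_cancel_right, coeff_pderiv, r1_coeff, h6, h8, h7,
      r1_ne μ' (v := some (.y i)) (w := some .t) (by simp),
      r1_ne μ' (v := some (.y i)) (w := none) (by simp),
      r1_ne μ' (v := none) (w := some .t) (by simp),
      r1_idx μ' (some (.y i)) (Sum.inr i) (fun j => by simp) (fun j => by simp)]
    by_cases ht : μ' (some .t) = 0
    · rw [if_pos ht, if_pos ht]
      change _ = coeff (idx μ') (pderiv ℂ (Sum.inr i) (P (m - μ' none)))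
      rw [coeff_pderiv]
      rfl
    · rw [if_neg ht, if_neg ht, zero_mul]
-- END r1

/-! ## row r2: the product -/

-- BEGIN r2a
private lemma r2a_coeff (m : ℤ) (P : ℤ → Ser n) (μ : Option (Var n) →₀ ℕ) :
    coeff μ (lift m P) = if μ (some .t) = 0 then coeff (idx μ) (P (m - μ none)) else 0 := rfl

private noncomputable def r2a_emb (j : ℕ) (α : XX n →₀ ℕ) : Option (Var n) →₀ ℕ :=
  Finsupp.equivFunOnFinite.symm fun v => match v with
    | none => j
    | some .t => 0
    | some (.x i) => α (Sum.inl i)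
    | some (.y i) => α (Sum.inr i)

private lemma r2a_idx_emb (j : ℕ) (α : XX n →₀ ℕ) : idx (r2a_emb j α) = α := by
  ext v
  cases v <;> rfl

private lemma r2a_emb_idx {a : Option (Var n) →₀ ℕ} (h : a (some .t) = 0) :
    r2a_emb (a none) (idx a) = a := by
  ext v
  rcases v with _ | v
  · rfl
  · cases v
    · rfl
    · exact h.symm
    · rfl

private lemma r2a_idx_add (a b : Option (Var n) →₀ ℕ) : idx (a + b) = idx a + idx b := by
  ext v
  cases v <;> rfl

private lemma r2a_prk {m m' : ℤ} {P Q : ℤ → Ser n} (hP : Ub m P) (hQ : Ub m' Q) (l : ℤ) :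
    prk 0 P Q l = ∑ i ∈ Finset.Icc (l - m') m, P i * Q (l - i) := by
  rw [prk]
  have h0 : ∀ i, leib dXi dX 0 (P i) (Q (l + (0 : ℕ) - i)) = P i * Q (l - i) := by
    intro i
    rw [Nat.cast_zero, add_zero, leib]
  simp only [h0]
  refine finsum_eq_sum_of_support_subset _ ?_
  intro i hi
  rw [Function.mem_support] at hi
  rw [Finset.coe_Icc, Set.mem_Icc]
  constructor
  · by_contra h
    exact hi (by rw [hQ _ (by omega), mul_zero])
  · by_contra h
    exact hi (by rw [hP _ (by omega), zero_mul])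

/-- the product of power series in `s` -/
lemma lift_mul {m m' : ℤ} {P Q : ℤ → Ser n} (hP : Ub m P) (hQ : Ub m' Q) :
    lift m P * lift m' Q = lift (m + m') (prk 0 P Q) := by
  classical
  ext μ
  rw [coeff_mul, r2a_coeff]
  by_cases ht : μ (some .t) = 0
  · rw [if_pos ht, r2a_prk hP hQ, map_sum]
    simp only [coeff_mul]
    rw [← Finset.sum_product']
    have hp : ∀ p ∈ Finset.HasAntidiagonal.antidiagonal μ, p.1 (some .t) = 0 ∧ p.2 (some .t) = 0 ∧
        p.1 none + p.2 none = μ none := by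
      intro p hp
      rw [Finset.HasAntidiagonal.mem_antidiagonal] at hp
      have h1 : p.1 (some .t) + p.2 (some .t) = μ (some .t) := by rw [← hp]; rfl
      have h2 : p.1 none + p.2 none = μ none := by rw [← hp]; rfl
      omega
    refine Finset.sum_bij' (fun p _ => (m - (p.1 none : ℤ), (idx p.1, idx p.2)))
      (fun q _ => (r2a_emb (m - q.1).toNat q.2.1, r2a_emb (q.1 - (m - μ none)).toNat q.2.2))
      ?_ ?_ ?_ ?_ ?_
    · intro p h
      obtain ⟨h1, h2, h3⟩ := hp p h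
      rw [Finset.mem_product, Finset.mem_Icc, Finset.HasAntidiagonal.mem_antidiagonal]
      rw [Finset.HasAntidiagonal.mem_antidiagonal] at h
      refine ⟨⟨?_, ?_⟩, ?_⟩
      · change m + m' - (μ none : ℤ) - m' ≤ m - (p.1 none : ℤ)
        omega
      · change m - (p.1 none : ℤ) ≤ m
        omega
      · change idx p.1 + idx p.2 = idx μ
        rw [← h, r2a_idx_add]
    · intro q h
      rw [Finset.mem_product, Finset.mem_Icc, Finset.HasAntidiagonal.mem_antidiagonal] at h
      obtain ⟨⟨h1, h2⟩, h3⟩ := h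
      rw [Finset.HasAntidiagonal.mem_antidiagonal]
      have h4 : (m - q.1).toNat + (q.1 - (m - μ none)).toNat = μ none := by omega
      ext v
      rcases v with _ | v
      · exact h4
      · cases v with
        | x i => exact DFunLike.congr_fun h3 (Sum.inl i)
        | t => exact ht.symm
        | y i => exact DFunLike.congr_fun h3 (Sum.inr i)
    · intro p h
      obtain ⟨h1, h2, h3⟩ := hp p h
      change (r2a_emb (m - (m - (p.1 none : ℤ))).toNat (idx p.1),
        r2a_emb (m - (p.1 none : ℤ) - (m - μ none)).toNat (idx p.2)) = p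
      have e1 : (m - (m - (p.1 none : ℤ))).toNat = p.1 none := by omega
      have e2 : (m - (p.1 none : ℤ) - (m - μ none)).toNat = p.2 none := by omega
      rw [e1, e2, r2a_emb_idx h1, r2a_emb_idx h2]
    · intro q h
      rw [Finset.mem_product, Finset.mem_Icc] at h
      obtain ⟨⟨h1, h2⟩, h3⟩ := h
      change (m - ((m - q.1).toNat : ℤ), (idx (r2a_emb (m - q.1).toNat q.2.1),
        idx (r2a_emb (q.1 - (m - μ none)).toNat q.2.2))) = q
      rw [r2a_idx_emb, r2a_idx_emb]
      have e1 : m - ((m - q.1).toNat : ℤ) = q.1 := by omega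
      rw [e1]
    · intro p h
      obtain ⟨h1, h2, h3⟩ := hp p h
      rw [r2a_coeff, r2a_coeff, if_pos h1, if_pos h2]
      change _ = coeff (idx p.1) (P (m - (p.1 none : ℤ))) *
        coeff (idx p.2) (Q (m + m' - (μ none : ℤ) - (m - (p.1 none : ℤ))))
      have e1 : m + m' - (μ none : ℤ) - (m - (p.1 none : ℤ)) = m' - p.2 none := by omega
      rw [e1]
  · rw [if_neg ht]
    refine Finset.sum_eq_zero fun p hp => ?_
    rw [Finset.HasAntidiagonal.mem_antidiagonal] at hp
    have h1 : p.1 (some .t) + p.2 (some .t) = μ (some .t) := by rw [← hp]; rfl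
    rw [r2a_coeff, r2a_coeff]
    by_cases h2 : p.1 (some .t) = 0
    · rw [if_neg (by omega : ¬ p.2 (some .t) = 0), mul_zero]
    · rw [if_neg h2, zero_mul]
-- END r2a

/-! ## row r2b: finite sums -/

-- BEGIN r2b
private lemma r2b_prk {m m' : ℤ} {P Q : ℤ → Ser n} (hP : Ub m P) (hQ : Ub m' Q) (k : ℕ)
    (l : ℤ) : prk k P Q l =
      ∑ i ∈ Finset.Icc (l + k - m') m, leib dXi dX k (P i) (Q (l + k - i)) := by
  rw [prk]
  refine finsum_eq_sum_of_support_subset _ ?_
  intro i hi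
  rw [Function.mem_support] at hi
  rw [Finset.coe_Icc, Set.mem_Icc]
  constructor
  · by_contra h
    exact hi (by rw [hQ _ (by omega), Ep.leib_zero_right])
  · by_contra h
    exact hi (by rw [hP _ (by omega), Ep.leib_zero_left])

lemma prk_ub {m m' : ℤ} {P Q : ℤ → Ser n} (hP : Ub m P) (hQ : Ub m' Q) (k : ℕ) :
    Ub (m + m' - k) (prk k P Q) := by
  intro l hl
  rw [r2b_prk hP hQ, Finset.Icc_eq_empty (by omega), Finset.sum_empty]

/-- `prk (k+1) P Q l = (k+1)⁻¹ ∑_i prk k (∂_{ξ_i} P) (∂_{x_i} Q) (l + 1)`: shift the index -/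
lemma prk_succ {m m' : ℤ} {P Q : ℤ → Ser n} (hP : Ub m P) (hQ : Ub m' Q) (k : ℕ) (l : ℤ) :
    prk (k + 1) P Q l = ((k : ℂ) + 1)⁻¹ • ∑ i, prk k (fun k => dXi i (P k)) (fun k => dX i (Q k)) (l + 1) := by
  have h1 : ∀ i : Fin n, Ub m fun k => dXi i (P k) := fun i k hk => by
    change dXi i (P k) = 0
    rw [hP k hk, map_zero]
  have h2 : ∀ i : Fin n, Ub m' fun k => dX i (Q k) := fun i k hk => by
    change dX i (Q k) = 0
    rw [hQ k hk, map_zero]
  rw [r2b_prk hP hQ, Finset.sum_congr rfl fun i _ => r2b_prk (h1 i) (h2 i) k (l + 1),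
    Finset.sum_comm, Finset.smul_sum]
  have h3 : l + ((k + 1 : ℕ) : ℤ) = l + 1 + k := by push_cast; ring
  rw [h3]
  refine Finset.sum_congr rfl fun i _ => ?_
  rw [leib]

/-- for sequences bounded from above all sums in `pr` are finite -/
lemma pr_eq_sum {m m' : ℤ} {P Q : ℤ → Ser n} (hP : Ub m P) (hQ : Ub m' Q) (l : ℤ) :
    pr P Q l = ∑ k ∈ Finset.range (m + m' - l + 1).toNat, ∑ i ∈ Finset.Icc (l + k - m') m,
      leib dXi dX k (P i) (Q (l + k - i)) := by
  rw [pr, ← Finset.sum_congr rfl fun k _ => r2b_prk hP hQ k l]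
  refine finsum_eq_sum_of_support_subset _ ?_
  intro k hk
  rw [Function.mem_support] at hk
  rw [Finset.coe_range, Set.mem_Iio]
  by_contra h
  exact hk (prk_ub hP hQ k l (by omega))
-- END r2b

/-! ## row r2c: comparison of the products -/

-- BEGIN r2c
private lemma r2c_coeff (m : ℤ) (P : ℤ → Ser n) (μ : Option (Var n) →₀ ℕ) :
    coeff μ (lift m P) = if μ (some .t) = 0 then coeff (idx μ) (P (m - μ none)) else 0 := rfl

private lemma r2c_zero (m : ℤ) : lift m (fun _ => (0 : Ser n)) = 0 := by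
  ext μ
  rw [r2c_coeff, map_zero, map_zero, ite_self]

/-- induction on `k` -/
lemma lb_lift {m m' : ℤ} {P Q : ℤ → Ser n} (hP : Ub m P) (hQ : Ub m' Q) (k : ℕ) :
    lb k (lift m P) (lift m' Q) = lift (m + m') (prk k P Q) := by
  induction k generalizing m m' P Q with
  | zero => exact lift_mul hP hQ
  | succ k ih =>
    have h0 : ∀ (D' : Derivation ℂ (Ser n) (Ser n)) {m : ℤ} {P : ℤ → Ser n}, Ub m P →
        Ub m fun k => D' (P k) := by
      intro D' m P hP l hl
      change D' (P l) = 0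
      rw [hP l hl, map_zero]
    have h1 : lb (k + 1) (lift m P) (lift m' Q) = ((k : ℂ) + 1)⁻¹ •
        ∑ i : Fin n, lift (m + 1 + m') (prk k (fun k => dXi i (P k)) fun k => dX i (Q k)) := by
      change ((k : ℂ) + 1)⁻¹ • ∑ i, lb k (D i (lift m P)) (B i (lift m' Q)) = _
      rw [Fintype.sum_option, lift_B_none]
      have h2 : lb k (D none (lift m P)) 0 = 0 := Pool.Agent.Ep.leib_zero_right D B k _
      rw [h2, zero_add]
      congr 1
      refine Finset.sum_congr rfl fun i _ => ?_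
      rw [lift_D hP, lift_B]
      exact ih ((h0 (dXi i) hP).mono (by omega)) (h0 (dX i) hQ)
    rw [h1]
    ext μ
    rw [r2c_coeff, coeff_smul, map_sum, prk_succ hP hQ]
    simp only [r2c_coeff]
    split_ifs with ht
    · rw [coeff_smul, map_sum]
      have h3 : m + m' - (μ none : ℤ) + 1 = m + 1 + m' - (μ none : ℤ) := by ring
      rw [h3]
    · rw [Finset.sum_const_zero, mul_zero]

lemma pr_ub {m m' : ℤ} {P Q : ℤ → Ser n} (hP : Ub m P) (hQ : Ub m' Q) : Ub (m + m') (pr P Q) := by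
  intro l hl
  unfold pr
  rw [← finsum_zero (α := ℕ) (M := Ser n)]
  refine finsum_congr fun k => ?_
  exact prk_ub hP hQ k l (by omega)

theorem comp_lift {m m' : ℤ} {P Q : ℤ → Ser n} (hP : Ub m P) (hQ : Ub m' Q) :
    comp (lift m P) (lift m' Q) = lift (m + m') (pr P Q) := by
  ext μ
  rw [Pool.Agent.Ep.coeff_comp, r2c_coeff]
  have h1 : ∀ k ∈ Finset.range (μ none + 1), coeff μ (lb k (lift m P) (lift m' Q)) =
      if μ (some .t) = 0 then coeff (idx μ) (prk k P Q (m + m' - μ none)) else 0 := by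
    intro k _
    rw [lb_lift hP hQ, r2c_coeff]
  rw [Finset.sum_congr rfl h1]
  split_ifs with ht
  · have h2 : pr P Q (m + m' - μ none) =
        ∑ k ∈ Finset.range (μ none + 1), prk k P Q (m + m' - μ none) := by
      unfold pr
      refine finsum_eq_finsetSum_of_support_subset _ ?_
      intro k hk
      rw [Function.mem_support] at hk
      rw [Finset.coe_range, Set.mem_Iio]
      by_contra hlt
      exact hk (prk_ub hP hQ k _ (by omega))
    rw [h2, map_sum]
  · exact Finset.sum_const_zero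
-- END r2c

/-! ## row r3: ring axioms for sequences (from `comp_assoc`, … and `lift_inj`) -/

/-- the sequence `f` in degree `k` and `0` elsewhere -/
noncomputable def sgl (k : ℤ) (f : Ser n) : ℤ → Ser n := fun l => if l = k then f else 0

private lemma r3_ub_one : Ub 0 (sgl 0 1 : ℤ → Ser n) := fun k hk => by
  unfold sgl
  rw [if_neg (by omega)]

private lemma r3_ub_mono_add {m : ℤ} {P Q : ℤ → Ser n} (hP : Ub m P) (hQ : Ub m Q) :
    Ub m (P + Q) := fun k hk => by
  rw [Pi.add_apply, hP k hk, hQ k hk, add_zero]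

private lemma r3_lift_one : lift 0 (sgl 0 1 : ℤ → Ser n) = 1 := by
  ext μ
  have h : coeff μ (lift 0 (sgl 0 1 : ℤ → Ser n))
      = if μ (some .t) = 0 then coeff (idx μ) ((sgl 0 1 : ℤ → Ser n) (0 - (μ none : ℤ))) else 0 := rfl
  rw [h, coeff_one]
  by_cases h0 : μ = 0
  · subst h0
    have h1 : idx (0 : Option (Var n) →₀ ℕ) = 0 := by
      ext i
      cases i <;> rfl
    rw [if_pos rfl, if_pos (by rfl), h1]
    have h2 : (sgl 0 1 : ℤ → Ser n) (0 - ((0 : Option (Var n) →₀ ℕ) none : ℤ)) = 1 := rfl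
    rw [h2, coeff_zero_one]
  · rw [if_neg h0]
    split_ifs with ht
    · unfold sgl
      split_ifs with hn
      · rw [coeff_one, if_neg]
        intro hi
        apply h0
        ext v
        rcases v with _ | v
        · rw [Finsupp.zero_apply]
          omega
        · cases v with
          | x i => exact congrArg (fun f => f (Sum.inl i)) hi
          | t => exact ht
          | y i => exact congrArg (fun f => f (Sum.inr i)) hi
      · rw [map_zero]
    · rfl

lemma pr_assoc {m m' m'' : ℤ} {P Q R : ℤ → Ser n} (hP : Ub m P) (hQ : Ub m' Q) (hR : Ub m'' R) :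
    pr (pr P Q) R = pr P (pr Q R) := by
  have h1 : Ub (m + m' + m'') (pr (pr P Q) R) := pr_ub (pr_ub hP hQ) hR
  have h2 : Ub (m + m' + m'') (pr P (pr Q R)) := by
    rw [add_assoc]
    exact pr_ub hP (pr_ub hQ hR)
  refine lift_inj h1 h2 ?_
  rw [← comp_lift (pr_ub hP hQ) hR, ← comp_lift hP hQ, Pool.Agent.Ep.comp_assoc, comp_lift hQ hR,
    comp_lift hP (pr_ub hQ hR), add_assoc]

lemma pr_add_left {m m' : ℤ} {P P' Q : ℤ → Ser n} (hP : Ub m P) (hP' : Ub m P') (hQ : Ub m' Q) :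
    pr (P + P') Q = pr P Q + pr P' Q := by
  refine lift_inj (pr_ub (r3_ub_mono_add hP hP') hQ)
    (r3_ub_mono_add (pr_ub hP hQ) (pr_ub hP' hQ)) ?_
  rw [lift_add, ← comp_lift hP hQ, ← comp_lift hP' hQ, ← comp_lift (r3_ub_mono_add hP hP') hQ,
    lift_add, Pool.Agent.Ep.comp_add_left]

lemma pr_add_right {m m' : ℤ} {P Q Q' : ℤ → Ser n} (hP : Ub m P) (hQ : Ub m' Q) (hQ' : Ub m' Q') :
    pr P (Q + Q') = pr P Q + pr P Q' := by
  refine lift_inj (pr_ub hP (r3_ub_mono_add hQ hQ'))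
    (r3_ub_mono_add (pr_ub hP hQ) (pr_ub hP hQ')) ?_
  rw [lift_add, ← comp_lift hP hQ, ← comp_lift hP hQ', ← comp_lift hP (r3_ub_mono_add hQ hQ'),
    lift_add, Pool.Agent.Ep.comp_add_right]

lemma pr_zero_left (Q : ℤ → Ser n) : pr 0 Q = 0 := by
  funext l
  unfold pr prk
  simp only [Pi.zero_apply, Pool.Agent.Ep.leib_zero_left, finsum_zero]

lemma pr_zero_right (P : ℤ → Ser n) : pr P 0 = 0 := by
  funext l
  unfold pr prk
  simp only [Pi.zero_apply, Pool.Agent.Ep.leib_zero_right, finsum_zero]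

lemma one_pr {m : ℤ} {P : ℤ → Ser n} (hP : Ub m P) : pr (sgl 0 1) P = P := by
  have h1 : Ub m (pr (sgl 0 1) P) := by
    have h2 := pr_ub r3_ub_one hP
    rwa [zero_add] at h2
  refine lift_inj h1 hP ?_
  have h2 := comp_lift r3_ub_one hP
  rw [zero_add, r3_lift_one, Pool.Agent.Ep.comp_one_left] at h2
  exact h2.symm

lemma pr_one {m : ℤ} {P : ℤ → Ser n} (hP : Ub m P) : pr P (sgl 0 1) = P := by
  have h1 : Ub m (pr P (sgl 0 1)) := by
    have h2 := pr_ub hP r3_ub_one
    rwa [add_zero] at h2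
  refine lift_inj h1 hP ?_
  have h2 := comp_lift hP r3_ub_one
  rw [add_zero, r3_lift_one, Pool.Agent.Ep.comp_one_right] at h2
  exact h2.symm

/-! ## row r4a: homogeneity -/

private lemma r4a_comm {σ : Type} (i j : σ) (f : MvPowerSeries σ ℂ) :
    pderiv ℂ i (pderiv ℂ j f) = pderiv ℂ j (pderiv ℂ i f) := by
  classical
  ext n
  rw [coeff_pderiv, coeff_pderiv, coeff_pderiv, coeff_pderiv]
  by_cases h : i = j
  · subst h; rfl
  · have h1 : (n + Finsupp.single i 1 : σ →₀ ℕ) j = n j := by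
      simp [Finsupp.add_apply, h]
    have h2 : (n + Finsupp.single j 1 : σ →₀ ℕ) i = n i := by
      simp [Finsupp.add_apply, Ne.symm h]
    have h3 : n + Finsupp.single i 1 + Finsupp.single j 1
        = n + Finsupp.single j 1 + Finsupp.single i 1 := by
      rw [add_assoc, add_assoc, add_comm (Finsupp.single i 1)]
    rw [h1, h2, h3]
    ring

private lemma r4a_Xi (i j : Fin n) (c : ℂ) :
    dXi i (C c + X (Sum.inr j) : Ser n) = if i = j then 1 else 0 := by
  classical
  have h1 : dXi i (C c : Ser n) = 0 := Derivation.map_algebraMap _ c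
  rw [map_add, h1, zero_add, dXi]
  split_ifs with h
  · subst h
    exact pderiv_X_self
  · exact pderiv_X_of_ne (by simpa using Ne.symm h)

private lemma r4a_X (i j : Fin n) (c : ℂ) :
    dX i (C c + X (Sum.inr j) : Ser n) = 0 := by
  classical
  have h1 : dX i (C c : Ser n) = 0 := Derivation.map_algebraMap _ c
  rw [map_add, h1, zero_add, dX]
  exact pderiv_X_of_ne (by simp)

private lemma r4a_eul_dXi (ξ : Fin n → ℂ) (i : Fin n) (f : Ser n) :
    eul ξ (dXi i f) = dXi i (eul ξ f) - dXi i f := by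
  classical
  have h : dXi i (eul ξ f) = eul ξ (dXi i f) + dXi i f := by
    unfold eul
    rw [map_sum]
    have h2 : ∀ j, dXi i ((C (ξ j) + X (Sum.inr j)) * dXi j f)
        = (C (ξ j) + X (Sum.inr j)) * dXi j (dXi i f) + if i = j then dXi j f else 0 := by
      intro j
      rw [Derivation.leibniz, smul_eq_mul, smul_eq_mul, r4a_Xi]
      have h3 : dXi i (dXi j f) = dXi j (dXi i f) := r4a_comm _ _ _
      rw [h3]
      split_ifs <;> ring
    rw [Finset.sum_congr rfl fun j _ => h2 j, Finset.sum_add_distrib, Finset.sum_ite_eq]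
    simp
  rw [h, add_sub_cancel_right]

private lemma r4a_eul_dX (ξ : Fin n → ℂ) (i : Fin n) (f : Ser n) :
    eul ξ (dX i f) = dX i (eul ξ f) := by
  classical
  unfold eul
  rw [map_sum]
  refine Finset.sum_congr rfl fun j _ => ?_
  rw [Derivation.leibniz, smul_eq_mul, smul_eq_mul, r4a_X, mul_zero, add_zero]
  have h3 : dX i (dXi j f) = dXi j (dX i f) := r4a_comm _ _ _
  rw [h3]

private lemma r4a_mul (ξ : Fin n → ℂ) (f g : Ser n) :
    eul ξ (f * g) = eul ξ f * g + f * eul ξ g := by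
  unfold eul
  rw [Finset.sum_mul, Finset.mul_sum, ← Finset.sum_add_distrib]
  refine Finset.sum_congr rfl fun j _ => ?_
  rw [Derivation.leibniz, smul_eq_mul, smul_eq_mul]
  ring

private lemma r4a_sum (ξ : Fin n → ℂ) {κ : Type} (s : Finset κ) (f : κ → Ser n) :
    eul ξ (∑ k ∈ s, f k) = ∑ k ∈ s, eul ξ (f k) := by
  unfold eul
  rw [Finset.sum_comm]
  refine Finset.sum_congr rfl fun j _ => ?_
  rw [map_sum, Finset.mul_sum]

private lemma r4a_smul (ξ : Fin n → ℂ) (c : ℂ) (f : Ser n) : eul ξ (c • f) = c • eul ξ f := by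
  unfold eul
  rw [Finset.smul_sum]
  refine Finset.sum_congr rfl fun j _ => ?_
  rw [Derivation.map_smul, mul_smul_comm]

/-- `[E, ∂_{ξ_i}] = - ∂_{ξ_i}`, `[E, ∂_{x_i}] = 0` for the Euler field `E` -/
theorem eul_leib (ξ : Fin n → ℂ) (k : ℕ) (f g : Ser n) :
    eul ξ (leib dXi dX k f g) = leib dXi dX k (eul ξ f) g + leib dXi dX k f (eul ξ g)
      - (k : ℂ) • leib dXi dX k f g := by
  induction k generalizing f g with
  | zero =>
    simp only [Pool.Agent.Ep.leib_zero, Nat.cast_zero, zero_smul, sub_zero]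
    exact r4a_mul ξ f g
  | succ k ih =>
    have hn : ((k : ℂ) + 1) ≠ 0 := by exact_mod_cast Nat.succ_ne_zero k
    have hsub : ∀ (a b c : Ser n), leib dXi dX k (a - b) c
        = leib dXi dX k a c - leib dXi dX k b c := by
      intro a b c
      have h1 := Pool.Agent.Ep.leib_add_left dXi dX k (a - b) b c
      rw [sub_add_cancel] at h1
      rw [h1, add_sub_cancel_right]
    rw [Pool.Agent.Ep.leib_succ, Pool.Agent.Ep.leib_succ, Pool.Agent.Ep.leib_succ, r4a_smul,
      r4a_sum]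
    have h2 : ∀ i : Fin n, eul ξ (leib dXi dX k (dXi i f) (dX i g))
        = leib dXi dX k (dXi i (eul ξ f)) (dX i g) + leib dXi dX k (dXi i f) (dX i (eul ξ g))
          - ((k : ℂ) + 1) • leib dXi dX k (dXi i f) (dX i g) := by
      intro i
      rw [ih, r4a_eul_dXi, r4a_eul_dX, hsub, add_smul, one_smul]
      abel
    rw [Finset.sum_congr rfl fun i _ => h2 i, Finset.sum_sub_distrib, Finset.sum_add_distrib,
      ← Finset.smul_sum, smul_sub, smul_add, Nat.cast_succ]
    congr 1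
    rw [smul_comm]

/-! ## row r4b -/

private lemma r4b_sum (ξ : Fin n → ℂ) {κ : Type} (s : Finset κ) (f : κ → Ser n) :
    eul ξ (∑ k ∈ s, f k) = ∑ k ∈ s, eul ξ (f k) := by
  unfold eul
  rw [Finset.sum_comm]
  refine Finset.sum_congr rfl fun j _ => ?_
  rw [map_sum, Finset.mul_sum]

theorem pr_hom {ξ : Fin n → ℂ} {m m' : ℤ} {P Q : ℤ → Ser n} (hP : Ub m P) (hQ : Ub m' Q)
    (hp : ∀ k, eul ξ (P k) = (k : ℂ) • P k) (hq : ∀ k, eul ξ (Q k) = (k : ℂ) • Q k) (l : ℤ) :
    eul ξ (pr P Q l) = (l : ℂ) • pr P Q l := by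
  rw [pr_eq_sum hP hQ, r4b_sum, Finset.smul_sum]
  refine Finset.sum_congr rfl fun k _ => ?_
  rw [r4b_sum, Finset.smul_sum]
  refine Finset.sum_congr rfl fun i _ => ?_
  rw [eul_leib, hp, hq, Pool.Agent.Ep.leib_smul_left, Pool.Agent.Ep.leib_smul_right, ← add_smul,
    ← sub_smul]
  congr 1
  push_cast
  ring

/-! ## row r5a: growth, formal (bounds `m : ℕ`) -/

/- BEGIN r5a (helper83) -/
private def r5a_eqv (n : ℕ) : Option (Fin n ⊕ Fin n) ≃ Var n where
  toFun v := match v with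
    | none => .t
    | some (.inl i) => .x i
    | some (.inr i) => .y i
  invFun v := match v with
    | .t => none
    | .x i => some (.inl i)
    | .y i => some (.inr i)
  left_inv v := by rcases v with _ | i | i <;> rfl
  right_inv v := by cases v <;> rfl

private lemma r5a_sum (g : Option (Var n) → ℕ) : ∑ v, g v =
    g none + (g (some .t) + (∑ i, g (some (.x i)) + ∑ i, g (some (.y i)))) := by
  rw [Fintype.sum_option, ← (r5a_eqv n).sum_comp, Fintype.sum_option, Fintype.sum_sum_type]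
  rfl

private lemma r5a_degree (μ : Option (Var n) →₀ ℕ) :
    μ.degree = μ none + (μ (some .t) + (idx μ).degree) := by
  rw [Finsupp.degree_eq_sum, Finsupp.degree_eq_sum, r5a_sum, Fintype.sum_sum_type]
  rfl

theorem isFormal_lift {m : ℕ} {P : ℤ → Ser n}
    (h : ∃ R : ℝ, 0 < R ∧ ∀ k, ∃ C : ℝ, Bd C R (P k)) : IsFormal (lift m P) := by
  obtain ⟨R, hR, h⟩ := h
  choose C hC using h
  refine ⟨max R 1, lt_max_of_lt_left hR, fun j => ⟨|C (m - j)|, fun μ hμ => ?_⟩⟩
  have h0 : 0 ≤ |C (m - j)| * (max R 1) ^ μ.degree :=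
    mul_nonneg (abs_nonneg _) (pow_nonneg (le_max_of_le_left hR.le) _)
  change ‖if μ (some .t) = 0 then coeff (idx μ) (P ((m : ℤ) - μ none)) else 0‖ ≤ _
  split_ifs with ht
  · rw [hμ]
    refine (hC (m - j) (idx μ)).trans ?_
    have h1 : (idx μ).degree ≤ μ.degree := by
      have := r5a_degree μ
      omega
    calc C (m - j) * R ^ (idx μ).degree ≤ |C (m - j)| * (max R 1) ^ (idx μ).degree :=
          mul_le_mul (le_abs_self _) (pow_le_pow_left₀ hR.le (le_max_left _ _) _)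
            (pow_nonneg hR.le _) (abs_nonneg _)
      _ ≤ _ := mul_le_mul_of_nonneg_left (pow_le_pow_right₀ (le_max_right _ _) h1) (abs_nonneg _)
  · rw [norm_zero]
    exact h0

/-- the exponent in `x`, `t`, `y`, `s` with the exponents of `x`, `y` in `ν`, `j` for `s` and `0` for `t` -/
private noncomputable def r5a_up (j : ℕ) (ν : XX n →₀ ℕ) : Option (Var n) →₀ ℕ :=
  Finsupp.equivFunOnFinite.symm fun v => match v with
    | none => j
    | some (.x i) => ν (.inl i)
    | some .t => 0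
    | some (.y i) => ν (.inr i)

private lemma r5a_idx (j : ℕ) (ν : XX n →₀ ℕ) : idx (r5a_up j ν) = ν := by
  refine Finsupp.ext fun v => ?_
  rcases v with i | i <;> rfl

theorem conv_of_lift {m : ℕ} {P : ℤ → Ser n} (hP : Ub m P) (h : IsFormal (lift m P)) :
    ∃ R : ℝ, 0 < R ∧ ∀ k, ∃ C : ℝ, Bd C R (P k) := by
  obtain ⟨R, hR, h⟩ := h
  refine ⟨R, hR, fun k => ?_⟩
  rcases lt_or_ge (m : ℤ) k with hk | hk
  · refine ⟨0, fun ν => ?_⟩
    rw [hP k hk, map_zero, norm_zero, zero_mul]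
  · obtain ⟨j, hj⟩ : ∃ j : ℕ, (m : ℤ) - j = k := ⟨((m : ℤ) - k).toNat, by omega⟩
    obtain ⟨C, hC⟩ := h j
    refine ⟨C * R ^ j, fun ν => ?_⟩
    have h1 := hC (r5a_up j ν) rfl
    have h2 : coeff (r5a_up j ν) (lift (m : ℤ) P) = coeff ν (P k) := by
      change (if (0 : ℕ) = 0 then coeff (idx (r5a_up j ν)) (P ((m : ℤ) - (j : ℕ))) else 0) = _
      rw [if_pos rfl, r5a_idx, hj]
    have h3 : (r5a_up j ν).degree = j + ν.degree := by
      rw [r5a_degree, r5a_idx]
      change j + (0 + ν.degree) = _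
      rw [zero_add]
    rw [h2, h3, pow_add, ← mul_assoc] at h1
    exact h1
/- END r5a -/

/-! ## row r5b: growth, micro -/

-- BEGIN r5b
private lemma r5b_coeff (m : ℤ) (P : ℤ → Ser n) (μ : Option (Var n) →₀ ℕ) :
    coeff μ (lift m P) = if μ (some .t) = 0 then coeff (idx μ) (P (m - μ none)) else 0 := rfl

/-- sums over the variables -/
private lemma r5b_sum {M : Type} [AddCommMonoid M] (f : Var n → M) :
    ∑ v, f v = (∑ i, f (.x i)) + f .t + ∑ i, f (.y i) := by
  let e : Fin n ⊕ Unit ⊕ Fin n ≃ Var n :=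
    { toFun := Sum.elim Var.x (Sum.elim (fun _ => Var.t) Var.y)
      invFun := fun v => match v with
        | .x i => Sum.inl i
        | .t => Sum.inr (Sum.inl ())
        | .y i => Sum.inr (Sum.inr i)
      left_inv := by rintro (i | ⟨⟩ | i) <;> rfl
      right_inv := by rintro (i | _ | i) <;> rfl }
  rw [← e.sum_comp, Fintype.sum_sum_type, Fintype.sum_sum_type]
  simp only [Finset.univ_unique, Finset.sum_singleton]
  rw [← add_assoc]
  rfl

private lemma r5b_degree (μ : Option (Var n) →₀ ℕ) :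
    μ.degree = μ none + μ (some .t) + (idx μ).degree := by
  rw [Finsupp.degree_eq_sum, Finsupp.degree_eq_sum, Fintype.sum_option, r5b_sum,
    Fintype.sum_sum_type]
  change _ = μ none + μ (some .t) + ((∑ i, μ (some (.x i))) + ∑ i, μ (some (.y i)))
  ring

private lemma r5b_nonneg {P : ℤ → Ser n} {C : ℝ} (h : ∀ (k : ℤ) (μ : XX n →₀ ℕ),
    ‖coeff μ (P k)‖ ≤ C ^ (μ.degree + k.natAbs + 1) * ((-k).toNat).factorial) : 0 ≤ C := by
  have h1 := (norm_nonneg _).trans (h 0 0)
  simpa using h1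

private lemma r5b_nonneg' {f : Sym n} {C : ℝ} (h : ∀ μ : Option (Var n) →₀ ℕ,
    ‖coeff μ f‖ ≤ C ^ (μ.degree + 1) * (μ none).factorial) : 0 ≤ C := by
  have h1 := (norm_nonneg _).trans (h 0)
  simpa using h1

theorem isMicro_lift {m : ℕ} {P : ℤ → Ser n} (h : IsMic P) : IsMicro (lift m P) := by
  obtain ⟨C, hC⟩ := h
  have h0 : 0 ≤ C := r5b_nonneg hC
  set K : ℝ := max C 1 with hK
  have hK1 : 1 ≤ K := le_max_right _ _
  refine ⟨K ^ (m + 1), fun ν => ?_⟩
  rw [r5b_coeff]
  split_ifs with ht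
  · refine (hC _ _).trans ?_
    have hdeg := r5b_degree ν
    rw [ht] at hdeg
    have hn : (((m : ℤ) - (ν none : ℤ)).natAbs) ≤ m + ν none := by omega
    have hf : (-((m : ℤ) - (ν none : ℤ))).toNat ≤ ν none := by omega
    refine mul_le_mul ?_ (by exact_mod_cast Nat.factorial_le hf) (by positivity) (by positivity)
    refine (pow_le_pow_left₀ h0 (le_max_left C 1) _).trans ?_
    rw [← pow_mul]
    refine pow_le_pow_right₀ hK1 ?_
    have h1 : (idx ν).degree + ((m : ℤ) - (ν none : ℤ)).natAbs + 1 ≤ m + (ν.degree + 1) := by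
      omega
    refine h1.trans ?_
    nlinarith [Nat.zero_le (m * ν.degree)]
  · rw [norm_zero]
    positivity

theorem isMic_of_lift {m : ℕ} {P : ℤ → Ser n} (hP : Ub m P) (h : IsMicro (lift m P)) : IsMic P := by
  obtain ⟨C, hC⟩ := h
  have h0 : 0 ≤ C := r5b_nonneg' hC
  set K : ℝ := 2 * max C 1 with hK
  have hK2 : 1 ≤ K := by
    have := le_max_right C 1
    linarith
  have hCK : C ≤ K := by
    have h1 := le_max_left C 1
    have h2 : 0 ≤ max C 1 := h0.trans h1
    linarith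
  have hf1 : (1 : ℝ) ≤ m.factorial := by exact_mod_cast Nat.factorial_pos m
  set L : ℝ := K ^ (2 * m + 2) * m.factorial with hL
  refine ⟨L, fun k μ => ?_⟩
  rcases lt_or_ge (m : ℤ) k with hk | hk
  · rw [hP k hk, map_zero, norm_zero]
    positivity
  -- the exponent
  obtain ⟨ν, hν⟩ : ∃ ν : Option (Var n) →₀ ℕ, ν none = ((m : ℤ) - k).toNat ∧
      ν (some .t) = 0 ∧ idx ν = μ := by
    refine ⟨Finsupp.equivFunOnFinite.symm fun v => match v with
      | none => ((m : ℤ) - k).toNat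
      | some (.x i) => μ (Sum.inl i)
      | some .t => 0
      | some (.y i) => μ (Sum.inr i), rfl, rfl, ?_⟩
    ext v
    rcases v with i | i <;> rfl
  obtain ⟨hν0, hνt, hνμ⟩ := hν
  have h1 := hC ν
  rw [r5b_coeff, if_pos hνt, hνμ, hν0] at h1
  have h2 : (m : ℤ) - (((m : ℤ) - k).toNat : ℤ) = k := by omega
  rw [h2] at h1
  have hdeg := r5b_degree ν
  rw [hνt, hνμ, hν0] at hdeg
  refine h1.trans ?_
  set a : ℕ := (-k).toNat with ha
  set j : ℕ := ((m : ℤ) - k).toNat with hj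
  have hja : j ≤ m + a := by omega
  have hak : a ≤ k.natAbs := by omega
  have h3 : (j.factorial : ℝ) ≤ 2 ^ (m + a) * m.factorial * a.factorial := by
    have h4 : j.factorial ≤ 2 ^ (m + a) * m.factorial * a.factorial := by
      refine (Nat.factorial_le hja).trans ?_
      rw [← Nat.add_choose_mul_factorial_mul_factorial m a]
      have h5 : (m + a).choose a ≤ 2 ^ (m + a) := Nat.choose_le_two_pow _ _
      exact Nat.mul_le_mul (Nat.mul_le_mul h5 le_rfl) le_rfl
    exact_mod_cast h4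
  have h6 : C ^ (ν.degree + 1) * (j.factorial : ℝ) ≤
      C ^ (ν.degree + 1) * (2 ^ (m + a) * m.factorial * a.factorial) :=
    mul_le_mul_of_nonneg_left h3 (by positivity)
  refine h6.trans ?_
  have hM : C ^ (ν.degree + 1) ≤ max C 1 ^ (μ.degree + (m + k.natAbs) + 1) := by
    refine (pow_le_pow_left₀ h0 (le_max_left C 1) _).trans ?_
    refine pow_le_pow_right₀ (le_max_right _ _) ?_
    omega
  have h2a : (2 : ℝ) ^ (m + a) ≤ 2 ^ (μ.degree + (m + k.natAbs) + 1) :=
    pow_le_pow_right₀ (by norm_num) (by omega)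
  have h7 : C ^ (ν.degree + 1) * 2 ^ (m + a) ≤ K ^ (μ.degree + (m + k.natAbs) + 1) := by
    rw [hK, mul_pow, mul_comm]
    exact mul_le_mul h2a hM (by positivity) (by positivity)
  have h8 : K ^ (μ.degree + (m + k.natAbs) + 1) * (m.factorial : ℝ) ≤
      L ^ (μ.degree + k.natAbs + 1) := by
    rw [hL, mul_pow (K ^ (2 * m + 2)) (m.factorial : ℝ), ← pow_mul]
    refine mul_le_mul ?_ ?_ (by positivity) (by positivity)
    · refine pow_le_pow_right₀ hK2 ?_
      nlinarith [Nat.zero_le (m * (μ.degree + k.natAbs))]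
    · exact le_self_pow₀ hf1 (by omega)
  calc C ^ (ν.degree + 1) * (2 ^ (m + a) * m.factorial * a.factorial)
      = C ^ (ν.degree + 1) * 2 ^ (m + a) * m.factorial * a.factorial := by ring
    _ ≤ K ^ (μ.degree + (m + k.natAbs) + 1) * m.factorial * a.factorial :=
        mul_le_mul_of_nonneg_right (mul_le_mul_of_nonneg_right h7 (by positivity))
          (by positivity)
    _ ≤ L ^ (μ.degree + k.natAbs + 1) * a.factorial :=
        mul_le_mul_of_nonneg_right h8 (by positivity)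
-- END r5b

/-! ## row r6: the rings -/

private lemma r6_nn {P : ℤ → Ser n} {C : ℝ} (h : ∀ (k : ℤ) (μ : XX n →₀ ℕ), ‖coeff μ (P k)‖
    ≤ C ^ (μ.degree + k.natAbs + 1) * ((-k).toNat).factorial) : 0 ≤ C := by
  have h1 := h 0 0
  have h2 : (0 : ℝ) ≤ C ^ ((0 : XX n →₀ ℕ).degree + (0 : ℤ).natAbs + 1)
    * ((-(0 : ℤ)).toNat).factorial := (norm_nonneg _).trans h1
  simpa using h2

private lemma r6_pow {a b : ℝ} (ha : 0 ≤ a) (hb : 0 ≤ b) (e : ℕ) :
    a ^ (e + 1) + b ^ (e + 1) ≤ (a + b) ^ (e + 1) := by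
  have h1 : a ^ e ≤ (a + b) ^ e := pow_le_pow_left₀ ha (by linarith) e
  have h2 : b ^ e ≤ (a + b) ^ e := pow_le_pow_left₀ hb (by linarith) e
  calc a ^ (e + 1) + b ^ (e + 1) = a ^ e * a + b ^ e * b := by rw [pow_succ, pow_succ]
    _ ≤ (a + b) ^ e * a + (a + b) ^ e * b :=
        add_le_add (mul_le_mul_of_nonneg_right h1 ha) (mul_le_mul_of_nonneg_right h2 hb)
    _ = (a + b) ^ (e + 1) := by rw [pow_succ]; ring

private lemma r6_eul_zero (ξ : Fin n → ℂ) : eul ξ (0 : Ser n) = 0 := by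
  unfold eul
  simp

private lemma r6_eul_add (ξ : Fin n → ℂ) (f g : Ser n) : eul ξ (f + g) = eul ξ f + eul ξ g := by
  unfold eul
  rw [← Finset.sum_add_distrib]
  exact Finset.sum_congr rfl fun i _ => by rw [map_add, mul_add]

private lemma r6_eul_neg (ξ : Fin n → ℂ) (f : Ser n) : eul ξ (-f) = -eul ξ f := by
  unfold eul
  rw [← Finset.sum_neg_distrib]
  exact Finset.sum_congr rfl fun i _ => by rw [map_neg, mul_neg]

private lemma r6_sgl (μ : XX n →₀ ℕ) (k : ℤ) : ‖coeff μ ((sgl 0 1 : ℤ → Ser n) k)‖ ≤ 1 := by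
  classical
  unfold sgl
  split_ifs
  · rw [coeff_one]
    split_ifs <;> simp
  · simp

lemma IsMic.conv {P : ℤ → Ser n} (h : IsMic P) : ∃ R : ℝ, 0 < R ∧ ∀ k, ∃ C : ℝ, Bd C R (P k) := by
  obtain ⟨C, hC⟩ := h
  have h0 := r6_nn hC
  refine ⟨C + 1, by linarith, fun k => ⟨(C + 1) ^ (k.natAbs + 1) * ((-k).toNat).factorial,
    fun μ => (hC k μ).trans ?_⟩⟩
  calc C ^ (μ.degree + k.natAbs + 1) * ((-k).toNat).factorial
      ≤ (C + 1) ^ (μ.degree + k.natAbs + 1) * ((-k).toNat).factorial :=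
        mul_le_mul_of_nonneg_right (pow_le_pow_left₀ h0 (by linarith) _) (Nat.cast_nonneg _)
    _ = (C + 1) ^ (k.natAbs + 1) * ((-k).toNat).factorial * (C + 1) ^ μ.degree := by
        rw [add_assoc, pow_add]
        ring

lemma IsHat.zero (ξ : Fin n → ℂ) : IsHat ξ (0 : ℤ → Ser n) where
  hom k := by
    change eul ξ 0 = (k : ℂ) • (0 : Ser n)
    rw [r6_eul_zero, smul_zero]
  bdd := ⟨0, fun k _ => rfl⟩
  conv := ⟨1, one_pos, fun k => ⟨0, fun μ => by
    change ‖coeff μ (0 : Ser n)‖ ≤ _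
    simp⟩⟩

lemma IsHat.one (ξ : Fin n → ℂ) : IsHat ξ (sgl 0 1 : ℤ → Ser n) where
  hom k := by
    unfold sgl
    split_ifs with h
    · subst h
      unfold eul
      simp
    · rw [r6_eul_zero, smul_zero]
  bdd := ⟨0, fun k hk => if_neg (by intro h; subst h; simp at hk)⟩
  conv := ⟨1, one_pos, fun k => ⟨1, fun μ => by
    rw [one_pow, mul_one]
    exact r6_sgl μ k⟩⟩

lemma IsHat.add {ξ : Fin n → ℂ} {P Q : ℤ → Ser n} (hP : IsHat ξ P) (hQ : IsHat ξ Q) :
    IsHat ξ (P + Q) where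
  hom k := by
    change eul ξ (P k + Q k) = (k : ℂ) • (P k + Q k)
    rw [r6_eul_add, hP.hom, hQ.hom, smul_add]
  bdd := by
    obtain ⟨m, hm⟩ := hP.bdd
    obtain ⟨m', hm'⟩ := hQ.bdd
    refine ⟨max m m', fun k hk => ?_⟩
    push_cast at hk
    change P k + Q k = 0
    rw [hm k (lt_of_le_of_lt (le_max_left _ _) hk), hm' k (lt_of_le_of_lt (le_max_right _ _) hk),
      add_zero]
  conv := by
    obtain ⟨R, hR, h⟩ := hP.conv
    obtain ⟨R', hR', h'⟩ := hQ.conv
    refine ⟨max R R', lt_max_of_lt_left hR, fun k => ?_⟩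
    obtain ⟨C, hC⟩ := h k
    obtain ⟨C', hC'⟩ := h' k
    have h1 := hC.mono le_rfl hC.nonneg hR.le (le_max_left R R')
    have h2 := hC'.mono le_rfl hC'.nonneg hR'.le (le_max_right R R')
    refine ⟨C + C', fun μ => ?_⟩
    change ‖coeff μ (P k + Q k)‖ ≤ _
    rw [map_add, add_mul]
    exact (norm_add_le _ _).trans (add_le_add (h1 μ) (h2 μ))

lemma IsHat.neg {ξ : Fin n → ℂ} {P : ℤ → Ser n} (hP : IsHat ξ P) : IsHat ξ (-P) where
  hom k := by
    change eul ξ (-P k) = (k : ℂ) • (-P k)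
    rw [r6_eul_neg, hP.hom, smul_neg]
  bdd := by
    obtain ⟨m, hm⟩ := hP.bdd
    exact ⟨m, fun k hk => by
      change -P k = 0
      rw [hm k hk, neg_zero]⟩
  conv := by
    obtain ⟨R, hR, h⟩ := hP.conv
    refine ⟨R, hR, fun k => ?_⟩
    obtain ⟨C, hC⟩ := h k
    refine ⟨C, fun μ => ?_⟩
    change ‖coeff μ (-P k)‖ ≤ _
    rw [map_neg, norm_neg]
    exact hC μ

lemma IsHat.mul {ξ : Fin n → ℂ} {P Q : ℤ → Ser n} (hP : IsHat ξ P) (hQ : IsHat ξ Q) :
    IsHat ξ (pr P Q) := by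
  obtain ⟨m, hm⟩ := hP.bdd
  obtain ⟨m', hm'⟩ := hQ.bdd
  have h1 := pr_ub hm hm'
  have h2 : Ub ((m + m' : ℕ) : ℤ) (pr P Q) := by
    rw [Nat.cast_add]
    exact h1
  refine ⟨pr_hom hm hm' hP.hom hQ.hom, ⟨m + m', h2⟩, conv_of_lift h2 ?_⟩
  rw [Nat.cast_add, ← comp_lift hm hm']
  exact Pool.Agent.Ep.isFormal_comp (isFormal_lift hP.conv) (isFormal_lift hQ.conv)

lemma IsMic.zero : IsMic (0 : ℤ → Ser n) := ⟨1, fun k μ => by
  change ‖coeff μ (0 : Ser n)‖ ≤ _
  rw [map_zero, norm_zero, one_pow, one_mul]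
  exact Nat.cast_nonneg _⟩

lemma IsMic.one : IsMic (sgl 0 1 : ℤ → Ser n) := ⟨1, fun k μ => by
  rw [one_pow, one_mul]
  refine (r6_sgl μ k).trans ?_
  exact_mod_cast Nat.succ_le_of_lt (Nat.factorial_pos _)⟩

lemma IsMic.add {P Q : ℤ → Ser n} (hP : IsMic P) (hQ : IsMic Q) : IsMic (P + Q) := by
  obtain ⟨C, hC⟩ := hP
  obtain ⟨C', hC'⟩ := hQ
  refine ⟨C + C', fun k μ => ?_⟩
  change ‖coeff μ (P k + Q k)‖ ≤ _
  rw [map_add]
  refine (norm_add_le _ _).trans ((add_le_add (hC k μ) (hC' k μ)).trans ?_)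
  rw [← add_mul]
  exact mul_le_mul_of_nonneg_right (r6_pow (r6_nn hC) (r6_nn hC') _) (Nat.cast_nonneg _)

lemma IsMic.neg {P : ℤ → Ser n} (hP : IsMic P) : IsMic (-P) := by
  obtain ⟨C, hC⟩ := hP
  refine ⟨C, fun k μ => ?_⟩
  change ‖coeff μ (-P k)‖ ≤ _
  rw [map_neg, norm_neg]
  exact hC k μ

lemma IsMic.mul {m m' : ℕ} {P Q : ℤ → Ser n} (h : Ub m P) (h' : Ub m' Q) (hP : IsMic P)
    (hQ : IsMic Q) : IsMic (pr P Q) := by
  have h2 : Ub ((m + m' : ℕ) : ℤ) (pr P Q) := by
    rw [Nat.cast_add]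
    exact pr_ub h h'
  refine isMic_of_lift h2 ?_
  rw [Nat.cast_add, ← comp_lift h h']
  exact Pool.Agent.Ep.isMicro_comp (isMicro_lift hP) (isMicro_lift hQ)

/-- the ring of germs of formal microdifferential operators at `(x₀, ξ)` -/
def Germ (ξ : Fin n → ℂ) : Type := {P : ℤ → Ser n // IsHat ξ P}

namespace Germ

variable {ξ : Fin n → ℂ}

/-- the homogeneous parts of the total symbol -/
def sy (a : Germ ξ) : ℤ → Ser n := a.1

@[ext] lemma ext' {a b : Germ ξ} (h : a.sy = b.sy) : a = b := Subtype.ext h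

noncomputable instance : Zero (Germ ξ) := ⟨⟨0, IsHat.zero ξ⟩⟩
noncomputable instance : One (Germ ξ) := ⟨⟨sgl 0 1, IsHat.one ξ⟩⟩
noncomputable instance : Add (Germ ξ) := ⟨fun a b => ⟨a.1 + b.1, a.2.add b.2⟩⟩
noncomputable instance : Neg (Germ ξ) := ⟨fun a => ⟨-a.1, a.2.neg⟩⟩
noncomputable instance : Mul (Germ ξ) := ⟨fun a b => ⟨pr a.1 b.1, a.2.mul b.2⟩⟩

@[simp] lemma sy_zero : (0 : Germ ξ).sy = 0 := rfl
@[simp] lemma sy_one : (1 : Germ ξ).sy = sgl 0 1 := rfl
@[simp] lemma sy_add (a b : Germ ξ) : (a + b).sy = a.sy + b.sy := rfl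
@[simp] lemma sy_neg (a : Germ ξ) : (-a).sy = -a.sy := rfl
@[simp] lemma sy_mul (a b : Germ ξ) : (a * b).sy = pr a.sy b.sy := rfl

noncomputable instance : Ring (Germ ξ) where
  add_assoc a b c := ext' (add_assoc _ _ _)
  zero_add a := ext' (zero_add _)
  add_zero a := ext' (add_zero _)
  add_comm a b := ext' (add_comm _ _)
  neg_add_cancel a := ext' (neg_add_cancel _)
  nsmul := nsmulRec
  zsmul := zsmulRec
  mul_assoc a b c := ext' (by
    obtain ⟨_, ha⟩ := a.2.bdd
    obtain ⟨_, hb⟩ := b.2.bdd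
    obtain ⟨_, hc⟩ := c.2.bdd
    exact pr_assoc ha hb hc)
  one_mul a := ext' (by obtain ⟨_, ha⟩ := a.2.bdd; exact one_pr ha)
  mul_one a := ext' (by obtain ⟨_, ha⟩ := a.2.bdd; exact pr_one ha)
  zero_mul a := ext' (pr_zero_left _)
  mul_zero a := ext' (pr_zero_right _)
  left_distrib a b c := ext' (by
    obtain ⟨_, ha⟩ := a.2.bdd
    obtain ⟨m, hb⟩ := b.2.bdd
    obtain ⟨m', hc⟩ := c.2.bdd
    exact pr_add_right ha (hb.mono (le_max_left (m : ℤ) m')) (hc.mono (le_max_right (m : ℤ) m')))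
  right_distrib a b c := ext' (by
    obtain ⟨m, ha⟩ := a.2.bdd
    obtain ⟨m', hb⟩ := b.2.bdd
    obtain ⟨_, hc⟩ := c.2.bdd
    exact pr_add_left (ha.mono (le_max_left (m : ℤ) m')) (hb.mono (le_max_right (m : ℤ) m')) hc)

/-- the filtration by the order -/
def fil (ξ : Fin n → ℂ) (m : ℤ) : AddSubgroup (Germ ξ) where
  carrier := {a | Ub m a.sy}
  add_mem' := fun {a b} ha hb k hk => by
    change a.sy k + b.sy k = 0
    rw [ha k hk, hb k hk, add_zero]
  zero_mem' := fun k _ => rfl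
  neg_mem' := fun {a} ha k hk => by
    change -a.sy k = 0
    rw [ha k hk, neg_zero]

/-- germs of microdifferential operators -/
def mic (ξ : Fin n → ℂ) : Subring (Germ ξ) where
  carrier := {a | IsMic a.sy}
  mul_mem' := fun {a b} ha hb => by
    obtain ⟨_, h⟩ := a.2.bdd
    obtain ⟨_, h'⟩ := b.2.bdd
    exact IsMic.mul h h' ha hb
  one_mem' := IsMic.one
  add_mem' := fun ha hb => IsMic.add ha hb
  zero_mem' := IsMic.zero
  neg_mem' := fun ha => IsMic.neg ha

end Germ

end Pool.Agent.Cot
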