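import Pool.Agent.Cot.Ger

/-!
# Linear changes of coordinates of `ℂ^n` (P11, block C, helper50)

`x = h x'`, `ξ = g^T ξ'` with `h g = 1`.
-/

set_option autoImplicit false

namespace Pool.Agent.Cot

open MvPowerSeries
open Pool.Agent.Ep (leib)

variable {n : ℕ}

/-- the matrix of the substitution `x_i = ∑_j h i j x'_j`, `ξ_i = ∑_j g j i ξ'_j` -/
def mat (g h : Matrix (Fin n) (Fin n) ℂ) : Matrix (XX n) (XX n) ℂ :=
  Matrix.fromBlocks h 0 0 g.transpose

/-! ## row g1: derivatives, homogeneity -/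

private lemma g1_ll (g h : Matrix (Fin n) (Fin n) ℂ) (i j : Fin n) :
    mat g h (Sum.inl i) (Sum.inl j) = h i j := rfl
private lemma g1_lr (g h : Matrix (Fin n) (Fin n) ℂ) (i j : Fin n) :
    mat g h (Sum.inl i) (Sum.inr j) = 0 := rfl
private lemma g1_rl (g h : Matrix (Fin n) (Fin n) ℂ) (i j : Fin n) :
    mat g h (Sum.inr i) (Sum.inl j) = 0 := rfl
private lemma g1_rr (g h : Matrix (Fin n) (Fin n) ℂ) (i j : Fin n) :
    mat g h (Sum.inr i) (Sum.inr j) = g j i := rfl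

lemma dX_lin (g h : Matrix (Fin n) (Fin n) ℂ) (j : Fin n) (f : Ser n) :
    dX j (lin (mat g h) f) = ∑ i, h i j • lin (mat g h) (dX i f) := by
  refine (pderiv_lin (mat g h) (Sum.inl j) f).trans ?_
  rw [Fintype.sum_sum_type]
  simp only [g1_ll, g1_rl, zero_smul, Finset.sum_const_zero, add_zero]
  rfl
lemma dXi_lin (g h : Matrix (Fin n) (Fin n) ℂ) (j : Fin n) (f : Ser n) :
    dXi j (lin (mat g h) f) = ∑ i, g j i • lin (mat g h) (dXi i f) := by
  refine (pderiv_lin (mat g h) (Sum.inr j) f).trans ?_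
  rw [Fintype.sum_sum_type]
  simp only [g1_lr, g1_rr, zero_smul, Finset.sum_const_zero, zero_add]
  rfl

theorem eul_lin (g h : Matrix (Fin n) (Fin n) ℂ) {ξ ξ' : Fin n → ℂ} (hξ : ∀ i, ξ i = ∑ j, g j i * ξ' j)
    (f : Ser n) : eul ξ' (lin (mat g h) f) = lin (mat g h) (eul ξ f) := by
  have h1 : ∀ i, lin (mat g h) (C (ξ i) + X (Sum.inr i) : Ser n)
      = ∑ j, g j i • (C (ξ' j) + X (Sum.inr j)) := by
    intro i
    rw [map_add, lin_C, lin_X, lf, Fintype.sum_sum_type, hξ, map_sum]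
    simp only [g1_rl, g1_rr, zero_smul, Finset.sum_const_zero, zero_add, smul_add,
      Finset.sum_add_distrib]
    congr 1
    refine Finset.sum_congr rfl fun j _ => ?_
    rw [map_mul, smul_eq_C_mul]
  rw [eul, eul, map_sum]
  simp only [dXi_lin, map_mul, h1, Finset.mul_sum, Finset.sum_mul]
  rw [Finset.sum_comm]
  refine Finset.sum_congr rfl fun i _ => Finset.sum_congr rfl fun j _ => ?_
  rw [mul_smul_comm, smul_mul_assoc]

/-! ## row g2: the Leibniz formula is invariant -/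

/-- induction on `k`: `∑_j ∂_{ξ'_j} ⊗ ∂_{x'_j} = ∑_{i, i'} (h g) i' i ∂_{ξ_i} ⊗ ∂_{x_{i'}}` -/
theorem leib_lin {g h : Matrix (Fin n) (Fin n) ℂ} (hgh : h * g = 1) (k : ℕ) (f f' : Ser n) :
    leib dXi dX k (lin (mat g h) f) (lin (mat g h) f') = lin (mat g h) (leib dXi dX k f f') := by
  induction k generalizing f f' with
  | zero => exact (map_mul _ _ _).symm
  | succ k ih =>
    rw [Pool.Agent.Ep.leib_succ, Pool.Agent.Ep.leib_succ, map_smul, map_sum]
    congr 1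
    simp only [dXi_lin, dX_lin, Pool.Agent.Ep.leib_sum_left, Pool.Agent.Ep.leib_sum_right,
      Pool.Agent.Ep.leib_smul_left, Pool.Agent.Ep.leib_smul_right, ih, Finset.smul_sum, smul_smul]
    rw [Finset.sum_comm]
    refine Finset.sum_congr rfl fun i' _ => ?_
    rw [Finset.sum_comm]
    simp only [← Finset.sum_smul]
    have h1 : ∀ i, ∑ j, h i' j * g j i = if i' = i then 1 else 0 := by
      intro i
      have h2 := congrFun (congrFun hgh i') i
      rwa [Matrix.mul_apply, Matrix.one_apply] at h2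
    simp only [h1, ite_smul, one_smul, zero_smul, Finset.sum_ite_eq, Finset.mem_univ, if_true]

/-! ## row g3: the product, growth -/

-- BEGIN g3
private lemma g3_ub (g h : Matrix (Fin n) (Fin n) ℂ) {m : ℤ} {P : ℤ → Ser n} (hP : Ub m P) :
    Ub m fun k => lin (mat g h) (P k) := fun k hk => by
  change lin (mat g h) (P k) = 0
  rw [hP k hk, map_zero]

theorem pr_lin {g h : Matrix (Fin n) (Fin n) ℂ} (hgh : h * g = 1) {m m' : ℤ} {P Q : ℤ → Ser n}
    (hP : Ub m P) (hQ : Ub m' Q) :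
    pr (fun k => lin (mat g h) (P k)) (fun k => lin (mat g h) (Q k))
      = fun k => lin (mat g h) (pr P Q k) := by
  funext l
  rw [pr_eq_sum (g3_ub g h hP) (g3_ub g h hQ) l, pr_eq_sum hP hQ l, map_sum]
  refine Finset.sum_congr rfl fun k _ => ?_
  rw [map_sum]
  exact Finset.sum_congr rfl fun i _ => leib_lin hgh k _ _

theorem hat_lin (g h : Matrix (Fin n) (Fin n) ℂ) {ξ ξ' : Fin n → ℂ} (hξ : ∀ i, ξ i = ∑ j, g j i * ξ' j)
    {P : ℤ → Ser n} (hP : IsHat ξ P) : IsHat ξ' fun k => lin (mat g h) (P k) where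
  hom k := by
    rw [eul_lin g h hξ, hP.hom k, map_smul]
  bdd := by
    obtain ⟨m, hm⟩ := hP.bdd
    exact ⟨m, g3_ub g h hm⟩
  conv := by
    obtain ⟨K, hK, hb⟩ := lin_bd (mat g h)
    obtain ⟨R, hR, hc⟩ := hP.conv
    refine ⟨R * K, by positivity, fun k => ?_⟩
    obtain ⟨C, hC⟩ := hc k
    exact ⟨C * K, hb C R (P k) hR hC⟩

theorem mic_lin (g h : Matrix (Fin n) (Fin n) ℂ) {P : ℤ → Ser n} (hP : IsMic P) :
    IsMic fun k => lin (mat g h) (P k) := by
  obtain ⟨K, hK, hb⟩ := lin_bd (mat g h)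
  obtain ⟨C, hC⟩ := hP
  set D : ℝ := max |C| 1 with hD
  have hD1 : 1 ≤ D := le_max_right _ _
  have hD0 : 0 < D := by linarith
  refine ⟨D * K, fun k μ => ?_⟩
  have h1 : Bd (D ^ (k.natAbs + 1) * ((-k).toNat).factorial) D (P k) := by
    intro ν
    refine (hC k ν).trans ?_
    have h2 : C ^ (ν.degree + k.natAbs + 1) ≤ D ^ (ν.degree + k.natAbs + 1) := by
      refine (le_abs_self _).trans ?_
      rw [abs_pow]
      exact pow_le_pow_left₀ (abs_nonneg _) (le_max_left _ _) _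
    refine (mul_le_mul_of_nonneg_right h2 (by positivity)).trans (le_of_eq ?_)
    ring
  refine (hb _ _ _ hD0 h1 μ).trans ?_
  have h3 : K * K ^ μ.degree ≤ K ^ (μ.degree + k.natAbs + 1) := by
    rw [← pow_succ']
    exact pow_le_pow_right₀ hK (by omega)
  calc D ^ (k.natAbs + 1) * ((-k).toNat).factorial * K * (D * K) ^ μ.degree
      = (D ^ (μ.degree + k.natAbs + 1) * ((-k).toNat).factorial) * (K * K ^ μ.degree) := by
        rw [mul_pow]
        ring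
    _ ≤ (D ^ (μ.degree + k.natAbs + 1) * ((-k).toNat).factorial) *
        K ^ (μ.degree + k.natAbs + 1) := mul_le_mul_of_nonneg_left h3 (by positivity)
    _ = _ := by rw [mul_pow]; ring
-- END g3

/-! ## row g4: inverse, existence -/

lemma lin_inv {g h : Matrix (Fin n) (Fin n) ℂ} (hgh : h * g = 1) (f : Ser n) :
    lin (mat h g) (lin (mat g h) f) = f := by
  have h1 : mat g h * mat h g = 1 := by
    simp only [mat, Matrix.fromBlocks_multiply]
    rw [← Matrix.transpose_mul, hgh]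
    simp
  rw [lin_lin, h1, lin_one]

/-- every `ξ ≠ 0` is `g^T e` -/
theorem exists_gl (e ξ : Fin n → ℂ) (he : e ≠ 0) (hξ : ξ ≠ 0) : ∃ g h : Matrix (Fin n) (Fin n) ℂ,
    h * g = 1 ∧ g * h = 1 ∧ ∀ i, ξ i = ∑ j, g j i * e j := by
  obtain ⟨A, hA⟩ := SeparatingDual.exists_continuousLinearEquiv_apply_eq (R := ℂ) he hξ
  let L : (Fin n → ℂ) ≃ₗ[ℂ] (Fin n → ℂ) := A.toLinearEquiv
  have hL : L e = ξ := hA
  have h1 : LinearMap.toMatrix' (L : (Fin n → ℂ) →ₗ[ℂ] (Fin n → ℂ))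
      * LinearMap.toMatrix' (L.symm : (Fin n → ℂ) →ₗ[ℂ] (Fin n → ℂ)) = 1 := by
    rw [← LinearMap.toMatrix'_comp]
    simp
  have h2 : LinearMap.toMatrix' (L.symm : (Fin n → ℂ) →ₗ[ℂ] (Fin n → ℂ))
      * LinearMap.toMatrix' (L : (Fin n → ℂ) →ₗ[ℂ] (Fin n → ℂ)) = 1 := by
    rw [← LinearMap.toMatrix'_comp]
    simp
  refine ⟨(LinearMap.toMatrix' (L : (Fin n → ℂ) →ₗ[ℂ] (Fin n → ℂ))).transpose,
    (LinearMap.toMatrix' (L.symm : (Fin n → ℂ) →ₗ[ℂ] (Fin n → ℂ))).transpose, ?_, ?_, fun i => ?_⟩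
  · rw [← Matrix.transpose_mul, h1, Matrix.transpose_one]
  · rw [← Matrix.transpose_mul, h2, Matrix.transpose_one]
  · have h3 : (LinearMap.toMatrix' (L : (Fin n → ℂ) →ₗ[ℂ] (Fin n → ℂ))).mulVec e = ξ := by
      rw [LinearMap.toMatrix'_mulVec]
      exact hL
    rw [← congrFun h3 i]
    rfl

lemma inv_vec {g h : Matrix (Fin n) (Fin n) ℂ} (hgh : g * h = 1) {ξ ξ' : Fin n → ℂ}
    (hξ : ∀ i, ξ i = ∑ j, g j i * ξ' j) (i : Fin n) : ξ' i = ∑ j, h j i * ξ j := by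
  have h1 : ξ = g.transpose.mulVec ξ' := funext hξ
  have h2 : h.transpose.mulVec ξ = ξ' := by
    rw [h1, Matrix.mulVec_mulVec, ← Matrix.transpose_mul, hgh, Matrix.transpose_one,
      Matrix.one_mulVec]
  exact (congrFun h2 i).symm

/-! ## the isomorphism of the stalks -/

/-- the change of coordinates as an isomorphism of the stalks -/
noncomputable def Germ.lin {g h : Matrix (Fin n) (Fin n) ℂ} (h1 : h * g = 1) (h2 : g * h = 1)
    {ξ ξ' : Fin n → ℂ} (hξ : ∀ i, ξ i = ∑ j, g j i * ξ' j) : Germ ξ ≃+* Germ ξ' where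
  toFun a := ⟨fun k => Cot.lin (mat g h) (a.sy k), hat_lin g h hξ a.2⟩
  invFun a := ⟨fun k => Cot.lin (mat h g) (a.sy k), hat_lin h g (inv_vec h2 hξ) a.2⟩
  left_inv a := Germ.ext' (funext fun k => lin_inv h1 _)
  right_inv a := Germ.ext' (funext fun k => lin_inv h2 _)
  map_add' a b := Germ.ext' (funext fun k => map_add (Cot.lin (mat g h)) _ _)
  map_mul' a b := Germ.ext' (by
    obtain ⟨_, ha⟩ := a.2.bdd
    obtain ⟨_, hb⟩ := b.2.bdd
    exact (pr_lin h1 ha hb).symm)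

lemma Germ.sy_lin {g h : Matrix (Fin n) (Fin n) ℂ} (h1 : h * g = 1) (h2 : g * h = 1)
    {ξ ξ' : Fin n → ℂ} (hξ : ∀ i, ξ i = ∑ j, g j i * ξ' j) (a : Germ ξ) (k : ℤ) :
    (Germ.lin h1 h2 hξ a).sy k = Cot.lin (mat g h) (a.sy k) := rfl

lemma Germ.lin_fil {g h : Matrix (Fin n) (Fin n) ℂ} (h1 : h * g = 1) (h2 : g * h = 1)
    {ξ ξ' : Fin n → ℂ} (hξ : ∀ i, ξ i = ∑ j, g j i * ξ' j) (a : Germ ξ) (m : ℤ) :
    Germ.lin h1 h2 hξ a ∈ Germ.fil ξ' m ↔ a ∈ Germ.fil ξ m := by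
  refine ⟨fun ha k hk => ?_, fun ha k hk => ?_⟩
  · rw [← lin_inv h1 (a.sy k), ← Germ.sy_lin h1 h2 hξ, ha k hk, map_zero]
  · rw [Germ.sy_lin, ha k hk, map_zero]

lemma Germ.lin_mic {g h : Matrix (Fin n) (Fin n) ℂ} (h1 : h * g = 1) (h2 : g * h = 1)
    {ξ ξ' : Fin n → ℂ} (hξ : ∀ i, ξ i = ∑ j, g j i * ξ' j) (a : Germ ξ) :
    Germ.lin h1 h2 hξ a ∈ Germ.mic ξ' ↔ a ∈ Germ.mic ξ := by
  refine ⟨fun ha => ?_, fun ha => mic_lin g h ha⟩
  have h3 := mic_lin h g (P := (Germ.lin h1 h2 hξ a).sy) ha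
  have h4 : (fun k => Cot.lin (mat h g) ((Germ.lin h1 h2 hξ a).sy k)) = a.sy :=
    funext fun k => lin_inv h1 _
  rw [h4] at h3
  exact h3

end Pool.Agent.Cot
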