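import Pool.Agent.Cot.Std

/-!
# Inverse images, open subsets (P11, block C, helper50)
-/

set_option autoImplicit false

namespace Pool.Agent.Msh

open Topology Filter

variable {T T' : Type} [TopologicalSpace T] [TopologicalSpace T']

/-- the inverse image of a sheaf of filtered rings under a continuous map -/
def FRing.comap (R : FRing T) (φ : T' → T) (hφ : Continuous φ) : FRing T' where
  A p := R.A (φ p)
  ext p a q := R.ext (φ p) a (φ q)
  ext_self p a := R.ext_self (φ p) a
  ext_ext p a := (hφ.continuousAt.eventually (R.ext_ext (φ p) a)).mono fun q hq =>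
    hφ.continuousAt.eventually hq
  ext_add p a b := hφ.continuousAt.eventually (R.ext_add (φ p) a b)
  ext_mul p a b := hφ.continuousAt.eventually (R.ext_mul (φ p) a b)
  ext_one p := hφ.continuousAt.eventually (R.ext_one (φ p))
  fil p := R.fil (φ p)
  ext_fil m p a ha := hφ.continuousAt.eventually (R.ext_fil m (φ p) a ha)

/-- the inverse image of the sheaves `E ⊆ hat E` under a continuous map, for example their restriction to
an open subset -/
def MSheaf.comap {d : ℕ} (P : MSheaf T d) (φ : T' → T) (hφ : Continuous φ) : MSheaf T' d where
  hat := P.hat.comap φ hφ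
  E p := P.E (φ p)
  ext_E p a ha := hφ.continuousAt.eventually (P.ext_E (φ p) a ha)
  Z := {p | φ p ∈ P.Z}
  zero p hp := P.zero (φ p) hp
  std p hp := P.std (φ p) hp

end Pool.Agent.Msh
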