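import Pool.Agent.Cot.Lin
import Pool.Agent.Cot.Ext
import Pool.Agent.Msh.Defs

/-!
# The standard stalks (P11, block C, helper50)

At `(x₀, ξ₀)` with `ξ₀ = (0, …, 0, 1)`: a series homogeneous of degree `-j` is determined by its
restriction to `ξ_(d+1) = 1`.
-/

set_option autoImplicit false

namespace Pool.Agent.Cot

open MvPowerSeries Topology Filter
open Pool.Agent.Ep (leib Sym Var Op op comp IsFormal IsMicro lb D B hatE micE vs)
open Pool.Agent.Msh (FR FRing Std MSheaf)

variable {d : ℕ}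

/-- the covector `(0, …, 0, 1)` -/
def el (d : ℕ) : Fin (d + 1) → ℂ := Pi.single (Fin.last d) 1

/-- the exponent in `x`, `ξ` with the exponents of `x_i`, `t`, `y_i` in `μ`, and `0` for `ξ_(d+1)` -/
noncomputable def io (μ : Option (Var d) →₀ ℕ) : XX (d + 1) →₀ ℕ :=
  Finsupp.equivFunOnFinite.symm (Sum.elim
    (Fin.snoc (α := fun _ => ℕ) (fun i => μ (some (.x i))) (μ (some .t)))
    (Fin.snoc (α := fun _ => ℕ) (fun i => μ (some (.y i))) 0))

/-- the exponent in `x`, `t`, `y`, `s` with the exponents of `x_i`, `x_(d+1)`, `ξ_i` in `ν`, and `j` for `s` -/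
noncomputable def oi (j : ℕ) (ν : XX (d + 1) →₀ ℕ) : Option (Var d) →₀ ℕ :=
  Finsupp.equivFunOnFinite.symm fun v => match v with
    | none => j
    | some (.x i) => ν (.inl i.castSucc)
    | some .t => ν (.inl (Fin.last d))
    | some (.y i) => ν (.inr i.castSucc)

/-- the total symbol `∑_j P_(-j)(x, t, y, 1) s^j` -/
noncomputable def res (P : ℤ → Ser (d + 1)) : Sym d := fun μ => coeff (io μ) (P (-(μ none : ℤ)))

/-! ## row s1: exponents -/

/- BEGIN s1 (helper83) -/
private def s1_eqv (d : ℕ) : Option (Fin d ⊕ Fin d) ≃ Var d where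
  toFun v := match v with
    | none => .t
    | some (.inl i) => .x i
    | some (.inr i) => .y i
  invFun v := match v with
    | .t => none
    | .x i => some (.inl i)
    | .y i => some (.inr i)
  left_inv v := by rcases v with _ | i | i <;> rfl
  right_inv v := by cases v <;> rfl

private lemma s1_sum (g : Option (Var d) → ℕ) : ∑ v, g v =
    g none + (g (some .t) + (∑ i, g (some (.x i)) + ∑ i, g (some (.y i)))) := by
  rw [Fintype.sum_option, ← (s1_eqv d).sum_comp, Fintype.sum_option, Fintype.sum_sum_type]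
  rfl

private lemma s1_io_xl (μ : Option (Var d) →₀ ℕ) : io μ (.inl (Fin.last d)) = μ (some .t) := by
  change Fin.snoc (α := fun _ => ℕ) (fun i => μ (some (.x i))) (μ (some .t)) (Fin.last d) = _
  exact Fin.snoc_last (α := fun _ => ℕ) _ _
private lemma s1_io_x (μ : Option (Var d) →₀ ℕ) (i : Fin d) :
    io μ (.inl i.castSucc) = μ (some (.x i)) := by
  change Fin.snoc (α := fun _ => ℕ) (fun i => μ (some (.x i))) (μ (some .t)) i.castSucc = _
  exact Fin.snoc_castSucc (α := fun _ => ℕ) _ _ _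
private lemma s1_io_yl (μ : Option (Var d) →₀ ℕ) : io μ (.inr (Fin.last d)) = 0 := by
  change Fin.snoc (α := fun _ => ℕ) (fun i => μ (some (.y i))) 0 (Fin.last d) = _
  exact Fin.snoc_last (α := fun _ => ℕ) _ _
private lemma s1_io_y (μ : Option (Var d) →₀ ℕ) (i : Fin d) :
    io μ (.inr i.castSucc) = μ (some (.y i)) := by
  change Fin.snoc (α := fun _ => ℕ) (fun i => μ (some (.y i))) 0 i.castSucc = _
  exact Fin.snoc_castSucc (α := fun _ => ℕ) _ _ _

lemma io_oi (j : ℕ) {ν : XX (d + 1) →₀ ℕ} (h : ν (.inr (Fin.last d)) = 0) : io (oi j ν) = ν := by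
  refine Finsupp.ext fun v => ?_
  rcases v with i | i
  · refine Fin.lastCases ?_ (fun i => ?_) i
    · exact s1_io_xl _
    · exact s1_io_x _ i
  · refine Fin.lastCases ?_ (fun i => ?_) i
    · exact (s1_io_yl _).trans h.symm
    · exact s1_io_y _ i
lemma oi_io (μ : Option (Var d) →₀ ℕ) : oi (μ none) (io μ) = μ := by
  refine Finsupp.ext fun v => ?_
  rcases v with _ | i | _ | i
  · rfl
  · exact s1_io_x μ i
  · exact s1_io_xl μ
  · exact s1_io_y μ i
lemma degree_io (μ : Option (Var d) →₀ ℕ) : (io μ).degree + μ none = μ.degree := by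
  rw [Finsupp.degree_eq_sum, Finsupp.degree_eq_sum, s1_sum, Fintype.sum_sum_type,
    Fin.sum_univ_castSucc, Fin.sum_univ_castSucc, s1_io_xl, s1_io_yl]
  simp only [s1_io_x, s1_io_y]
  omega
lemma degree_oi (j : ℕ) (ν : XX (d + 1) →₀ ℕ) :
    (oi j ν).degree + ν (.inr (Fin.last d)) = ν.degree + j := by
  rw [Finsupp.degree_eq_sum, Finsupp.degree_eq_sum, s1_sum, Fintype.sum_sum_type,
    Fin.sum_univ_castSucc, Fin.sum_univ_castSucc]
  change j + (ν (.inl (Fin.last d)) + (∑ i : Fin d, ν (.inl i.castSucc)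
    + ∑ i : Fin d, ν (.inr i.castSucc))) + ν (.inr (Fin.last d)) = _
  omega

lemma res_add (P Q : ℤ → Ser (d + 1)) : res (P + Q) = res P + res Q := MvPowerSeries.ext fun _ =>
  map_add _ _ _
lemma res_smul (c : ℂ) (P : ℤ → Ser (d + 1)) : res (fun k => c • P k) = c • res P :=
  MvPowerSeries.ext fun _ => rfl
lemma res_sum {κ : Type} (s : Finset κ) (P : κ → ℤ → Ser (d + 1)) :
    res (fun k => ∑ i ∈ s, P i k) = ∑ i ∈ s, res (P i) := MvPowerSeries.ext fun μ => by
  rw [map_sum]
  exact map_sum (coeff (io μ)) _ _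
/- END s1 -/

/-! ## row s2: the product of commuting symbols; the restriction is multiplicative -/

/- BEGIN s2 (helper83) -/
private lemma s2_prk {P Q : ℤ → Ser (d + 1)} (hP : Ub 0 P) (hQ : Ub 0 Q) (j : ℕ) :
    prk 0 P Q (-(j : ℤ)) = ∑ e ∈ Finset.HasAntidiagonal.antidiagonal j, P (-(e.1 : ℤ)) * Q (-(e.2 : ℤ)) := by
  have h1 : prk 0 P Q (-(j : ℤ)) = ∑ᶠ i : ℤ, P i * Q (-(j : ℤ) - i) := by
    refine finsum_congr fun i => ?_
    show P i * Q (-(j : ℤ) + (0 : ℕ) - i) = _
    rw [Nat.cast_zero, add_zero]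
  rw [h1, finsum_eq_sum_of_support_subset (s := (Finset.range (j + 1)).image fun e : ℕ => -(e : ℤ))
    _ ?_, Finset.sum_image (fun a _ b _ hab => by simpa using hab),
    Finset.Nat.sum_antidiagonal_eq_sum_range_succ (f := fun a b => P (-(a : ℤ)) * Q (-(b : ℤ)))]
  · refine Finset.sum_congr rfl fun e he => ?_
    have he' : e ≤ j := by
      have := Finset.mem_range.1 he
      omega
    have h2 : -(j : ℤ) - -(e : ℤ) = -((j - e : ℕ) : ℤ) := by
      push_cast [Nat.cast_sub he']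
      ring
    rw [h2]
  · intro i hi
    have hi1 : i ≤ 0 := by
      by_contra hc
      exact hi (show P i * Q (-(j : ℤ) - i) = 0 by rw [hP i (by omega), zero_mul])
    have hi2 : -(j : ℤ) - i ≤ 0 := by
      by_contra hc
      exact hi (show P i * Q (-(j : ℤ) - i) = 0 by rw [hQ _ (by omega), mul_zero])
    refine Finset.mem_coe.2 (Finset.mem_image.2 ⟨(-i).toNat, Finset.mem_range.2 (by omega), ?_⟩)
    show -(((-i).toNat : ℕ) : ℤ) = i
    omega

private lemma s2_io_add (a b : Option (Var d) →₀ ℕ) : io (a + b) = io a + io b := by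
  refine Finsupp.ext fun v => ?_
  rw [Finsupp.add_apply]
  rcases v with i | i
  · refine Fin.lastCases ?_ (fun i => ?_) i
    · rw [s1_io_xl, s1_io_xl, s1_io_xl, Finsupp.add_apply]
    · rw [s1_io_x, s1_io_x, s1_io_x, Finsupp.add_apply]
  · refine Fin.lastCases ?_ (fun i => ?_) i
    · rw [s1_io_yl, s1_io_yl, s1_io_yl]
    · rw [s1_io_y, s1_io_y, s1_io_y, Finsupp.add_apply]

private lemma s2_oi_add (i j : ℕ) (a b : XX (d + 1) →₀ ℕ) :
    oi (i + j) (a + b) = oi i a + oi j b := by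
  refine Finsupp.ext fun v => ?_
  rw [Finsupp.add_apply]
  rcases v with _ | _ | _ | _ <;> rfl

lemma res_mul {P Q : ℤ → Ser (d + 1)} (hP : Ub 0 P) (hQ : Ub 0 Q) :
    res P * res Q = res (prk 0 P Q) := by
  classical
  refine MvPowerSeries.ext fun μ => ?_
  have h1 : coeff μ (res (prk 0 P Q)) = coeff (io μ) (prk 0 P Q (-(μ none : ℤ))) := rfl
  rw [h1, s2_prk hP hQ, map_sum, MvPowerSeries.coeff_mul]
  simp only [MvPowerSeries.coeff_mul]
  rw [← Finset.sum_product']
  refine Finset.sum_bij' (fun p _ => ((p.1 none, p.2 none), (io p.1, io p.2)))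
    (fun q _ => (oi q.1.1 q.2.1, oi q.1.2 q.2.2)) ?_ ?_ ?_ ?_ ?_
  · intro p hp
    have hp := Finset.HasAntidiagonal.mem_antidiagonal.1 hp
    refine Finset.mem_product.2 ⟨Finset.HasAntidiagonal.mem_antidiagonal.2 ?_, Finset.HasAntidiagonal.mem_antidiagonal.2 ?_⟩
    · show p.1 none + p.2 none = μ none
      rw [← hp, Finsupp.add_apply]
    · show io p.1 + io p.2 = io μ
      rw [← hp, s2_io_add]
  · intro q hq
    obtain ⟨h2, h3⟩ := Finset.mem_product.1 hq
    have h2 := Finset.HasAntidiagonal.mem_antidiagonal.1 h2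
    have h3 := Finset.HasAntidiagonal.mem_antidiagonal.1 h3
    refine Finset.HasAntidiagonal.mem_antidiagonal.2 ?_
    show oi q.1.1 q.2.1 + oi q.1.2 q.2.2 = μ
    rw [← s2_oi_add, h2, h3, oi_io]
  · intro p hp
    exact Prod.ext (oi_io p.1) (oi_io p.2)
  · intro q hq
    obtain ⟨h2, h3⟩ := Finset.mem_product.1 hq
    have h3 := Finset.HasAntidiagonal.mem_antidiagonal.1 h3
    have h4 : q.2.1 (.inr (Fin.last d)) + q.2.2 (.inr (Fin.last d)) = 0 := by
      rw [← Finsupp.add_apply, h3, s1_io_yl]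
    exact Prod.ext rfl (Prod.ext (io_oi _ (by omega)) (io_oi _ (by omega)))
  · intro p hp
    rfl
/- END s2 -/

/-! ## row s3: derivatives -/

private lemma s3_xc (μ : Option (Var d) →₀ ℕ) (i : Fin d) :
    io μ (.inl i.castSucc) = μ (some (.x i)) := by
  change Fin.snoc (α := fun _ => ℕ) (fun i => μ (some (.x i))) (μ (some .t)) i.castSucc = _
  exact Fin.snoc_castSucc (α := fun _ => ℕ) _ _ _

private lemma s3_xl (μ : Option (Var d) →₀ ℕ) : io μ (.inl (Fin.last d)) = μ (some .t) := by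
  change Fin.snoc (α := fun _ => ℕ) (fun i => μ (some (.x i))) (μ (some .t)) (Fin.last d) = _
  exact Fin.snoc_last (α := fun _ => ℕ) _ _

private lemma s3_yc (μ : Option (Var d) →₀ ℕ) (i : Fin d) :
    io μ (.inr i.castSucc) = μ (some (.y i)) := by
  change Fin.snoc (α := fun _ => ℕ) (fun i => μ (some (.y i))) 0 i.castSucc = _
  exact Fin.snoc_castSucc (α := fun _ => ℕ) _ _ _

private lemma s3_yl (μ : Option (Var d) →₀ ℕ) : io μ (.inr (Fin.last d)) = 0 := by
  change Fin.snoc (α := fun _ => ℕ) (fun i => μ (some (.y i))) 0 (Fin.last d) = _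
  exact Fin.snoc_last (α := fun _ => ℕ) _ _

private lemma s3_ext {a b : XX (d + 1) →₀ ℕ} (h1 : ∀ i : Fin d, a (.inl i.castSucc) = b (.inl i.castSucc))
    (h2 : a (.inl (Fin.last d)) = b (.inl (Fin.last d)))
    (h3 : ∀ i : Fin d, a (.inr i.castSucc) = b (.inr i.castSucc))
    (h4 : a (.inr (Fin.last d)) = b (.inr (Fin.last d))) : a = b := by
  ext v
  rcases v with i | i
  · exact Fin.lastCases h2 h1 i
  · exact Fin.lastCases h4 h3 i

private lemma s3_io_x (μ : Option (Var d) →₀ ℕ) (i : Fin d) :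
    io (μ + Finsupp.single (some (.x i)) 1) = io μ + Finsupp.single (.inl i.castSucc) 1 := by
  refine s3_ext (fun j => ?_) ?_ (fun j => ?_) ?_
  · rw [Finsupp.add_apply, s3_xc, s3_xc, Finsupp.add_apply, Finsupp.single_apply,
      Finsupp.single_apply]
    simp [Fin.castSucc_inj]
  · rw [Finsupp.add_apply, s3_xl, s3_xl, Finsupp.add_apply, Finsupp.single_apply,
      Finsupp.single_apply]
    simp [Fin.castSucc_ne_last]
  · rw [Finsupp.add_apply, s3_yc, s3_yc, Finsupp.add_apply, Finsupp.single_apply,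
      Finsupp.single_apply]
    simp
  · rw [Finsupp.add_apply, s3_yl, s3_yl, Finsupp.single_apply]
    simp

private lemma s3_io_t (μ : Option (Var d) →₀ ℕ) :
    io (μ + Finsupp.single (some .t) 1) = io μ + Finsupp.single (.inl (Fin.last d)) 1 := by
  refine s3_ext (fun j => ?_) ?_ (fun j => ?_) ?_
  · rw [Finsupp.add_apply, s3_xc, s3_xc, Finsupp.add_apply, Finsupp.single_apply,
      Finsupp.single_apply]
    simp [(Fin.castSucc_ne_last _).symm]
  · rw [Finsupp.add_apply, s3_xl, s3_xl, Finsupp.add_apply, Finsupp.single_apply,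
      Finsupp.single_apply]
    simp
  · rw [Finsupp.add_apply, s3_yc, s3_yc, Finsupp.add_apply, Finsupp.single_apply,
      Finsupp.single_apply]
    simp
  · rw [Finsupp.add_apply, s3_yl, s3_yl, Finsupp.single_apply]
    simp

private lemma s3_io_y (μ : Option (Var d) →₀ ℕ) (i : Fin d) :
    io (μ + Finsupp.single (some (.y i)) 1) = io μ + Finsupp.single (.inr i.castSucc) 1 := by
  refine s3_ext (fun j => ?_) ?_ (fun j => ?_) ?_
  · rw [Finsupp.add_apply, s3_xc, s3_xc, Finsupp.add_apply, Finsupp.single_apply,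
      Finsupp.single_apply]
    simp
  · rw [Finsupp.add_apply, s3_xl, s3_xl, Finsupp.add_apply, Finsupp.single_apply,
      Finsupp.single_apply]
    simp
  · rw [Finsupp.add_apply, s3_yc, s3_yc, Finsupp.add_apply, Finsupp.single_apply,
      Finsupp.single_apply]
    simp [Fin.castSucc_inj]
  · rw [Finsupp.add_apply, s3_yl, s3_yl, Finsupp.single_apply]
    simp [Fin.castSucc_ne_last]

private lemma s3_io_s (μ : Option (Var d) →₀ ℕ) (k : ℕ) :
    io (μ + Finsupp.single none k) = io μ := by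
  refine s3_ext (fun j => ?_) ?_ (fun j => ?_) ?_
  · rw [s3_xc, s3_xc, Finsupp.add_apply, Finsupp.single_apply]
    simp
  · rw [s3_xl, s3_xl, Finsupp.add_apply, Finsupp.single_apply]
    simp
  · rw [s3_yc, s3_yc, Finsupp.add_apply, Finsupp.single_apply]
    simp
  · rw [s3_yl, s3_yl]

private lemma s3_coeff (P : ℤ → Ser (d + 1)) (μ : Option (Var d) →₀ ℕ) :
    coeff μ (res P) = coeff (io μ) (P (-(μ none : ℤ))) := rfl

lemma res_B (P : ℤ → Ser (d + 1)) (i : Fin d) :
    B (some i) (res P) = res fun k => dX i.castSucc (P k) := by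
  ext μ
  change coeff μ (pderiv ℂ (some (Var.x i)) (res P))
    = coeff (io μ) (pderiv ℂ (Sum.inl i.castSucc) (P (-(μ none : ℤ))))
  rw [coeff_pderiv, coeff_pderiv, s3_coeff, s3_io_x, s3_xc]
  have h : (μ + Finsupp.single (some (Var.x i)) 1 : Option (Var d) →₀ ℕ) none = μ none := by
    simp
  rw [h]

lemma res_B_none (P : ℤ → Ser (d + 1)) :
    B none (res P) = res fun k => dX (Fin.last d) (P k) := by
  ext μ
  change coeff μ (pderiv ℂ (some Var.t) (res P))
    = coeff (io μ) (pderiv ℂ (Sum.inl (Fin.last d)) (P (-(μ none : ℤ))))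
  rw [coeff_pderiv, coeff_pderiv, s3_coeff, s3_io_t, s3_xl]
  have h : (μ + Finsupp.single (some Var.t) 1 : Option (Var d) →₀ ℕ) none = μ none := by
    simp
  rw [h]

private lemma s3_X_mul {V : Type} (v : V) (f : MvPowerSeries V ℂ) (ν : V →₀ ℕ) :
    coeff ν (X v * f) = if ν v = 0 then 0 else coeff (ν - Finsupp.single v 1) f := by
  classical
  rw [X_def, coeff_monomial_mul, one_mul]
  by_cases h : ν v = 0
  · rw [if_neg, if_pos h]
    intro h1
    have := h1 v
    rw [Finsupp.single_eq_same] at this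
    omega
  · rw [if_neg h, if_pos]
    rw [Finsupp.single_le_iff]
    omega

private lemma s3_X_pderiv {V : Type} (v : V) (f : MvPowerSeries V ℂ) (ν : V →₀ ℕ) :
    coeff ν (X v * pderiv ℂ v f) = (ν v : ℂ) * coeff ν f := by
  rw [s3_X_mul]
  by_cases h : ν v = 0
  · rw [if_pos h, h, Nat.cast_zero, zero_mul]
  · rw [if_neg h, coeff_pderiv]
    have h1 : ν - Finsupp.single v 1 + Finsupp.single v 1 = ν := by
      refine tsub_add_cancel_of_le ?_
      rw [Finsupp.single_le_iff]
      omega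
    have h2 : (((ν - Finsupp.single v 1 : V →₀ ℕ) v : ℕ) : ℂ) + 1 = ν v := by
      rw [Finsupp.tsub_apply, Finsupp.single_eq_same]
      norm_cast
      omega
    rw [h1, h2, mul_comm]

private lemma s3_split {μ : Option (Var d) →₀ ℕ} (h : μ none ≠ 0) :
    ∃ μ' : Option (Var d) →₀ ℕ, μ = μ' + Finsupp.single none 1 := by
  refine ⟨μ - Finsupp.single none 1, (tsub_add_cancel_of_le ?_).symm⟩
  rw [Finsupp.single_le_iff]
  omega

lemma res_D {P : ℤ → Ser (d + 1)} (hP : Ub 0 P) (i : Fin d) :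
    D (some i) (res P) = res fun k => dXi i.castSucc (P (k + 1)) := by
  ext μ
  have h0 : D (some i) (res P) = X none * pderiv ℂ (some (Var.y i)) (res P) := by
    simp [D, vs, Derivation.smul_apply, smul_eq_mul]
  rw [h0, s3_X_mul]
  change _ = coeff (io μ) (pderiv ℂ (Sum.inr i.castSucc) (P (-(μ none : ℤ) + 1)))
  by_cases h : μ none = 0
  · rw [if_pos h, h, hP _ (by simp), map_zero, map_zero]
  · rw [if_neg h]
    obtain ⟨μ', rfl⟩ := s3_split h
    rw [add_tsub_cancel_right, coeff_pderiv, coeff_pderiv, s3_coeff, s3_io_y, s3_io_s, s3_yc]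
    have h1 : (μ' + Finsupp.single (some (Var.y i)) 1 : Option (Var d) →₀ ℕ) none = μ' none := by
      simp
    have h2 : -((μ' + Finsupp.single none 1 : Option (Var d) →₀ ℕ) none : ℤ) + 1 = -(μ' none : ℤ) := by
      rw [Finsupp.add_apply, Finsupp.single_eq_same]
      push_cast
      ring
    rw [h1, h2]

private lemma s3_eul (f : Ser (d + 1)) (ν : XX (d + 1) →₀ ℕ) : coeff ν (eul (el d) f)
    = ((ν (.inr (Fin.last d)) : ℂ) + 1) * coeff (ν + Finsupp.single (.inr (Fin.last d)) 1) f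
      + (∑ i : Fin (d + 1), (ν (.inr i) : ℂ)) * coeff ν f := by
  rw [eul, map_sum, Finset.sum_mul]
  have h1 : ∀ i : Fin (d + 1), coeff ν ((C (el d i) + X (Sum.inr i)) * dXi i f)
      = el d i * coeff ν (dXi i f) + (ν (.inr i) : ℂ) * coeff ν f := fun i => by
    rw [add_mul, map_add, coeff_C_mul]
    congr 1
    exact s3_X_pderiv _ _ _
  rw [Finset.sum_congr rfl fun i _ => h1 i, Finset.sum_add_distrib]
  congr 1
  rw [Finset.sum_eq_single (Fin.last d) (fun i _ hi => by rw [el, Pi.single_eq_of_ne hi, zero_mul])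
    (fun h => absurd (Finset.mem_univ _) h), el, Pi.single_eq_same, one_mul]
  change coeff ν (pderiv ℂ (Sum.inr (Fin.last d)) f) = _
  rw [coeff_pderiv, mul_comm]

/-- the equation of Euler on `ξ_(d+1) = 1` -/
lemma res_D_none {P : ℤ → Ser (d + 1)} (hP : Ub 0 P)
    (h : ∀ k, eul (el d) (P k) = (k : ℂ) • P k) :
    D none (res P) = res fun k => dXi (Fin.last d) (P (k + 1)) := by
  ext μ
  have h0 : D none (res P) = -(X none * (X none * pderiv ℂ none (res P)
      + ∑ i : Fin d, X (some (Var.y i)) * pderiv ℂ (some (Var.y i)) (res P))) := by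
    simp only [D, vs, Derivation.neg_apply, Derivation.smul_apply, Derivation.add_apply, smul_eq_mul]
    congr 3
    rw [← Derivation.coeFnAddMonoidHom_apply, map_sum, Finset.sum_apply]
    rfl
  rw [h0, map_neg, s3_X_mul]
  change _ = coeff (io μ) (pderiv ℂ (Sum.inr (Fin.last d)) (P (-(μ none : ℤ) + 1)))
  by_cases h1 : μ none = 0
  · rw [if_pos h1, h1, hP _ (by simp), map_zero, map_zero, neg_zero]
  · rw [if_neg h1]
    obtain ⟨μ', rfl⟩ := s3_split h1
    rw [add_tsub_cancel_right, coeff_pderiv, map_add, map_sum, s3_X_pderiv,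
      Finset.sum_congr rfl fun i _ => s3_X_pderiv _ _ _, ← Finset.sum_mul, ← add_mul, s3_coeff,
      s3_io_s, s3_yl]
    have h2 : -((μ' + Finsupp.single none 1 : Option (Var d) →₀ ℕ) none : ℤ) + 1 = -(μ' none : ℤ) := by
      rw [Finsupp.add_apply, Finsupp.single_eq_same]
      push_cast
      ring
    have h3 := congrArg (coeff (io μ')) (h (-(μ' none : ℤ)))
    rw [s3_eul, coeff_smul, s3_yl, Fin.sum_univ_castSucc, s3_yl,
      Finset.sum_congr rfl fun i _ => congrArg Nat.cast (s3_yc μ' i)] at h3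
    rw [h2]
    push_cast at h3 ⊢
    linear_combination -h3

/-! ## row s4a: derivatives of homogeneous symbols -/

private lemma s4a_comm {V : Type} (i j : V) (f : MvPowerSeries V ℂ) :
    pderiv ℂ i (pderiv ℂ j f) = pderiv ℂ j (pderiv ℂ i f) := by
  classical
  ext n
  rw [coeff_pderiv, coeff_pderiv, coeff_pderiv, coeff_pderiv]
  by_cases h : i = j
  · subst h; rfl
  · have h1 : (n + Finsupp.single i 1 : V →₀ ℕ) j = n j := by
      simp [Finsupp.add_apply, h]
    have h2 : (n + Finsupp.single j 1 : V →₀ ℕ) i = n i := by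
      simp [Finsupp.add_apply, Ne.symm h]
    have h3 : n + Finsupp.single i 1 + Finsupp.single j 1
        = n + Finsupp.single j 1 + Finsupp.single i 1 := by
      rw [add_assoc, add_assoc, add_comm (Finsupp.single i 1)]
    rw [h1, h2, h3]
    ring

private lemma s4a_dx {n : ℕ} (ξ : Fin n → ℂ) (i : Fin n) (f : Ser n) :
    dX i (eul ξ f) = eul ξ (dX i f) := by
  unfold eul
  rw [map_sum]
  refine Finset.sum_congr rfl fun j _ => ?_
  rw [Derivation.leibniz, map_add]
  have h1 : dX i (C (ξ j) : Ser n) = 0 := pderiv_C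
  have h2 : dX i (X (Sum.inr j) : Ser n) = 0 := pderiv_X_of_ne (by simp)
  rw [h1, h2, add_zero, smul_zero, add_zero, smul_eq_mul]
  congr 1
  exact s4a_comm _ _ f

private lemma s4a_dxi {n : ℕ} (ξ : Fin n → ℂ) (i : Fin n) (f : Ser n) :
    dXi i (eul ξ f) = eul ξ (dXi i f) + dXi i f := by
  have h0 : ∀ j : Fin n, dXi i ((C (ξ j) + X (Sum.inr j)) * dXi j f)
      = (C (ξ j) + X (Sum.inr j)) * dXi j (dXi i f) + if j = i then dXi j f else 0 := by
    intro j
    rw [Derivation.leibniz, map_add]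
    have h1 : dXi i (C (ξ j) : Ser n) = 0 := pderiv_C
    rw [h1, zero_add, smul_eq_mul, smul_eq_mul]
    have h3 : dXi i (dXi j f) = dXi j (dXi i f) := s4a_comm _ _ f
    rw [h3]
    congr 1
    by_cases h : j = i
    · subst h
      rw [if_pos rfl]
      have h2 : dXi j (X (Sum.inr j) : Ser n) = 1 := pderiv_X_self
      rw [h2, mul_one]
    · rw [if_neg h]
      have h2 : dXi i (X (Sum.inr j) : Ser n) = 0 := pderiv_X_of_ne (by simpa using h)
      rw [h2, mul_zero]
  unfold eul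
  rw [map_sum, Finset.sum_congr rfl fun j _ => h0 j, Finset.sum_add_distrib]
  congr 1
  rw [Finset.sum_ite_eq' Finset.univ i, if_pos (Finset.mem_univ i)]

/-- `[E, ∂_{ξ_i}] = -∂_{ξ_i}`, `[E, ∂_{x_i}] = 0` -/
lemma hom_dXi {n : ℕ} {ξ : Fin n → ℂ} {P : ℤ → Ser n} (h : ∀ k, eul ξ (P k) = (k : ℂ) • P k)
    (i : Fin n) (k : ℤ) : eul ξ (dXi i (P (k + 1))) = (k : ℂ) • dXi i (P (k + 1)) := by
  have h1 := s4a_dxi ξ i (P (k + 1))
  rw [h, Derivation.map_smul] at h1
  push_cast at h1
  rw [add_smul, one_smul] at h1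
  exact (add_right_cancel h1).symm

lemma hom_dX {n : ℕ} {ξ : Fin n → ℂ} {P : ℤ → Ser n} (h : ∀ k, eul ξ (P k) = (k : ℂ) • P k)
    (i : Fin n) (k : ℤ) : eul ξ (dX i (P k)) = (k : ℂ) • dX i (P k) := by
  rw [← s4a_dx, h, Derivation.map_smul]

/-! ## row s4b: the product of operators -/

-- BEGIN s4b

/-- shift of the index in `prk` -/
private lemma s4b_shift {n : ℕ} (k : ℕ) (P Q : ℤ → Ser n) (l : ℤ) :
    prk k (fun k => P (k + 1)) Q l = prk k P Q (l + 1) := by
  unfold prk
  refine Eq.trans ?_ (finsum_comp_equiv (Equiv.addRight (1 : ℤ))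
    (f := fun i => leib dXi dX k (P i) (Q (l + 1 + k - i))))
  refine finsum_congr fun i => ?_
  change leib dXi dX k (P (i + 1)) (Q (l + k - i)) =
    leib dXi dX k (P (i + 1)) (Q (l + 1 + k - (i + 1)))
  congr 2
  ring

/-- induction on `k`, by `prk_succ` with the index shifted:
`prk (fun k => ∂_{ξ_i} P_k) Q (l + 1) = prk (fun k => ∂_{ξ_i} P_(k+1)) Q l` -/
theorem res_prk (k : ℕ) {P Q : ℤ → Ser (d + 1)} (hP : Ub 0 P) (hQ : Ub 0 Q)
    (hp : ∀ k, eul (el d) (P k) = (k : ℂ) • P k) (hq : ∀ k, eul (el d) (Q k) = (k : ℂ) • Q k) :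
    lb k (res P) (res Q) = res (prk k P Q) := by
  induction k generalizing P Q with
  | zero => exact res_mul hP hQ
  | succ k ih =>
    have hP' : ∀ i, Ub 0 fun k => dXi i (P (k + 1)) := fun i l hl => by
      change dXi i (P (l + 1)) = 0
      rw [hP (l + 1) (by omega), map_zero]
    have hQ' : ∀ i, Ub 0 fun k => dX i (Q k) := fun i l hl => by
      change dX i (Q l) = 0
      rw [hQ l hl, map_zero]
    have key : ∀ i : Fin (d + 1), lb k (res fun k => dXi i (P (k + 1))) (res fun k => dX i (Q k)) =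
        res (prk k (fun k => dXi i (P (k + 1))) fun k => dX i (Q k)) := fun i =>
      ih (hP' i) (hQ' i) (fun l => hom_dXi hp i l) (fun l => hom_dX hq i l)
    have h1 : lb (k + 1) (res P) (res Q) = ((k : ℂ) + 1)⁻¹ •
        ∑ i : Fin (d + 1), res (prk k (fun k => dXi i (P (k + 1))) fun k => dX i (Q k)) := by
      change ((k : ℂ) + 1)⁻¹ • ∑ i, lb k (D i (res P)) (B i (res Q)) = _
      congr 1
      rw [Fintype.sum_option, Fin.sum_univ_castSucc, res_D_none hP hp, res_B_none, key, add_comm]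
      congr 1
      refine Finset.sum_congr rfl fun i _ => ?_
      rw [res_D hP, res_B, key]
    rw [h1, ← res_sum Finset.univ (fun (i : Fin (d + 1)) =>
      prk k (fun k => dXi i (P (k + 1))) fun k => dX i (Q k)), ← res_smul]
    congr 1
    funext l
    rw [prk_succ hP hQ]
    congr 1
    refine Finset.sum_congr rfl fun i _ => ?_
    exact s4b_shift k (fun k => dXi i (P k)) (fun k => dX i (Q k)) l

theorem res_pr {P Q : ℤ → Ser (d + 1)} (hP : Ub 0 P) (hQ : Ub 0 Q)
    (hp : ∀ k, eul (el d) (P k) = (k : ℂ) • P k) (hq : ∀ k, eul (el d) (Q k) = (k : ℂ) • Q k) :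
    comp (res P) (res Q) = res (pr P Q) := by
  ext μ
  rw [Pool.Agent.Ep.coeff_comp]
  change _ = coeff (io μ) (pr P Q (-(μ none : ℤ)))
  have h1 : ∀ k ∈ Finset.range (μ none + 1), coeff μ (lb k (res P) (res Q)) =
      coeff (io μ) (prk k P Q (-(μ none : ℤ))) := by
    intro k _
    rw [res_prk k hP hQ hp hq]
    rfl
  have h2 : pr P Q (-(μ none : ℤ)) =
      ∑ k ∈ Finset.range (μ none + 1), prk k P Q (-(μ none : ℤ)) := by
    unfold pr
    refine finsum_eq_finsetSum_of_support_subset _ ?_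
    intro k hk
    rw [Function.mem_support] at hk
    rw [Finset.coe_range, Set.mem_Iio]
    by_contra hlt
    exact hk (prk_ub hP hQ k _ (by omega))
  rw [Finset.sum_congr rfl h1, h2, map_sum]

-- END s4b

/-! ## row s5: the equation of Euler -/

-- BEGIN s5

/-- `coeff ν (X_s ∂_s f) = ν_s coeff ν f` -/
private lemma s5_XD {V : Type} (v : V) (f : MvPowerSeries V ℂ) (ν : V →₀ ℕ) :
    coeff ν (X v * pderiv ℂ v f) = (ν v : ℂ) * coeff ν f := by
  classical
  rw [X_def]
  by_cases h : ν v = 0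
  · rw [coeff_monomial_mul, if_neg, h, Nat.cast_zero, zero_mul]
    intro hle
    have := hle v
    rw [Finsupp.single_eq_same] at this
    omega
  · have hle : Finsupp.single v 1 ≤ ν := Finsupp.single_le_iff.2 (Nat.one_le_iff_ne_zero.2 h)
    rw [coeff_monomial_mul, if_pos hle, one_mul, coeff_pderiv, tsub_add_cancel_of_le hle,
      Finsupp.tsub_apply, Finsupp.single_eq_same]
    have h2 : ((ν v - 1 : ℕ) : ℂ) + 1 = (ν v : ℂ) := by
      have : ν v - 1 + 1 = ν v := by omega
      exact_mod_cast this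
    rw [h2, mul_comm]

private lemma s5_coeff (f : Ser (d + 1)) (ν : XX (d + 1) →₀ ℕ) :
    coeff ν (eul (el d) f) = ((ν (.inr (Fin.last d)) : ℂ) + 1)
      * coeff (ν + Finsupp.single (.inr (Fin.last d)) 1) f
        + (∑ i : Fin (d + 1), (ν (.inr i) : ℂ)) * coeff ν f := by
  unfold eul
  rw [map_sum]
  have h1 : ∀ i : Fin (d + 1), coeff ν ((C (el d i) + X (Sum.inr i)) * dXi i f) =
      el d i * (coeff (ν + Finsupp.single (.inr i) 1) f * ((ν (.inr i) : ℂ) + 1))
        + (ν (.inr i) : ℂ) * coeff ν f := by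
    intro i
    rw [add_mul, map_add, coeff_C_mul]
    change el d i * coeff ν (pderiv ℂ (Sum.inr i) f) + coeff ν (X (Sum.inr i) *
      pderiv ℂ (Sum.inr i) f) = _
    rw [s5_XD, coeff_pderiv]
  rw [Finset.sum_congr rfl fun i _ => h1 i, Finset.sum_add_distrib, ← Finset.sum_mul]
  congr 1
  rw [Finset.sum_eq_single (Fin.last d)]
  · rw [el, Pi.single_eq_same, one_mul, mul_comm]
  · intro i _ hi
    rw [el, Pi.single_eq_of_ne hi, zero_mul]
  · intro h
    exact absurd (Finset.mem_univ _) h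

/-- the equation of Euler at `(0, …, 0, 1)` in coefficients -/
theorem eul_iff (k : ℤ) (f : Ser (d + 1)) : eul (el d) f = (k : ℂ) • f ↔
    ∀ ν : XX (d + 1) →₀ ℕ, ((ν (.inr (Fin.last d)) : ℂ) + 1)
      * coeff (ν + Finsupp.single (.inr (Fin.last d)) 1) f
        = ((k : ℂ) - ∑ i : Fin (d + 1), (ν (.inr i) : ℂ)) * coeff ν f := by
  constructor
  · intro h ν
    have h1 := s5_coeff f ν
    rw [h, coeff_smul] at h1
    linear_combination -h1
  · intro h
    ext ν
    rw [s5_coeff, coeff_smul, h ν]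
    ring

private lemma s5_ind {P Q : ℤ → Ser (d + 1)}
    (hp : ∀ k, eul (el d) (P k) = (k : ℂ) • P k) (hq : ∀ k, eul (el d) (Q k) = (k : ℂ) • Q k)
    (h : res P = res Q) (j κ : ℕ) : ∀ ν : XX (d + 1) →₀ ℕ, ν (.inr (Fin.last d)) = κ →
      coeff ν (P (-(j : ℤ))) = coeff ν (Q (-(j : ℤ))) := by
  induction κ with
  | zero =>
    intro ν hν
    have h1 := congrArg (coeff (oi j ν)) h
    change coeff (io (oi j ν)) (P (-((oi j ν) none : ℤ))) =
      coeff (io (oi j ν)) (Q (-((oi j ν) none : ℤ))) at h1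
    rw [io_oi j hν] at h1
    exact h1
  | succ κ ih =>
    intro ν hν
    obtain ⟨ν', rfl⟩ : ∃ ν', ν = ν' + Finsupp.single (.inr (Fin.last d)) 1 :=
      ⟨ν - Finsupp.single (.inr (Fin.last d)) 1,
        (tsub_add_cancel_of_le (Finsupp.single_le_iff.2 (by omega))).symm⟩
    have h0 : ν' (.inr (Fin.last d)) = κ := by
      rw [Finsupp.add_apply, Finsupp.single_eq_same] at hν
      omega
    have h1 := (eul_iff _ _).1 (hp (-(j : ℤ))) ν'
    have h2 := (eul_iff _ _).1 (hq (-(j : ℤ))) ν'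
    rw [ih ν' h0, ← h2] at h1
    have h3 : ((ν' (.inr (Fin.last d)) : ℂ) + 1) ≠ 0 := Nat.cast_add_one_ne_zero _
    exact mul_left_cancel₀ h3 h1

/-- (part of row s5) induction on the exponent of `ξ_(d+1)` -/
theorem res_injective {P Q : ℤ → Ser (d + 1)} (hP : Ub 0 P) (hQ : Ub 0 Q)
    (hp : ∀ k, eul (el d) (P k) = (k : ℂ) • P k) (hq : ∀ k, eul (el d) (Q k) = (k : ℂ) • Q k)
    (h : res P = res Q) : P = Q := by
  funext k
  rcases lt_or_ge 0 k with hk | hk
  · rw [hP k hk, hQ k hk]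
  · obtain ⟨j, rfl⟩ : ∃ j : ℕ, k = -(j : ℤ) := ⟨(-k).toNat, by omega⟩
    ext ν
    exact s5_ind hp hq h j _ ν rfl

-- END s5

/-! ## row s6: the homogeneous extension -/

/-- the symbols homogeneous of degree `-j` with the given restrictions to `ξ_(d+1) = 1`: the coefficient of
`(ξ_(d+1) - 1)^κ` is `(-1)^κ binom(N + κ - 1, κ)` times that of `(ξ_(d+1) - 1)^0`, `N = j + ∑ ν(ξ_i)` -/
noncomputable def ext0 (f : Sym d) : ℤ → Ser (d + 1) := fun k ν =>
  if 0 < k then 0 else (-1) ^ (ν (.inr (Fin.last d)))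
    * (((-k).toNat + ∑ i : Fin d, ν (.inr i.castSucc)).multichoose (ν (.inr (Fin.last d))) : ℂ)
    * coeff (oi (-k).toNat ν) f

private lemma s6_mc (N κ : ℕ) :
    (κ + 1) * N.multichoose (κ + 1) = (N + κ) * N.multichoose κ := by
  rcases N with _ | N
  · rcases κ with _ | κ
    · simp
    · simp
  · rw [Nat.multichoose_eq, Nat.multichoose_eq]
    have h1 : N + 1 + (κ + 1) - 1 = (N + κ) + 1 := by omega
    have h2 : N + 1 + κ - 1 = N + κ := by omega
    have h3 : N + 1 + κ = N + κ + 1 := by omega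
    rw [h1, h2, h3, Nat.add_one_mul_choose_eq, mul_comm]

private lemma s6_oi (j : ℕ) (ν : XX (d + 1) →₀ ℕ) :
    oi j (ν + Finsupp.single (.inr (Fin.last d)) 1) = oi j ν := by
  apply Finsupp.ext
  intro v
  unfold oi
  simp only [Finsupp.equivFunOnFinite_symm_apply_apply]
  rcases v with _ | v
  · rfl
  · cases v with
    | x i => simp
    | t => simp
    | y i =>
      simp only [Finsupp.add_apply]
      rw [Finsupp.single_apply, if_neg, add_zero]
      intro h
      exact (Fin.castSucc_lt_last i).ne (Sum.inr.inj h).symm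

private lemma s6_coeff (f : Sym d) {k : ℤ} (hk : k ≤ 0) (ν : XX (d + 1) →₀ ℕ) :
    coeff ν (ext0 f k) = (-1) ^ (ν (.inr (Fin.last d)))
    * (((-k).toNat + ∑ i : Fin d, ν (.inr i.castSucc)).multichoose (ν (.inr (Fin.last d))) : ℂ)
    * coeff (oi (-k).toNat ν) f := by
  show ext0 f k ν = _
  unfold ext0
  rw [if_neg (not_lt.2 hk)]

lemma ext0_ub (f : Sym d) : Ub 0 (ext0 f) := by
  intro k hk
  funext ν
  show ext0 f k ν = 0
  unfold ext0
  rw [if_pos hk]

/-- `(κ + 1) multichoose N (κ + 1) = (N + κ) multichoose N κ` -/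
theorem ext0_hom (f : Sym d) (k : ℤ) : eul (el d) (ext0 f k) = (k : ℂ) • ext0 f k := by
  rw [eul_iff]
  intro ν
  rcases lt_or_ge 0 k with hk | hk
  · rw [ext0_ub f k hk]
    simp
  · rw [s6_coeff f hk, s6_coeff f hk, s6_oi]
    set j := (-k).toNat with hj
    have hkj : (k : ℂ) = -(j : ℂ) := by
      have h1 : ((j : ℕ) : ℤ) = -k := by
        rw [hj]
        exact Int.toNat_of_nonneg (by omega)
      have h2 : ((j : ℤ) : ℂ) = ((-k : ℤ) : ℂ) := by rw [h1]
      push_cast at h2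
      rw [h2]
      ring
    set κ := ν (.inr (Fin.last d)) with hκ
    have e1 : (ν + Finsupp.single (Sum.inr (Fin.last d)) 1 : XX (d + 1) →₀ ℕ) (Sum.inr (Fin.last d)) = κ + 1 := by
      simp [hκ]
    have e2 : ∀ i : Fin d, (ν + Finsupp.single (Sum.inr (Fin.last d)) 1 : XX (d + 1) →₀ ℕ) (Sum.inr i.castSucc) =
        ν (Sum.inr i.castSucc) := by
      intro i
      rw [Finsupp.add_apply, Finsupp.single_apply, if_neg, add_zero]
      intro h
      exact (Fin.castSucc_lt_last i).ne (Sum.inr.inj h).symm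
    rw [e1, Finset.sum_congr rfl fun i _ => e2 i]
    rw [Fin.sum_univ_castSucc, hkj]
    set N := j + ∑ i : Fin d, ν (.inr i.castSucc) with hN
    have h3 : ((κ : ℂ) + 1) * (N.multichoose (κ + 1) : ℂ) = ((N : ℂ) + κ) * (N.multichoose κ : ℂ) := by
      have := s6_mc N κ
      exact_mod_cast this
    have h4 : (N : ℂ) = (j : ℂ) + ∑ i : Fin d, (ν (.inr i.castSucc) : ℂ) := by
      rw [hN]
      push_cast
      ring
    rw [← hκ, pow_succ]
    have h5 : -(j : ℂ) - (∑ i : Fin d, (ν (.inr i.castSucc) : ℂ) + (κ : ℂ)) = -((N : ℂ) + κ) := by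
      rw [h4]
      ring
    rw [h5]
    calc ((κ : ℂ) + 1) * ((-1) ^ κ * -1 * (N.multichoose (κ + 1) : ℂ) * coeff (oi j ν) f)
        = -(-1) ^ κ * coeff (oi j ν) f * (((κ : ℂ) + 1) * (N.multichoose (κ + 1) : ℂ)) := by ring
      _ = _ := by
        rw [h3]
        ring
theorem res_ext0 (f : Sym d) : res (ext0 f) = f := by
  funext μ
  show coeff (io μ) (ext0 f (-(μ none : ℤ))) = coeff μ f
  have h1 : (io μ) (.inr (Fin.last d)) = 0 := by
    unfold io
    simp
  rw [s6_coeff f (by omega), h1]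
  have h2 : (-(-(μ none : ℤ))).toNat = μ none := by
    rw [neg_neg, Int.toNat_natCast]
  rw [h2, oi_io]
  simp

/-! ## row s7a: growth (the binomial coefficients are at most `2^(N+κ)`) -/

private lemma s7a_multichoose (N κ : ℕ) : N.multichoose κ ≤ 2 ^ (N + κ) := by
  rw [Nat.multichoose_eq]
  exact (Nat.choose_le_two_pow _ _).trans (Nat.pow_le_pow_right (by norm_num) (by omega))

private lemma s7a_deg (j : ℕ) (ν : XX (d + 1) →₀ ℕ) :
    j + ∑ i : Fin d, ν (.inr i.castSucc) + ν (.inr (Fin.last d)) ≤ ν.degree + j := by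
  have h1 : ν.degree = ∑ i : Fin (d + 1), ν (.inl i) + ∑ i : Fin (d + 1), ν (.inr i) := by
    rw [Finsupp.degree_eq_sum, Fintype.sum_sum_type]
  rw [h1, Fin.sum_univ_castSucc (fun i => ν (.inr i))]
  omega

private lemma s7a_norm (f : Sym d) {k : ℤ} (hk : ¬ 0 < k) (ν : XX (d + 1) →₀ ℕ) :
    ‖coeff ν (ext0 f k)‖ ≤ 2 ^ (ν.degree + (-k).toNat) * ‖coeff (oi (-k).toNat ν) f‖ := by
  have h1 : coeff ν (ext0 f k) = (-1) ^ (ν (.inr (Fin.last d)))
    * (((-k).toNat + ∑ i : Fin d, ν (.inr i.castSucc)).multichoose (ν (.inr (Fin.last d))) : ℂ)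
    * coeff (oi (-k).toNat ν) f := by
    change (if 0 < k then (0 : ℂ) else _) = _
    rw [if_neg hk]
  rw [h1, norm_mul, norm_mul, norm_pow, norm_neg, norm_one, one_pow, one_mul, Complex.norm_natCast]
  refine mul_le_mul_of_nonneg_right ?_ (norm_nonneg _)
  have h2 := (s7a_multichoose ((-k).toNat + ∑ i : Fin d, ν (.inr i.castSucc))
    (ν (.inr (Fin.last d)))).trans (Nat.pow_le_pow_right (by norm_num) (s7a_deg (-k).toNat ν))
  exact_mod_cast h2

private lemma s7a_pos (f : Sym d) {k : ℤ} (hk : 0 < k) (ν : XX (d + 1) →₀ ℕ) :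
    coeff ν (ext0 f k) = 0 := by
  change (if 0 < k then (0 : ℂ) else _) = _
  rw [if_pos hk]

theorem ext0_hat {f : Sym d} (h : IsFormal f) : IsHat (el d) (ext0 f) := by
  refine ⟨ext0_hom f, ⟨0, by exact_mod_cast ext0_ub f⟩, ?_⟩
  obtain ⟨R, hR, h⟩ := h
  set S : ℝ := max R 1 with hS
  have hS1 : 1 ≤ S := le_max_right _ _
  refine ⟨2 * S, by positivity, fun k => ?_⟩
  by_cases hk : 0 < k
  · refine ⟨0, fun ν => ?_⟩
    rw [s7a_pos f hk, norm_zero, zero_mul]
  · obtain ⟨C, hC⟩ := h (-k).toNat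
    refine ⟨|C| * (2 * S) ^ (-k).toNat, fun ν => ?_⟩
    have h0 : (oi (-k).toNat ν) none = (-k).toNat := rfl
    have h1 := hC (oi (-k).toNat ν) h0
    have h2 : (oi (-k).toNat ν).degree ≤ ν.degree + (-k).toNat := by
      have := degree_oi (-k).toNat ν
      omega
    have h3 : C * R ^ (oi (-k).toNat ν).degree ≤ |C| * S ^ (ν.degree + (-k).toNat) := by
      refine mul_le_mul (le_abs_self C) ?_ (by positivity) (abs_nonneg _)
      exact (pow_le_pow_left₀ hR.le (le_max_left _ _) _).trans (pow_le_pow_right₀ hS1 h2)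
    calc ‖coeff ν (ext0 f k)‖ ≤ 2 ^ (ν.degree + (-k).toNat) * ‖coeff (oi (-k).toNat ν) f‖ :=
          s7a_norm f hk ν
      _ ≤ 2 ^ (ν.degree + (-k).toNat) * (|C| * S ^ (ν.degree + (-k).toNat)) :=
          mul_le_mul_of_nonneg_left (h1.trans h3) (by positivity)
      _ = |C| * (2 * S) ^ (-k).toNat * (2 * S) ^ ν.degree := by
          rw [mul_pow, mul_pow, pow_add, pow_add]
          ring

theorem ext0_mic {f : Sym d} (h : IsMicro f) : IsMic (ext0 f) := by
  obtain ⟨C, hC⟩ := h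
  set S : ℝ := max |C| 1 with hS
  have hS1 : 1 ≤ S := le_max_right _ _
  refine ⟨2 * S, fun k ν => ?_⟩
  by_cases hk : 0 < k
  · rw [s7a_pos f hk, norm_zero]
    positivity
  · have h0 : (oi (-k).toNat ν) none = (-k).toNat := rfl
    have h1 := hC (oi (-k).toNat ν)
    rw [h0] at h1
    have h2 : (oi (-k).toNat ν).degree ≤ ν.degree + (-k).toNat := by
      have := degree_oi (-k).toNat ν
      omega
    have h3 : C ^ ((oi (-k).toNat ν).degree + 1) ≤ S ^ (ν.degree + (-k).toNat + 1) := by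
      refine (le_abs_self _).trans ?_
      rw [abs_pow]
      exact (pow_le_pow_left₀ (abs_nonneg _) (le_max_left _ _) _).trans
        (pow_le_pow_right₀ hS1 (by omega))
    have h4 : k.natAbs = (-k).toNat := by omega
    rw [h4]
    calc ‖coeff ν (ext0 f k)‖ ≤ 2 ^ (ν.degree + (-k).toNat) * ‖coeff (oi (-k).toNat ν) f‖ :=
          s7a_norm f hk ν
      _ ≤ 2 ^ (ν.degree + (-k).toNat + 1)
          * (S ^ (ν.degree + (-k).toNat + 1) * ((-k).toNat).factorial) := by
          refine mul_le_mul (pow_le_pow_right₀ (by norm_num) (Nat.le_succ _))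
            (h1.trans (mul_le_mul_of_nonneg_right h3 (by positivity))) (norm_nonneg _)
            (by positivity)
      _ = (2 * S) ^ (ν.degree + (-k).toNat + 1) * ((-k).toNat).factorial := by
          rw [mul_pow]
          ring

/-! ## row s7b -/

theorem res_formal {P : ℤ → Ser (d + 1)} (h : IsHat (el d) P) : IsFormal (res P) := by
  obtain ⟨R, hR, h⟩ := h.conv
  refine ⟨max R 1, lt_max_of_lt_left hR, fun j => ?_⟩
  obtain ⟨C, hC⟩ := h (-(j : ℤ))
  refine ⟨|C|, fun m hm => ?_⟩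
  have h1 := hC (io m)
  have h2 : coeff m (res P) = coeff (io m) (P (-(j : ℤ))) := by
    change coeff (io m) (P (-(m none : ℤ))) = _
    rw [hm]
  have h3 : (io m).degree ≤ m.degree := by
    have := degree_io m
    omega
  rw [h2]
  refine h1.trans (mul_le_mul (le_abs_self C) ?_ (by positivity) (abs_nonneg _))
  exact (pow_le_pow_left₀ hR.le (le_max_left _ _) _).trans
    (pow_le_pow_right₀ (le_max_right _ _) h3)

theorem res_micro {P : ℤ → Ser (d + 1)} (h : IsMic P) : IsMicro (res P) := by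
  obtain ⟨C, hC⟩ := h
  refine ⟨C, fun m => ?_⟩
  have h1 := hC (-(m none : ℤ)) (io m)
  have h2 : (-(m none : ℤ)).natAbs = m none := by omega
  have h3 : (-(-(m none : ℤ))).toNat = m none := by omega
  rw [h2, h3, degree_io] at h1
  exact h1

/-! ## row s8a: `∂_t⁻¹` -/

/-- `1 / (1 + (ξ_(d+1) - 1))` -/
noncomputable def geo (d : ℕ) : Ser (d + 1) := fun ν =>
  if ν = Finsupp.single (.inr (Fin.last d)) (ν (.inr (Fin.last d))) then
    (-1) ^ (ν (.inr (Fin.last d))) else 0

private lemma s8a_coeff (ν : XX (d + 1) →₀ ℕ) : coeff ν (geo d) =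
    if ν = Finsupp.single (.inr (Fin.last d)) (ν (.inr (Fin.last d))) then
      (-1) ^ (ν (.inr (Fin.last d))) else 0 := rfl

lemma geo_mul : geo d * (1 + X (.inr (Fin.last d))) = 1 := by
  classical
  ext ν
  rw [mul_add, mul_one, map_add, X_def, coeff_mul_monomial, s8a_coeff, coeff_one]
  set v : XX (d + 1) := .inr (Fin.last d) with hv
  by_cases h1 : ν = Finsupp.single v (ν v)
  · rw [if_pos h1]
    rcases Nat.eq_zero_or_pos (ν v) with h0 | h0
    · have h2 : ν = 0 := by rw [h1, h0, Finsupp.single_zero]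
      subst h2
      rw [if_neg, if_pos rfl]
      · simp
      · intro h3
        have := h3 v
        simp at this
    · have h2 : Finsupp.single v 1 ≤ ν := Finsupp.single_le_iff.2 h0
      have h3 : ν ≠ 0 := fun h => by rw [h] at h0; simp at h0
      have h4 : (ν - Finsupp.single v 1 : XX (d + 1) →₀ ℕ) v = ν v - 1 := by
        rw [Finsupp.tsub_apply, Finsupp.single_eq_same]
      rw [if_pos h2, if_neg h3, s8a_coeff, ← hv, h4, if_pos, mul_one]
      · obtain ⟨k, hk⟩ := Nat.exists_eq_succ_of_ne_zero h0.ne'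
        rw [hk, Nat.succ_sub_one, pow_succ]
        ring
      · conv_lhs => rw [h1]
        rw [← Finsupp.single_tsub]
  · have h0 : ν ≠ 0 := by
      intro h
      apply h1
      rw [h]
      simp
    rw [if_neg h1, zero_add, if_neg h0]
    split_ifs with h2
    · rw [s8a_coeff, ← hv, if_neg, zero_mul]
      intro h3
      apply h1
      have h4 : ν = (ν - Finsupp.single v 1) + Finsupp.single v 1 := (tsub_add_cancel_of_le h2).symm
      have h5 : (ν - Finsupp.single v 1 : XX (d + 1) →₀ ℕ) v + 1 = ν v := by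
        have := congrArg (fun μ => μ v) h4
        simp only [Finsupp.add_apply, Finsupp.single_eq_same] at this
        exact this.symm
      conv_lhs => rw [h4, h3]
      rw [← Finsupp.single_add, h5]
    · rfl

private lemma s8a_one_add (i : Fin (d + 1)) :
    dXi i (1 + X (.inr (Fin.last d)) : Ser (d + 1)) = if i = Fin.last d then 1 else 0 := by
  rw [map_add, Derivation.map_one_eq_zero, zero_add]
  split_ifs with h
  · subst h
    exact pderiv_X_self
  · exact pderiv_X_of_ne (by simpa using Ne.symm h)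

private lemma s8a_eul (f : Ser (d + 1)) (h : ∀ i, i ≠ Fin.last d → dXi i f = 0) :
    eul (el d) f = (1 + X (.inr (Fin.last d))) * dXi (Fin.last d) f := by
  rw [eul, Finset.sum_eq_single (Fin.last d)]
  · rw [el, Pi.single_eq_same, map_one]
  · intro i _ hi
    rw [h i hi, mul_zero]
  · intro h
    exact absurd (Finset.mem_univ _) h

private lemma s8a_dgeo (i : Fin (d + 1)) :
    (1 + X (.inr (Fin.last d))) * dXi i (geo d) = if i = Fin.last d then -geo d else 0 := by
  have h := congrArg (dXi i) (geo_mul (d := d))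
  rw [Derivation.leibniz, Derivation.map_one_eq_zero, s8a_one_add] at h
  simp only [smul_eq_mul] at h
  split_ifs with hi
  · rw [if_pos hi, mul_one] at h
    exact eq_neg_of_add_eq_zero_right h
  · rw [if_neg hi, mul_zero, zero_add] at h
    exact h

private lemma s8a_dgeo0 (i : Fin (d + 1)) (hi : i ≠ Fin.last d) : dXi i (geo d) = 0 := by
  have h := s8a_dgeo i
  rw [if_neg hi] at h
  have h1 := congrArg (fun f => geo d * f) h
  simp only [← mul_assoc, geo_mul, one_mul, mul_zero] at h1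
  exact h1

private lemma s8a_eul_zero {n : ℕ} (ξ : Fin n → ℂ) : eul ξ (0 : Ser n) = 0 := by
  simp [eul]

private lemma s8a_norm (ν : XX (d + 1) →₀ ℕ) : ‖coeff ν (geo d)‖ ≤ 1 := by
  rw [s8a_coeff]
  split_ifs
  · rw [norm_pow, norm_neg, norm_one, one_pow]
  · rw [norm_zero]; exact zero_le_one

lemma geo_hat : IsHat (el d) (sgl (-1) (geo d)) := by
  refine ⟨fun k => ?_, ⟨0, fun k hk => if_neg (by omega)⟩, 1, one_pos, fun k => ⟨1, fun μ => ?_⟩⟩
  · by_cases hk : k = -1
    · subst hk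
      rw [sgl, if_pos rfl, s8a_eul _ s8a_dgeo0, s8a_dgeo, if_pos rfl]
      push_cast
      rw [neg_one_smul]
    · rw [sgl, if_neg hk, s8a_eul_zero, smul_zero]
  · rw [one_pow, mul_one, sgl]
    split_ifs
    · exact s8a_norm μ
    · rw [map_zero, norm_zero]; exact zero_le_one
lemma geo_mic : IsMic (sgl (-1) (geo d)) := by
  refine ⟨1, fun k μ => ?_⟩
  have h1 : (1 : ℝ) ≤ ((-k).toNat).factorial := by exact_mod_cast Nat.factorial_pos _
  rw [one_pow, one_mul, sgl]
  split_ifs
  · exact (s8a_norm μ).trans h1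
  · rw [map_zero, norm_zero]; linarith

private lemma s8a_norm2 (ν : XX (d + 1) →₀ ℕ) :
    ‖coeff ν (1 + X (.inr (Fin.last d)) : Ser (d + 1))‖ ≤ 2 := by
  classical
  rw [map_add, coeff_one, coeff_X]
  refine (norm_add_le _ _).trans ?_
  have h : ∀ (p : Prop) [Decidable p], ‖(if p then 1 else 0 : ℂ)‖ ≤ 1 := by
    intro p _
    split_ifs
    · rw [norm_one]
    · rw [norm_zero]; exact zero_le_one
  have := h (ν = 0)
  have := h (ν = Finsupp.single (.inr (Fin.last d)) 1)
  linarith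

lemma tau_hat : IsHat (el d) (sgl 1 (1 + X (.inr (Fin.last d))) : ℤ → Ser (d + 1)) := by
  refine ⟨fun k => ?_, ⟨1, fun k hk => if_neg (by omega)⟩, 1, one_pos, fun k => ⟨2, fun μ => ?_⟩⟩
  · by_cases hk : k = 1
    · subst hk
      rw [sgl, if_pos rfl, s8a_eul _ fun i hi => by rw [s8a_one_add, if_neg hi], s8a_one_add,
        if_pos rfl, mul_one, Int.cast_one, one_smul]
    · rw [sgl, if_neg hk, s8a_eul_zero, smul_zero]
  · rw [one_pow, mul_one, sgl]
    split_ifs
    · exact s8a_norm2 μ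
    · rw [map_zero, norm_zero]; exact zero_le_two
lemma tau_mic : IsMic (sgl 1 (1 + X (.inr (Fin.last d))) : ℤ → Ser (d + 1)) := by
  refine ⟨2, fun k μ => ?_⟩
  have h1 : (1 : ℝ) ≤ ((-k).toNat).factorial := by exact_mod_cast Nat.factorial_pos _
  have h2 : (2 : ℝ) ≤ 2 ^ (μ.degree + k.natAbs + 1) := le_self_pow₀ (by norm_num) (by omega)
  rw [sgl]
  split_ifs
  · refine (s8a_norm2 μ).trans (h2.trans (le_mul_of_one_le_right (by positivity) h1))
  · rw [map_zero, norm_zero]; positivity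

/-! ## row s8b -/

/- BEGIN s8b (helper83) -/
private lemma s8b_leib {n : ℕ} (k : ℕ) (f g : Ser n) (h : ∀ i, dX i g = 0) :
    leib dXi dX (k + 1) f g = 0 := by
  rw [Pool.Agent.Ep.leib_succ, Finset.sum_eq_zero, smul_zero]
  intro i _
  rw [h i, Pool.Agent.Ep.leib_zero_right]

/-- products of sequences concentrated in one degree, when no `x` occurs in the second factor -/
lemma sgl_pr {n : ℕ} (a b : ℤ) (f g : Ser n) (h : ∀ i, dX i g = 0) :
    pr (sgl a f) (sgl b g) = sgl (a + b) (f * g) := by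
  funext l
  have h1 : ∀ m, ∀ i, dX i ((sgl b g : ℤ → Ser n) m) = 0 := by
    intro m i
    rw [sgl]
    split_ifs
    · exact h i
    · exact map_zero _
  have h2 : ∀ k : ℕ, k ≠ 0 → prk k (sgl a f) (sgl b g) l = 0 := by
    intro k hk
    obtain ⟨k, rfl⟩ := Nat.exists_eq_succ_of_ne_zero hk
    refine (finsum_congr fun i => s8b_leib k _ _ (h1 _)).trans finsum_zero
  rw [pr, finsum_eq_single _ 0 h2, prk, finsum_eq_single _ a]
  · show sgl a f a * sgl b g (l + (0 : ℕ) - a) = sgl (a + b) (f * g) l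
    rw [sgl, sgl, sgl, if_pos rfl, Nat.cast_zero, add_zero]
    by_cases hl : l = a + b
    · rw [if_pos hl, if_pos (by omega)]
    · rw [if_neg hl, if_neg (by omega), mul_zero]
  · intro i hi
    show sgl a f i * _ = 0
    rw [sgl, if_neg hi, zero_mul]
lemma dX_geo (i : Fin (d + 1)) : dX i (geo d) = 0 := by
  refine MvPowerSeries.ext fun ν => ?_
  show coeff ν (pderiv ℂ (Sum.inl i) (geo d)) = 0
  rw [coeff_pderiv]
  have h1 : coeff (ν + Finsupp.single (Sum.inl i) 1) (geo d) = 0 := by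
    refine if_neg fun h => ?_
    have h2 := DFunLike.congr_fun h (Sum.inl i)
    rw [Finsupp.add_apply, Finsupp.single_eq_same,
      Finsupp.single_eq_of_ne (fun h => Sum.inl_ne_inr h)] at h2
    omega
  rw [h1, zero_mul]
lemma dX_tau (i : Fin (d + 1)) : dX i (1 + X (.inr (Fin.last d)) : Ser (d + 1)) = 0 := by
  show pderiv ℂ (Sum.inl i) (1 + X (.inr (Fin.last d)) : Ser (d + 1)) = 0
  rw [map_add, pderiv_one, pderiv_X_of_ne Sum.inr_ne_inl, add_zero]
lemma res_geo : res (sgl (-1) (geo d)) = vs := by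
  classical
  refine MvPowerSeries.ext fun μ => ?_
  have h1 : coeff μ (res (sgl (-1) (geo d)))
      = coeff (io μ) ((sgl (-1) (geo d) : ℤ → Ser (d + 1)) (-(μ none : ℤ))) := rfl
  have h0 : io μ (.inr (Fin.last d)) = 0 := by
    change Fin.snoc (α := fun _ => ℕ) (fun i => μ (some (.y i))) 0 (Fin.last d) = _
    exact Fin.snoc_last (α := fun _ => ℕ) _ _
  have h2 : coeff (io μ) (geo d) = if io μ = 0 then 1 else 0 := by
    show (if io μ = Finsupp.single (.inr (Fin.last d)) (io μ (.inr (Fin.last d))) then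
      (-1 : ℂ) ^ (io μ (.inr (Fin.last d))) else 0) = _
    rw [h0, Finsupp.single_zero, pow_zero]
  rw [h1, vs, coeff_X, sgl]
  by_cases h3 : μ = Finsupp.single none 1
  · have h4 : io μ = 0 := by
      rw [← Finsupp.degree_eq_zero_iff]
      have h5 := degree_io μ
      rw [h3, Finsupp.single_eq_same, Finsupp.degree_single] at h5
      rw [h3]
      omega
    rw [if_pos h3, if_pos (by rw [h3, Finsupp.single_eq_same]; rfl), h2, if_pos h4]
  · rw [if_neg h3]
    split_ifs with h4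
    · rw [h2, if_neg]
      intro h5
      refine h3 ?_
      have h6 : μ none = 1 := by omega
      rw [← oi_io μ, h5, h6]
      refine Finsupp.ext fun v => ?_
      rcases v with _ | v
      · rw [Finsupp.single_eq_same]
        rfl
      · rw [Finsupp.single_eq_of_ne (Option.some_ne_none v)]
        rcases v with _ | _ | _ <;> rfl
    · exact map_zero _
/- END s8b -/

/-! ## the standard stalk at `(0, …, 0, 1)` -/

/-- the operators of order `≤ 0` at `(0; (0, …, 0, 1))` -/
noncomputable def eqv0 (d : ℕ) : (Germ.fr (el d)).F0 ≃+* hatE d where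
  toFun a := ⟨op (res a.1.sy), res_formal a.1.2⟩
  invFun f := ⟨⟨ext0 f.1.sym, ext0_hat f.2⟩, ext0_ub _⟩
  left_inv a := Subtype.ext (Germ.ext'
    (res_injective (ext0_ub _) a.2 (ext0_hom _) a.1.2.hom (res_ext0 _)))
  right_inv f := Subtype.ext (congrArg op (res_ext0 _))
  map_add' a b := Subtype.ext (congrArg op (res_add _ _))
  map_mul' a b := Subtype.ext (congrArg op (res_pr a.2 b.2 a.1.2.hom b.1.2.hom).symm)

lemma eqv0_mic (a : (Germ.fr (el d)).F0) :
    (a : Germ (el d)) ∈ Germ.mic (el d) ↔ ((eqv0 d a : hatE d) : Op d) ∈ micE d := by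
  refine ⟨fun h => res_micro h, fun h => ?_⟩
  have h1 : IsMic (ext0 (res a.1.sy)) := ext0_mic h
  have h2 : ext0 (res a.1.sy) = a.1.sy :=
    res_injective (ext0_ub _) a.2 (ext0_hom _) a.1.2.hom (res_ext0 _)
  rw [h2] at h1
  exact h1

/-- `∂_t⁻¹` -/
noncomputable def sig (d : ℕ) : Germ (el d) := ⟨_, geo_hat⟩
/-- `∂_t` -/
noncomputable def tau (d : ℕ) : Germ (el d) := ⟨_, tau_hat⟩

lemma sig_fil : sig d ∈ Germ.fil (el d) (-1) := fun k hk => if_neg (by omega)
lemma tau_fil : tau d ∈ Germ.fil (el d) 1 := fun k hk => if_neg (by omega)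
lemma sig_tau : sig d * tau d = 1 := Germ.ext' ((sgl_pr _ _ _ _ dX_tau).trans (by
  rw [geo_mul]
  rfl))
lemma tau_sig : tau d * sig d = 1 := Germ.ext' ((sgl_pr _ _ _ _ dX_geo).trans (by
  rw [mul_comm, geo_mul]
  rfl))

/-- the stalk at `(x₀, ξ)`, `ξ ≠ 0` -/
theorem std {ξ : Fin (d + 1) → ℂ} (hξ : ξ ≠ 0) : Std d (Germ.fr ξ) (Germ.mic ξ) := by
  have he : el d ≠ 0 := fun h => by
    have h1 := congrFun h (Fin.last d)
    simp [el] at h1
  obtain ⟨g, h, h1, h2, h3⟩ := exists_gl (el d) ξ he hξ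
  let φ : Germ ξ ≃+* Germ (el d) := Germ.lin h1 h2 h3
  have hf : ∀ a m, φ a ∈ Germ.fil (el d) m ↔ a ∈ Germ.fil ξ m := Germ.lin_fil h1 h2 h3
  have hm : ∀ a, φ a ∈ Germ.mic (el d) ↔ a ∈ Germ.mic ξ := Germ.lin_mic h1 h2 h3
  have hf' : ∀ a m, φ.symm a ∈ Germ.fil ξ m ↔ a ∈ Germ.fil (el d) m := fun a m => by
    rw [← hf, φ.apply_symm_apply]
  have hm' : ∀ a, φ.symm a ∈ Germ.mic ξ ↔ a ∈ Germ.mic (el d) := fun a => by
    rw [← hm, φ.apply_symm_apply]
  let ψ : (Germ.fr ξ).F0 ≃+* (Germ.fr (el d)).F0 :=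
    { toFun := fun a => ⟨φ a.1, (hf a.1 0).2 a.2⟩
      invFun := fun a => ⟨φ.symm a.1, (hf' a.1 0).2 a.2⟩
      left_inv := fun a => Subtype.ext (φ.symm_apply_apply a.1)
      right_inv := fun a => Subtype.ext (φ.apply_symm_apply a.1)
      map_add' := fun a b => Subtype.ext (map_add φ a.1 b.1)
      map_mul' := fun a b => Subtype.ext (map_mul φ a.1 b.1) }
  have hs0 : sig d ∈ Germ.fil (el d) 0 := Ub.mono (m := -1) (by omega) sig_fil
  refine ⟨φ.symm (sig d), φ.symm (tau d), ψ.trans (eqv0 d), (hf' _ 0).2 hs0, (hf' _ _).2 sig_fil,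
    (hf' _ _).2 tau_fil, (hm' _).2 geo_mic, (hm' _).2 tau_mic, ?_, ?_, ?_, ?_⟩
  · rw [← map_mul, sig_tau, map_one]
  · rw [← map_mul, tau_sig, map_one]
  · have h4 : ψ ⟨φ.symm (sig d), (hf' _ 0).2 hs0⟩ = ⟨sig d, hs0⟩ :=
      Subtype.ext (φ.apply_symm_apply _)
    change ((eqv0 d (ψ _) : hatE d) : Op d) = op vs
    rw [h4]
    exact congrArg op res_geo
  · intro a
    rw [← hm]
    exact eqv0_mic (ψ a)

/-! ## row z: the zero section -/

-- BEGIN z
private lemma z_coeff {n : ℕ} (f : Ser n) (i : Fin n) (ν : XX n →₀ ℕ) :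
    coeff ν ((C ((0 : Fin n → ℂ) i) + X (Sum.inr i)) * dXi i f) = (ν (.inr i) : ℂ) * coeff ν f := by
  classical
  rw [Pi.zero_apply, map_zero, zero_add]
  change coeff ν ((X (Sum.inr i) : Ser n) * pderiv ℂ (Sum.inr i) f) = _
  rw [X, coeff_monomial_mul, one_mul]
  by_cases h0 : ν (Sum.inr i) = 0
  · rw [if_neg, h0, Nat.cast_zero, zero_mul]
    intro h
    have := h (Sum.inr i)
    rw [Finsupp.single_eq_same] at this
    omega
  · obtain ⟨ν', rfl⟩ : ∃ ν', ν = ν' + Finsupp.single (Sum.inr i) 1 := by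
      refine ⟨ν - Finsupp.single (Sum.inr i) 1, ?_⟩
      rw [tsub_add_cancel_of_le]
      rw [Finsupp.single_le_iff]
      omega
    rw [if_pos le_add_self, add_tsub_cancel_right, coeff_pderiv, Finsupp.add_apply,
      Finsupp.single_eq_same, mul_comm]
    push_cast
    rfl

/-- at `ξ = 0` the equation of Euler is `(∑ ν(ξ_i)) f_ν = k f_ν` -/
theorem zero_eul {n : ℕ} {k : ℤ} {f : Ser n} (h : eul 0 f = (k : ℂ) • f) (ν : XX n →₀ ℕ) :
    (∑ i, (ν (.inr i) : ℂ)) * coeff ν f = (k : ℂ) * coeff ν f := by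
  have h1 := congrArg (coeff ν) h
  rw [eul, map_sum, Finset.sum_congr rfl fun i _ => z_coeff f i ν, ← Finset.sum_mul, map_smul,
    smul_eq_mul] at h1
  exact h1
lemma zero_neg {n : ℕ} {P : ℤ → Ser n} (h : IsHat 0 P) {k : ℤ} (hk : k < 0) : P k = 0 := by
  ext ν
  have h1 := zero_eul (h.hom k) ν
  rw [map_zero]
  by_contra h2
  have h3 := mul_right_cancel₀ h2 h1
  have h4 : ((∑ i, (ν (.inr i) : ℤ) : ℤ) : ℂ) = (k : ℂ) := by
    rw [← h3]
    push_cast
    rfl
  have h5 : (∑ i, (ν (.inr i) : ℤ)) = k := Int.cast_injective h4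
  have h6 : 0 ≤ ∑ i, (ν (Sum.inr i : XX n) : ℤ) := Finset.sum_nonneg fun i _ => Int.natCast_nonneg _
  omega
/-- finitely many `P_k` are not `0` -/
theorem zero_mic {n : ℕ} {P : ℤ → Ser n} (h : IsHat 0 P) : IsMic P := by
  obtain ⟨m, hm⟩ := h.bdd
  obtain ⟨R, hR, hC⟩ := h.conv
  choose c hc using hC
  have hc0 : ∀ k, 0 ≤ c k := fun k => by
    have := (norm_nonneg _).trans (hc k 0)
    simpa using this
  set S : ℝ := 1 + R + ∑ k ∈ Finset.Icc (0 : ℤ) m, c k with hS
  have hs0 : 0 ≤ ∑ k ∈ Finset.Icc (0 : ℤ) m, c k := Finset.sum_nonneg fun k _ => hc0 k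
  have hS1 : 1 ≤ S := by rw [hS]; linarith
  refine ⟨S, fun k ν => ?_⟩
  have hpos : 0 ≤ S ^ (ν.degree + k.natAbs + 1) * (((-k).toNat).factorial : ℝ) := by positivity
  by_cases hk : 0 ≤ k ∧ k ≤ m
  · have h1 : c k ≤ S := by
      have := Finset.single_le_sum (f := c) (fun j _ => hc0 j) (Finset.mem_Icc.2 hk)
      rw [hS]
      linarith
    have h2 : R ≤ S := by rw [hS]; linarith
    have h3 : (1 : ℝ) ≤ (((-k).toNat).factorial : ℝ) := by
      exact_mod_cast Nat.one_le_iff_ne_zero.2 (Nat.factorial_ne_zero _)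
    calc ‖coeff ν (P k)‖ ≤ c k * R ^ ν.degree := hc k ν
      _ ≤ S * S ^ ν.degree :=
          mul_le_mul h1 (pow_le_pow_left₀ hR.le h2 _) (by positivity) (by linarith)
      _ = S ^ (ν.degree + 1) := by rw [pow_succ, mul_comm]
      _ ≤ S ^ (ν.degree + k.natAbs + 1) := pow_le_pow_right₀ hS1 (by omega)
      _ ≤ S ^ (ν.degree + k.natAbs + 1) * (((-k).toNat).factorial : ℝ) :=
          le_mul_of_one_le_right (by positivity) h3
  · have h1 : P k = 0 := by
      rcases lt_or_ge k 0 with h2 | h2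
      · exact zero_neg h h2
      · exact hm k (by omega)
    rw [h1, map_zero, norm_zero]
    exact hpos
-- END z

/-- The sheaves `E ⊆ hat E` on `T*ℂ^(d+1)`. -/
noncomputable def msheaf (d : ℕ) : MSheaf ((Fin (d + 1) → ℂ) × (Fin (d + 1) → ℂ)) d where
  hat := hat (d + 1)
  E p := Germ.mic p.2
  ext_E p a ha := by
    filter_upwards [gext_near p a, mic_near p (P := a.sy) ha] with q h1 h2
    change IsMic (gext p a q).sy
    rw [h1]
    exact h2
  Z := {p | p.2 = 0}
  zero p hp := by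
    obtain ⟨x, ξ⟩ := p
    obtain rfl : ξ = 0 := hp
    refine ⟨?_, ?_, ?_⟩
    · exact (Subring.eq_top_iff' _).2 fun a => zero_mic a.2
    · refine (AddSubgroup.eq_bot_iff_forall _).2 fun a ha => Germ.ext' (funext fun k => ?_)
      rcases lt_or_ge k 0 with hk | hk
      · exact zero_neg a.2 hk
      · exact ha k (by omega)
    · intro h
      have h1 : (sgl 0 1 : ℤ → Ser (d + 1)) 0 = 0 := congrFun (congrArg Germ.sy h) 0
      rw [sgl, if_pos rfl] at h1
      exact one_ne_zero h1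
  std p hp := std hp

end Pool.Agent.Cot
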